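import Pool.Agent.Lib.MP_06b9d2_tlm.CTc
import Pool.Agent.Lib.MP_06b9d2_tln.TNa
import Pool.Agent.Lib.MP_06b9d2_tln.Rpa

/-!
Module TLM-As3. Products over the prime factors (compare `MP_06b9d2_tln/Asm.lean`).

`pg3_one`: `TN_one`, `rp_one`, `sy_one`, `erd_one`, `erd_cl3` with `c = 1`. `pg3_mul`: `TN_mul` for `n₁ n₂` and for `n₂ n₁` gives `TN n₁ ∘ TN n₂ = TN n₂ ∘ TN n₁`, so `M₁ M₂ = M₂ M₁` (`rp_comm`); `rp_mul`, `sy_mul`, `cl3_mul`.
`pg3_n`: as `pg_n` in `MP_06b9d2_tln/Asm.lean`: induction on the finite set `S ⊆ n.primeFactors` for `∏_{p ∈ S} p ^ v_p(n)` with the exponent `∑_{p ∈ S} if P p then 1 else 0`.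
-/

namespace Pool.Agent.Lib.MP_06b9d2_tlm

open PowerSeries Pool.Agent.L1
open Pool.Agent.Lib.MP_06b9d2_ssp (PO Lv mo)
open Pool.Agent.Lib.MP_06b9d2_tls (Two Tl MG dmG)
open Pool.Agent.Lib.MP_06b9d2_tln (TN Mt ex Rp Sy act lu)

variable {O : ValuationSubring ℂ} {N e k : ℕ} {mo : ℕ → ℂ⟦X⟧}

theorem pg3_one (h3 : O.valuation 3 < 1) : PG3 O N e k mo 1 0 :=
  ⟨1, 1, by rw [Pool.Agent.Lib.MP_06b9d2_tln.TN_one]; exact Pool.Agent.Lib.MP_06b9d2_tln.rp_one mo,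
    Pool.Agent.Lib.MP_06b9d2_tln.sy_one, one_ne_zero, erd_cl3 e h3 erd_one⟩

theorem pg3_mul (h3 : O.valuation 3 < 1)
    (ind : ∀ x : ℕ → ℂ, ∑ s ∈ Finset.range (N + 1), x s • mo s = 0 → ∀ s ≤ N, x s = 0)
    {n₁ n₂ j₁ j₂ : ℕ} (hn₁ : n₁ ≠ 0) (hn₂ : n₂ ≠ 0) (hc : n₁.Coprime n₂) (h₁ : PG3 O N e k mo n₁ j₁)
    (h₂ : PG3 O N e k mo n₂ j₂) : PG3 O N e k mo (n₁ * n₂) (j₁ + j₂) := by
  obtain ⟨M₁, c₁, r₁, s₁, z₁, k₁⟩ := h₁
  obtain ⟨M₂, c₂, r₂, s₂, z₂, k₂⟩ := h₂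
  have h12 := Pool.Agent.Lib.MP_06b9d2_tln.TN_mul n₁ n₂ k hn₁ hn₂ hc
  have h21 := Pool.Agent.Lib.MP_06b9d2_tln.TN_mul n₂ n₁ k hn₂ hn₁ hc.symm
  have hT : TN n₁ k ∘ₗ TN n₂ k = TN n₂ k ∘ₗ TN n₁ k := by
    rw [← h12, ← h21, Nat.mul_comm]
  have hM : M₁ * M₂ = M₂ * M₁ := rp_comm ind hT r₁ r₂
  refine ⟨M₁ * M₂, c₁ * c₂, ?_, Pool.Agent.Lib.MP_06b9d2_tln.sy_mul s₁ s₂, mul_ne_zero z₁ z₂,
    cl3_mul e h3 hM z₁ z₂ k₁ k₂⟩
  rw [h12]
  exact Pool.Agent.Lib.MP_06b9d2_tln.rp_mul r₁ r₂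

theorem pg3_n (h3 : O.valuation 3 < 1)
    (ind : ∀ x : ℕ → ℂ, ∑ s ∈ Finset.range (N + 1), x s • mo s = 0 → ∀ s ≤ N, x s = 0)
    (P : ℕ → Prop) [DecidablePred P] (n : ℕ) (hn : n ≠ 0)
    (h : ∀ p ∈ n.primeFactors, PG3 O N e k mo (p ^ n.factorization p) (if P p then 1 else 0)) :
    PG3 O N e k mo n (n.primeFactors.filter P).card := by
  have key : ∀ S : Finset ℕ, S ⊆ n.primeFactors →
      PG3 O N e k mo (∏ p ∈ S, p ^ n.factorization p) (S.filter P).card := by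
    intro S
    induction S using Finset.induction_on with
    | empty =>
      intro _
      simpa using (pg3_one h3 : PG3 O N e k mo 1 0)
    | insert p S hp ih =>
      intro hS
      have hpS : p ∈ n.primeFactors := hS (Finset.mem_insert_self p S)
      have hSS : S ⊆ n.primeFactors := fun q hq => hS (Finset.mem_insert_of_mem hq)
      have hpp : p.Prime := Nat.prime_of_mem_primeFactors hpS
      have h0 : ∀ q ∈ S, q.Prime := fun q hq => Nat.prime_of_mem_primeFactors (hSS hq)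
      have hne : (∏ q ∈ S, q ^ n.factorization q) ≠ 0 :=
        Finset.prod_ne_zero_iff.mpr fun q hq => pow_ne_zero _ (h0 q hq).ne_zero
      have hco : (p ^ n.factorization p).Coprime (∏ q ∈ S, q ^ n.factorization q) := by
        apply Nat.Coprime.prod_right
        intro q hq
        apply Nat.Coprime.pow
        rw [Nat.coprime_primes hpp (h0 q hq)]
        rintro rfl
        exact hp hq
      have h2 := pg3_mul h3 ind (pow_ne_zero _ hpp.ne_zero) hne hco (h p hpS) (ih hSS)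
      rw [Finset.prod_insert hp]
      have h4 : ((insert p S).filter P).card = (if P p then 1 else 0) + (S.filter P).card := by
        rw [Finset.filter_insert]
        split_ifs with hP
        · rw [Finset.card_insert_of_notMem fun h4 => hp (Finset.mem_of_mem_filter _ h4)]
          ring
        · rw [zero_add]
      rw [h4]
      exact h2
  have h1 := key n.primeFactors (Finset.Subset.refl _)
  have h2 : (∏ p ∈ n.primeFactors, p ^ n.factorization p) = n := by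
    rw [← Nat.prod_factorization_eq_prod_primeFactors]
    exact Nat.prod_factorization_pow_eq_self hn
  rwa [h2] at h1

end Pool.Agent.Lib.MP_06b9d2_tlm
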