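import Pool.Agent.Lib.MP_06b9d2_tlm.Defs
import Pool.Agent.Lib.MP_06b9d2_tln.KerN
import Pool.Agent.Lib.MP_06b9d2_tls.Ker

/-!
Module TLM-Ker3. The conclusion from `HypN3 n`.

`ker_k3`: copy of `ker_le` (`MP_06b9d2_tls/Ker.lean`) with `ker_genN` (`MP_06b9d2_tln/KerN.lean`), `Mx = ex M` (compare `kerOne_of_hypN` there): for `s ≤ N`: `TN n k (mo s) = ∑_{j < N + 1} ex M j s • mo j`. `kerOne_of_hypN3`: `N = k / 3`, `e = k % 3`, `ker_k3`.
-/

namespace Pool.Agent.Lib.MP_06b9d2_tlm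

open PowerSeries Pool.Agent.L1 UpperHalfPlane Pool.Agent.Lib.MP_06b9d2_nt
open Pool.Agent.Lib.MP_06b9d2_ssp (PO Lv mo rep ind)
open Pool.Agent.Lib.MP_06b9d2_tls (Two Tl MG dmG KerOne)
open Pool.Agent.Lib.MP_06b9d2_tln (TN Mt ex Rp Sy act lu ker_genN)
open scoped MatrixGroups ModularForm

theorem ker_k3 {n : ℕ} (hn : n ≠ 0) {a c : ℂ⟦X⟧} (h : Lv a c) (k N e : ℕ) (hk : k = 3 * N + e) (he : e ≤ 2)
    (M : Mt N) (h1 : Rp (mo a c e N) (TN n k) M) (h2 : Sy M) (h3 : Two (ex M) N)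
    (T : CuspForm 𝒮ℒ (k : ℤ) →ₗ[ℂ] CuspForm 𝒮ℒ (k : ℤ)) (hT : IsHecke (k : ℤ) n T) (lam : ℂ) :
    Module.finrank ℂ (LinearMap.ker (T - lam • LinearMap.id)) ≤ 1 := by
  have hN3 : k / 3 = N := by omega
  have he3 : k % 3 = e := by omega
  refine ker_genN n hn k N (mo a c e N) (ex M) ?_ ?_ h3
    (fun x hx => Pool.Agent.Lib.MP_06b9d2_ssp.ind h e N x hx) ?_ T hT lam
  · intro s hs
    have h1' := h1 ⟨s, by omega⟩
    rw [h1', Finset.sum_range (fun j => ex M j s • mo a c e N j)]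
    refine Finset.sum_congr rfl fun j _ => ?_
    unfold ex
    rw [dif_pos ⟨j.2, by omega⟩]
  · intro j s hj hs
    have h1' := h2 ⟨j, by omega⟩ ⟨s, by omega⟩
    unfold ex
    rw [dif_pos ⟨by omega, by omega⟩, dif_pos ⟨by omega, by omega⟩, ← h1']
    congr 1
    · apply Fin.ext
      simp only [Fin.val_rev]
      omega
    · apply Fin.ext
      simp only [Fin.val_rev]
      omega
  · intro j _ hj
    obtain ⟨y, y1, y2, y3, y4, y5⟩ := rep h k j hj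
    rw [hN3] at y3 y4 y5
    rw [he3] at y5
    exact ⟨y, y1, y2, fun s hs => y3 s (by omega), by omega, y5⟩

theorem kerOne_of_hypN3 {n : ℕ} (hn : n ≠ 0) (H : HypN3 n) : KerOne n := by
  intro k hk T hT lam
  obtain ⟨a, c, h, hM⟩ := H
  have hk3 : k = 3 * (k / 3) + k % 3 := by omega
  have he2 : k % 3 ≤ 2 := by omega
  have hev : Even (k / 3 + k % 3) := by
    rw [Nat.even_iff] at hk ⊢
    omega
  obtain ⟨M, hR, hS, h2⟩ := hM (k % 3) (k / 3) he2 hev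
  rw [← hk3] at hR
  exact ker_k3 hn h k (k / 3) (k % 3) hk3 he2 M hR hS h2 T hT lam

end Pool.Agent.Lib.MP_06b9d2_tlm
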