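import Pool.Agent.Lib.MP_06b9d2_tlm.Rpb
import Pool.Agent.Lib.MP_06b9d2_tls.NrM

/-!
Module TLM-OpE. Bounds for the operators `opD`.

`opD_err`: `κ m n l * dmG e c N m n s = (3 ^ (m + n) κ m n l / (m! n!)) * u * ∏ (N - s - i) * ∏ (s - i)`, `u = (e / c) ^ m (1 / c) ^ n` a unit of `O`, the products are in `PO O` (`PO_desc` in `MP_06b9d2_tls/NrM.lean`), `3 ^ (m + n) κ m n l / (m! n!) = B z` with `z` in `O` (`m! n! ≠ 0`); `pd_shift` with `ρ = n + l`, `r = -n + l`; finite sums (`pd_add`).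
`opD_lin`, `opD_addF`, `opD_smulF`: `Finset.sum_add_distrib`, `Finset.mul_sum`. `opD_sg`: `sg (π + n + l) = - sg π` for odd `n + l` (`sg_add`, `sg_nat`).
`opD_diag`: only the terms `(0,0,0)`, `(1,0,0)`, `(0,1,1)`, `(2,0,0)`, `(1,1,1)`, `(0,2,2)` (`π + n + n = π`, `s - n + n = s`); the terms with `m > N` or `n > N` are missing in the sum but vanish for `s ≤ N` (`dmG_nat`: `C(N - s, m) = 0`, `C(s, n) = 0`).
`fact3`: `2 v_3(m! n!) ≤ m + n - 1` for `m + n ≥ 1` (`val_fact` in `NrM.lean`), stated for the valuation `O`: `v (3 ^ (m + n)) ≤ v (3 ^ a * (m! n!))` if `2 a ≤ m + n + 1` (and `m + n ≥ 1`): `m! n! = 3 ^ v b`, `3 ∤ b`, `v ≤ (m + n - 1) / 2`, `a + v ≤ m + n`.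
-/

namespace Pool.Agent.Lib.MP_06b9d2_tlm

open PowerSeries Pool.Agent.L1
open Pool.Agent.Lib.MP_06b9d2_ssp (PO Lv mo)
open Pool.Agent.Lib.MP_06b9d2_tls (Two Tl MG dmG)
open Pool.Agent.Lib.MP_06b9d2_tln (TN Mt ex Rp Sy act lu)

variable {O : ValuationSubring ℂ} {N : ℕ} {e c : ℂ}

private theorem opE_sum {f : ℕ → FF} (h : ∀ i, PD O (f i)) (k : ℕ) :
    PD O (fun π s => ∑ i ∈ Finset.range k, f i π s) := by
  induction k with
  | zero => simpa using pd_zero O
  | succ k ih => simpa only [Finset.sum_range_succ] using pd_add ih (h k)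

private theorem opE_rng (g : ℕ → ℂ) (N : ℕ) (h : ∀ m, N < m → g m = 0) (h' : ∀ m, 2 < m → g m = 0) :
    ∑ m ∈ Finset.range (N + 1), g m = ∑ m ∈ Finset.range 3, g m := by
  have h1 : ∑ m ∈ Finset.range (N + 1), g m = ∑ m ∈ Finset.range (N + 3), g m := by
    apply Finset.sum_subset
    · intro x hx
      simp only [Finset.mem_range] at hx ⊢
      omega
    · intro x _ hx
      simp only [Finset.mem_range] at hx
      exact h x (by omega)
  have h2 : ∑ m ∈ Finset.range 3, g m = ∑ m ∈ Finset.range (N + 3), g m := by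
    apply Finset.sum_subset
    · intro x hx
      simp only [Finset.mem_range] at hx ⊢
      omega
    · intro x _ hx
      simp only [Finset.mem_range] at hx
      exact h' x (by omega)
  rw [h1, h2]

theorem opD_err (he : O.valuation e = 1) (hc : O.valuation c = 1) (B : ℂ) (hB : B ≠ 0) (κ : ℕ → ℕ → ℕ → ℂ)
    (h : ∀ m n l, O.valuation (3 ^ (m + n) * κ m n l) ≤ O.valuation (B * ((m.factorial * n.factorial : ℕ) : ℂ)))
    (F : FF) (hF : PD O F) : ∃ G : FF, PD O G ∧ ∀ (π : ZMod 2) (s : ℤ), opD e c κ N F π s = B * G π s := by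
  have hc0 : c ≠ 0 := by
    rintro rfl
    rw [map_zero] at hc
    exact zero_ne_one hc
  refine ⟨fun π s => ∑ m ∈ Finset.range (N + 1), ∑ n ∈ Finset.range (N + 1),
    ∑ l ∈ Finset.range (m + n + 1),
      ((3 ^ (m + n) * κ m n l / (B * ((m.factorial * n.factorial : ℕ) : ℂ))) *
        ((e / c) ^ m * (1 / c) ^ n)) *
      (((∏ i ∈ Finset.range m, ((N : ℂ) - (s : ℂ) - (i : ℂ))) *
        ∏ i ∈ Finset.range n, ((s : ℂ) - (i : ℂ))) *
          F (π + ((n : ZMod 2) + (l : ZMod 2))) (s + (-(n : ℤ) + (l : ℤ)))), ?_, ?_⟩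
  · refine opE_sum (fun m => opE_sum (fun n => opE_sum (fun l => ?_) _) _) _
    refine pd_smul _ ?_ (pd_mul _ (MP_06b9d2_tls.PO_desc O N m n) (pd_shift _ _ hF))
    have hf : B * ((m.factorial * n.factorial : ℕ) : ℂ) ≠ 0 := by
      refine mul_ne_zero hB ?_
      exact_mod_cast mul_ne_zero (Nat.factorial_ne_zero m) (Nat.factorial_ne_zero n)
    have hu : O.valuation ((e / c) ^ m * (1 / c) ^ n) = 1 := by
      rw [map_mul, map_pow, map_pow, map_div₀, map_div₀, he, hc, map_one]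
      simp
    rw [map_mul, hu, mul_one, map_div₀]
    exact div_le_one_of_le₀ (h m n l) zero_le'
  · intro π s
    unfold opD
    simp only [Finset.mul_sum]
    refine Finset.sum_congr rfl fun m _ => Finset.sum_congr rfl fun n _ =>
      Finset.sum_congr rfl fun l _ => ?_
    have e1 : π + (n : ZMod 2) + (l : ZMod 2) = π + ((n : ZMod 2) + (l : ZMod 2)) := add_assoc _ _ _
    have e2 : s - (n : ℤ) + (l : ℤ) = s + (-(n : ℤ) + (l : ℤ)) := by ring
    rw [e1, e2]
    unfold dmG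
    generalize F (π + ((n : ZMod 2) + (l : ZMod 2))) (s + (-(n : ℤ) + (l : ℤ))) = y
    generalize ∏ i ∈ Finset.range m, ((N : ℂ) - (s : ℂ) - (i : ℂ)) = P
    generalize ∏ i ∈ Finset.range n, ((s : ℂ) - (i : ℂ)) = Q
    have hm : (m.factorial : ℂ) ≠ 0 := by exact_mod_cast Nat.factorial_ne_zero m
    have hn : (n.factorial : ℂ) ≠ 0 := by exact_mod_cast Nat.factorial_ne_zero n
    have h4 : (3 * e / c) ^ m * (3 / c) ^ n = (e / c) ^ m * (1 / c) ^ n * 3 ^ (m + n) := by
      rw [pow_add, div_pow, div_pow, div_pow, div_pow, mul_pow, one_pow]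
      field_simp
    rw [h4]
    push_cast
    generalize (e / c) ^ m * (1 / c) ^ n = u
    field_simp

theorem opD_lin (κ₁ κ₂ : ℕ → ℕ → ℕ → ℂ) (y : ℂ) (F : FF) (π : ZMod 2) (s : ℤ) :
    opD e c (fun m n l => κ₁ m n l + y * κ₂ m n l) N F π s = opD e c κ₁ N F π s + y * opD e c κ₂ N F π s := by
  unfold opD
  simp only [Finset.mul_sum, ← Finset.sum_add_distrib]
  exact Finset.sum_congr rfl fun m _ => Finset.sum_congr rfl fun n _ =>
    Finset.sum_congr rfl fun l _ => by ring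

theorem opD_addF (κ : ℕ → ℕ → ℕ → ℂ) (F G : FF) (π : ZMod 2) (s : ℤ) :
    opD e c κ N (fun π s => F π s + G π s) π s = opD e c κ N F π s + opD e c κ N G π s := by
  unfold opD
  simp only [← Finset.sum_add_distrib]
  exact Finset.sum_congr rfl fun m _ => Finset.sum_congr rfl fun n _ =>
    Finset.sum_congr rfl fun l _ => by ring

theorem opD_smulF (κ : ℕ → ℕ → ℕ → ℂ) (z : ℂ) (F : FF) (π : ZMod 2) (s : ℤ) :
    opD e c κ N (fun π s => z * F π s) π s = z * opD e c κ N F π s := by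
  unfold opD
  simp only [Finset.mul_sum]
  exact Finset.sum_congr rfl fun m _ => Finset.sum_congr rfl fun n _ =>
    Finset.sum_congr rfl fun l _ => by ring

theorem opD_sg (κ : ℕ → ℕ → ℕ → ℂ) (h : ∀ m n l, (n + l) % 2 = 0 → κ m n l = 0) (F : FF) (π : ZMod 2) (s : ℤ) :
    opD e c κ N (SG F) π s = -(sg π * opD e c κ N F π s) := by
  unfold opD
  simp only [Finset.mul_sum, ← Finset.sum_neg_distrib]
  refine Finset.sum_congr rfl fun m _ => Finset.sum_congr rfl fun n _ =>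
    Finset.sum_congr rfl fun l _ => ?_
  rcases Nat.mod_two_eq_zero_or_one (n + l) with h0 | h0
  · rw [h m n l h0]
    ring
  · have h1 : sg (π + (n : ZMod 2) + (l : ZMod 2)) = -sg π := by
      rw [add_assoc, sg_add, sg_add, sg_nat, sg_nat, ← pow_add,
        Odd.neg_one_pow (Nat.odd_iff.2 h0)]
      ring
    unfold SG
    rw [h1]
    ring

theorem opD_diag (κ : ℕ → ℕ → ℕ → ℂ) (h : ∀ m n l, l ≠ n ∨ 2 < m + n → κ m n l = 0) (F : FF) (π : ZMod 2)
    (s : Fin (N + 1)) : opD e c κ N F π ((s : ℕ) : ℤ) =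
      (κ 0 0 0 + κ 1 0 0 * (3 * e / c) * (N - (s : ℕ)) + κ 0 1 1 * (3 / c) * (s : ℕ) +
        κ 2 0 0 * (3 * e / c) ^ 2 * ((N - (s : ℕ)) * (N - (s : ℕ) - 1) / 2) +
        κ 1 1 1 * (3 * e / c) * (3 / c) * ((N - (s : ℕ)) * (s : ℕ)) +
        κ 0 2 2 * (3 / c) ^ 2 * ((s : ℕ) * ((s : ℕ) - 1) / 2)) * F π ((s : ℕ) : ℤ) := by
  have hsN : (s : ℕ) ≤ N := by have := s.2; omega
  set g : ℕ → ℕ → ℂ := fun m n => κ m n n * dmG e c N m n ((s : ℕ) : ℤ) with hg
  have hv : ∀ m n, N < m ∨ N < n → dmG e c N m n ((s : ℕ) : ℤ) = 0 := by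
    intro m n hmn
    rw [MP_06b9d2_tls.dmG_nat e c N m n s hsN]
    rcases hmn with h | h
    · rw [Nat.choose_eq_zero_of_lt (show N - (s : ℕ) < m by omega)]; simp
    · rw [Nat.choose_eq_zero_of_lt (show (s : ℕ) < n by omega)]; simp
  have hin : ∀ m n, ∑ l ∈ Finset.range (m + n + 1), κ m n l *
      (dmG e c N m n ((s : ℕ) : ℤ) * F (π + (n : ZMod 2) + (l : ZMod 2)) (((s : ℕ) : ℤ) - n + l)) =
        g m n * F π ((s : ℕ) : ℤ) := by
    intro m n
    rw [Finset.sum_eq_single n]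
    · have e1 : π + (n : ZMod 2) + (n : ZMod 2) = π := by
        rw [add_assoc, CharTwo.add_self_eq_zero, add_zero]
      rw [e1, sub_add_cancel]
      simp only [hg]
      ring
    · intro l _ hl
      rw [h m n l (Or.inl hl), zero_mul]
    · intro hl
      exact absurd (Finset.mem_range.2 (by omega)) hl
  have hz : ∀ m n, 2 < m + n → g m n = 0 := by
    intro m n hmn
    simp only [hg]
    rw [h m n n (Or.inr hmn), zero_mul]
  have h1 : opD e c κ N F π ((s : ℕ) : ℤ) = ∑ m ∈ Finset.range 3, ∑ n ∈ Finset.range 3,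
      g m n * F π ((s : ℕ) : ℤ) := by
    unfold opD
    simp only [hin]
    rw [opE_rng]
    · refine Finset.sum_congr rfl fun m _ => ?_
      rw [opE_rng]
      · intro n hn
        simp only [hg]
        rw [hv m n (Or.inr hn), mul_zero, zero_mul]
      · intro n hn
        rw [hz m n (by omega), zero_mul]
    · intro m hm
      refine Finset.sum_eq_zero fun n _ => ?_
      simp only [hg]
      rw [hv m n (Or.inl hm), mul_zero, zero_mul]
    · intro m hm
      refine Finset.sum_eq_zero fun n _ => ?_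
      rw [hz m n (by omega), zero_mul]
  rw [h1]
  simp only [Finset.sum_range_succ, Finset.sum_range_zero, zero_add]
  rw [hz 1 2 (by norm_num), hz 2 1 (by norm_num), hz 2 2 (by norm_num)]
  simp only [hg, dmG, Finset.prod_range_succ, Finset.prod_range_zero, Nat.factorial]
  push_cast
  ring

theorem fact3 (h3 : O.valuation 3 < 1) (m n a : ℕ) (h1 : 1 ≤ m + n) (ha : 2 * a ≤ m + n + 1) :
    O.valuation ((3 : ℂ) ^ (m + n)) ≤ O.valuation (3 ^ a * ((m.factorial * n.factorial : ℕ) : ℂ)) := by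
  have : Fact (Nat.Prime 3) := ⟨Nat.prime_three⟩
  have hb0 := MP_06b9d2_tls.fact_bound m n
  set v := padicValNat 3 (m.factorial * n.factorial) with hv
  have hne : m.factorial * n.factorial ≠ 0 :=
    mul_ne_zero (Nat.factorial_ne_zero m) (Nat.factorial_ne_zero n)
  obtain ⟨b, hb⟩ : 3 ^ v ∣ m.factorial * n.factorial := pow_padicValNat_dvd
  have hb3 : ¬ 3 ∣ b := by
    intro hd
    have h1 : 3 ^ (v + 1) ∣ m.factorial * n.factorial := by
      rw [hb, pow_succ]
      exact mul_dvd_mul_left _ hd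
    exact pow_succ_padicValNat_not_dvd hne h1
  have hb0' : b ≠ 0 := fun h => hb3 (h ▸ dvd_zero 3)
  have hb' : (b : ℂ) ≠ 0 := by exact_mod_cast hb0'
  obtain ⟨t, ht⟩ : ∃ t, m + n = a + v + t := ⟨m + n - (a + v), by omega⟩
  have hb1 : O.valuation (((3 ^ t : ℤ) : ℂ) / ((b : ℤ) : ℂ)) ≤ 1 :=
    MP_06b9d2_ssp.val_rat h3 _ _ (by exact_mod_cast hb3)
  have he : (3 : ℂ) ^ (m + n) = (3 ^ a * ((m.factorial * n.factorial : ℕ) : ℂ)) *
      (((3 ^ t : ℤ) : ℂ) / ((b : ℤ) : ℂ)) := by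
    rw [hb, ht, pow_add, pow_add]
    push_cast
    field_simp
  rw [he, map_mul O.valuation (3 ^ a * ((m.factorial * n.factorial : ℕ) : ℂ))]
  exact mul_le_of_le_one_right' hb1

end Pool.Agent.Lib.MP_06b9d2_tlm
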