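import Pool.Agent.Lib.MP_06b9d2_tlm.OpD
import Pool.Agent.Lib.MP_06b9d2_tlm.OpE

/-!
Module TLM-DaM. The class `ClT` from the data `DatM` (`e = -1`, weights `k ≡ 0, 2` modulo `3`).

Compare `cgM` in `MP_06b9d2_tls/CgM.lean` (`diagM` there). `act_opM`; split `κ = κ₁ + κ₂ + κ₃` (`opD_lin` with `y = 1`): `κ₁` = the entries with `l = n`, `m + n ≤ 2`; `κ₂` = the entries with `n + l` odd; `κ₃` = the rest (`n + l` even, `l ≠ n` or `m + n ≥ 3`).
`κ₁`: `opD_diag` with `κ 0 1 1 = -κ 1 0 0`, `κ 0 2 2 = κ 2 0 0`, `e = -1`: `(d₁ + (9 / c ^ 2) (κ 2 0 0 + κ 1 1 1) q) F`, `d₁ = κ 0 0 0 - (3 N / c) κ 1 0 0 + (9 / c ^ 2) κ 2 0 0 N (N - 1) / 2`, `q = qf N s`, as `C(N - s, 2) + C(s, 2) = N (N - 1) / 2 + q`, `(N - s) s = -q`.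
`κ₂` (odd shifts; `κ 1 0 1 = 0`, `κ 0 1 0 = 0`, so `m + n ≥ 2`): `opD_err` with `B = 9` (`v (κ) ≤ 1`, `fact3` with `a = 2` for `m + n ≥ 3`; `m + n = 2`: `9 / (m! n!)`, `v 2 = 1`). `W F = (1 / (9 d)) * (sg * opD κ₂ F)`: linear (`opD_addF`, `opD_smulF`), in `PD O`, anticommutes with `SG` (`opD_sg`).
`κ₃`: `m + n = 2`: `κ 2 0 2 = κ 0 2 0 = 0`; also `(1, 1, l)`, `l` odd is in `κ₁`, `κ₂`... (`n + l` even: `l = 1` only); `m + n = 3`: `(3,0,2)`, `(0,3,1)`: `v ≤ v 3`, `27 * 3 / 6`; `(2,1,l)`, `(1,2,l)`: `27 / 2`; `(3,0,0)`, `(0,3,3)` (`κ 0 3 3 = -κ 3 0 0`): together `-(27 / c ^ 3) κ 3 0 0 (C(N - s, 3) + C(s, 3)) F`,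
`C(N - s, 3) + C(s, 3) = N (N - 1) (N - 2) / 6 + (N - 2) q / 2`: a constant `-(27 / c ^ 3) κ 3 0 0 C(N, 3)` (in `27 O`, as `C(N, 3)` is an integer; put it in `G` or in `d`) and `27 (..) q F`; `m + n ≥ 4`: `fact3` gives `a = 2` only for `m + n = 4`: use `v_3(m! n!) ≤ (m + n - 1) / 2` with the floor: `m + n - 1 ≥ 3` (`4!`, `3! 1!`: exponent `1`), in general
`m + n - (m + n - 1) / 2 ≥ 3` for `m + n ≥ 4` (`dmG_pow`, `val_fact` of `NrM.lean`).
Altogether `actD M 1 F = r sg (d₁ (1 - 9 q) F + 9 ((κ 2 0 0 + κ 1 1 1) / c ^ 2 + d₁) q F + 9 .. + 27 ..)`, `v d₁ = 1`, and `(κ 2 0 0 + κ 1 1 1) / c ^ 2 + d₁ ≡ κ 2 0 0 + κ 1 1 1 + κ 0 0 0 ≡ 0` modulo `3` (`hs`, `hc2`). So the class with the constant `r d₁`, `d = d₁`.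
-/

namespace Pool.Agent.Lib.MP_06b9d2_tlm

open PowerSeries Pool.Agent.L1
open Pool.Agent.Lib.MP_06b9d2_ssp (PO Lv mo)
open Pool.Agent.Lib.MP_06b9d2_tls (Two Tl MG dmG DatM DatM1 DatP)
open Pool.Agent.Lib.MP_06b9d2_tln (TN Mt ex Rp Sy act lu)

variable {O : ValuationSubring ℂ} {N : ℕ}

private theorem DaM_v2 (h3 : O.valuation 3 < 1) : O.valuation (2 : ℂ) = 1 := by
  have h1 : (2 : ℂ) = -(1 - 3) := by norm_num
  rw [h1, Valuation.map_neg]
  exact Valuation.map_one_sub_of_lt (v := O.valuation) h3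

/-- the operator of a single diagonal entry -/
private theorem DaM_one (e c z : ℂ) (m0 n0 : ℕ) (F : FF) (π : ZMod 2) (s : Fin (N + 1)) :
    opD e c (fun m n l => if m = m0 ∧ n = n0 ∧ l = n0 then z else 0) N F π ((s : ℕ) : ℤ) =
      z * (dmG e c N m0 n0 ((s : ℕ) : ℤ) * F π ((s : ℕ) : ℤ)) := by
  have hsN : (s : ℕ) ≤ N := by have := s.2; omega
  have hin : ∀ m n : ℕ, ∑ l ∈ Finset.range (m + n + 1), (if m = m0 ∧ n = n0 ∧ l = n0 then z else 0) *
      (dmG e c N m n ((s : ℕ) : ℤ) * F (π + (n : ZMod 2) + (l : ZMod 2)) (((s : ℕ) : ℤ) - n + l)) =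
        if m = m0 ∧ n = n0 then z * (dmG e c N m0 n0 ((s : ℕ) : ℤ) * F π ((s : ℕ) : ℤ)) else 0 := by
    intro m n
    by_cases h : m = m0 ∧ n = n0
    · obtain ⟨rfl, rfl⟩ := h
      rw [if_pos ⟨rfl, rfl⟩, Finset.sum_eq_single n]
      · have e1 : π + (n : ZMod 2) + (n : ZMod 2) = π := by
          rw [add_assoc, CharTwo.add_self_eq_zero, add_zero]
        rw [e1, sub_add_cancel, if_pos ⟨rfl, rfl, rfl⟩]
      · intro l _ hl
        rw [if_neg (fun h => hl h.2.2), zero_mul]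
      · intro hl
        exact absurd (Finset.mem_range.2 (by omega)) hl
    · rw [if_neg h]
      refine Finset.sum_eq_zero fun l _ => ?_
      rw [if_neg (fun h' => h ⟨h'.1, h'.2.1⟩), zero_mul]
  unfold opD
  simp only [hin]
  by_cases h : m0 ≤ N ∧ n0 ≤ N
  · rw [Finset.sum_eq_single m0, Finset.sum_eq_single n0, if_pos ⟨rfl, rfl⟩]
    · intro n _ hn
      rw [if_neg (fun h => hn h.2)]
    · intro hn
      exact absurd (Finset.mem_range.2 (by omega)) hn
    · intro m _ hm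
      exact Finset.sum_eq_zero fun n _ => if_neg (fun h => hm h.1)
    · intro hm
      exact absurd (Finset.mem_range.2 (by omega)) hm
  · have h0 : dmG e c N m0 n0 ((s : ℕ) : ℤ) = 0 := by
      rw [MP_06b9d2_tls.dmG_nat e c N m0 n0 s hsN]
      rcases not_and_or.1 h with h | h
      · rw [Nat.choose_eq_zero_of_lt (show N - (s : ℕ) < m0 by omega)]; simp
      · rw [Nat.choose_eq_zero_of_lt (show (s : ℕ) < n0 by omega)]; simp
    rw [h0, zero_mul, mul_zero]
    refine Finset.sum_eq_zero fun m _ => Finset.sum_eq_zero fun n _ => ?_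
    split_ifs <;> rfl

private noncomputable def DaMk1 (κ : ℕ → ℕ → ℕ → ℂ) (m n l : ℕ) : ℂ := if l = n ∧ m + n ≤ 2 then κ m n l else 0

private noncomputable def DaMk2 (κ : ℕ → ℕ → ℕ → ℂ) (m n l : ℕ) : ℂ := if (n + l) % 2 = 1 then κ m n l else 0

private noncomputable def DaM30 (κ : ℕ → ℕ → ℕ → ℂ) (m n l : ℕ) : ℂ :=
  if m = 3 ∧ n = 0 ∧ l = 0 then κ 3 0 0 else 0

private noncomputable def DaM03 (κ : ℕ → ℕ → ℕ → ℂ) (m n l : ℕ) : ℂ :=
  if m = 0 ∧ n = 3 ∧ l = 3 then κ 0 3 3 else 0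

private noncomputable def DaMk3 (κ : ℕ → ℕ → ℕ → ℂ) (m n l : ℕ) : ℂ :=
  κ m n l - DaMk1 κ m n l - DaMk2 κ m n l - DaM30 κ m n l - DaM03 κ m n l

private theorem DaM_split (e c : ℂ) (κ : ℕ → ℕ → ℕ → ℂ) (F : FF) (π : ZMod 2) (s : ℤ) :
    opD e c κ N F π s = opD e c (DaMk1 κ) N F π s + opD e c (DaMk2 κ) N F π s +
      opD e c (DaM30 κ) N F π s + opD e c (DaM03 κ) N F π s + opD e c (DaMk3 κ) N F π s := by
  have h1 : κ = fun m n l => DaMk1 κ m n l + 1 * (fun m n l => DaMk2 κ m n l + 1 *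
      (fun m n l => DaM30 κ m n l + 1 * (fun m n l => DaM03 κ m n l + 1 * DaMk3 κ m n l) m n l) m n l) m n l := by
    funext m n l
    simp only [DaMk3]
    ring
  conv_lhs => rw [h1]
  rw [opD_lin, opD_lin, opD_lin, opD_lin]
  ring

private theorem DaM_z (B : ℂ) (m n : ℕ) (x : ℂ) (hx : x = 0) :
    O.valuation (3 ^ (m + n) * x) ≤ O.valuation (B * ((m.factorial * n.factorial : ℕ) : ℂ)) := by
  rw [hx, mul_zero, map_zero]
  exact zero_le

private theorem DaM_e2 (h3 : O.valuation 3 < 1) {c : ℂ} {κ : ℕ → ℕ → ℕ → ℂ} (h : DatM O c κ) (m n l : ℕ) :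
    O.valuation (3 ^ (m + n) * DaMk2 κ m n l) ≤ O.valuation (9 * ((m.factorial * n.factorial : ℕ) : ℂ)) := by
  have hz := fun x hx => DaM_z (O := O) 9 m n x hx
  by_cases h1 : (n + l) % 2 = 1
  · have h0 : DaMk2 κ m n l = κ m n l := if_pos h1
    rw [h0]
    by_cases h2 : m + n < l
    · exact hz _ (h.deg m n l h2)
    · by_cases h4 : m + n ≤ 2
      · have v2 := DaM_v2 h3
        by_cases h5 : m + n ≤ 1
        · have hcase : (m = 1 ∧ n = 0 ∧ l = 1) ∨ (m = 0 ∧ n = 1 ∧ l = 0) := by omega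
          rcases hcase with ⟨rfl, rfl, rfl⟩ | ⟨rfl, rfl, rfl⟩
          · exact hz _ h.h101
          · exact hz _ h.h010
        · have h6 : m + n = 2 := by omega
          have hf : O.valuation (((m.factorial * n.factorial : ℕ) : ℂ)) = 1 := by
            have hcase : (m = 2 ∧ n = 0) ∨ (m = 1 ∧ n = 1) ∨ (m = 0 ∧ n = 2) := by omega
            rcases hcase with ⟨rfl, rfl⟩ | ⟨rfl, rfl⟩ | ⟨rfl, rfl⟩ <;>
              simp [Nat.factorial, v2]
          rw [map_mul, map_mul _ 9, hf, mul_one, h6, show ((3 : ℂ) ^ 2) = 9 by norm_num]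
          exact mul_le_of_le_one_right' (h.int _ _ _)
      · have h7 := fact3 h3 m n 2 (by omega) (by omega)
        rw [show ((3 : ℂ) ^ 2) = 9 by norm_num] at h7
        rw [map_mul]
        exact (mul_le_of_le_one_right' (h.int _ _ _)).trans h7
  · have h0 : DaMk2 κ m n l = 0 := if_neg h1
    exact hz _ h0

private theorem DaM_e3 (h3 : O.valuation 3 < 1) {c : ℂ} {κ : ℕ → ℕ → ℕ → ℂ} (h : DatM O c κ) (m n l : ℕ) :
    O.valuation (3 ^ (m + n) * DaMk3 κ m n l) ≤ O.valuation (27 * ((m.factorial * n.factorial : ℕ) : ℂ)) := by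
  have hz := fun x hx => DaM_z (O := O) 27 m n x hx
  have v2 := DaM_v2 h3
  by_cases h1 : (n + l) % 2 = 1
  · refine hz _ ?_
    unfold DaMk3 DaMk1 DaMk2 DaM30 DaM03
    rw [if_pos h1, if_neg (by omega), if_neg (by omega), if_neg (by omega)]
    ring
  · by_cases h2 : m + n < l
    · refine hz _ ?_
      unfold DaMk3 DaMk1 DaMk2 DaM30 DaM03
      rw [h.deg m n l h2, if_neg h1, if_neg (by omega), if_neg (by omega), if_neg (by omega)]
      ring
    · by_cases h4 : m + n ≤ 2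
      · refine hz _ ?_
        by_cases h5 : l = n
        · unfold DaMk3 DaMk1 DaMk2 DaM30 DaM03
          rw [if_pos ⟨h5, h4⟩, if_neg h1, if_neg (by omega), if_neg (by omega)]
          ring
        · have hcase : (m = 2 ∧ n = 0 ∧ l = 2) ∨ (m = 0 ∧ n = 2 ∧ l = 0) := by omega
          unfold DaMk3 DaMk1 DaMk2 DaM30 DaM03
          rw [if_neg (fun h => h5 h.1), if_neg h1, if_neg (by omega), if_neg (by omega)]
          rcases hcase with ⟨rfl, rfl, rfl⟩ | ⟨rfl, rfl, rfl⟩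
          · rw [h.h202]; ring
          · rw [h.h020]; ring
      · by_cases h5 : m + n = 3
        · by_cases h6 : (m = 3 ∧ n = 0 ∧ l = 0) ∨ (m = 0 ∧ n = 3 ∧ l = 3)
          · refine hz _ ?_
            rcases h6 with ⟨rfl, rfl, rfl⟩ | ⟨rfl, rfl, rfl⟩ <;>
              simp [DaMk3, DaMk1, DaMk2, DaM30, DaM03]
          · have h7 : DaMk3 κ m n l = κ m n l := by
              unfold DaMk3 DaMk1 DaMk2 DaM30 DaM03
              rw [if_neg (by omega), if_neg h1, if_neg (fun h => h6 (Or.inl h)), if_neg (fun h => h6 (Or.inr h))]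
              ring
            rw [h7, h5, show ((3 : ℂ) ^ 3) = 27 by norm_num, map_mul, map_mul]
            refine mul_le_mul' le_rfl ?_
            have v6 : O.valuation (6 : ℂ) = O.valuation 3 := by
              rw [show (6 : ℂ) = 2 * 3 by norm_num, map_mul, v2, one_mul]
            have hcase : (m = 3 ∧ n = 0 ∧ l = 2) ∨ (m = 0 ∧ n = 3 ∧ l = 1) ∨ (m = 2 ∧ n = 1) ∨ (m = 1 ∧ n = 2) := by
              omega
            rcases hcase with ⟨rfl, rfl, rfl⟩ | ⟨rfl, rfl, rfl⟩ | ⟨rfl, rfl⟩ | ⟨rfl, rfl⟩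
            · have := h.h302
              simpa [Nat.factorial, v6] using this
            · have := h.h031
              simpa [Nat.factorial, v6] using this
            · have := h.int 2 1 l
              simpa [Nat.factorial, v2] using this
            · have := h.int 1 2 l
              simpa [Nat.factorial, v2] using this
        · have h7 : DaMk3 κ m n l = κ m n l := by
            unfold DaMk3 DaMk1 DaMk2 DaM30 DaM03
            rw [if_neg (by omega), if_neg h1, if_neg (by omega), if_neg (by omega)]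
            ring
          rw [h7, map_mul]
          refine (mul_le_of_le_one_right' (h.int _ _ _)).trans ?_
          by_cases h8 : m + n = 4
          · have v8 : O.valuation (8 : ℂ) = 1 := by
              rw [show (8 : ℂ) = 2 ^ 3 by norm_num, map_pow, v2, one_pow]
            have v4 : O.valuation (4 : ℂ) = 1 := by
              rw [show (4 : ℂ) = 2 ^ 2 by norm_num, map_pow, v2, one_pow]
            have w1 : O.valuation ((3 : ℂ) ^ 4) = O.valuation (27 * 24) := by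
              rw [show (27 * 24 : ℂ) = 3 ^ 4 * 8 by norm_num, map_mul, v8, mul_one]
            have w2 : O.valuation ((3 : ℂ) ^ 4) = O.valuation (27 * 6) := by
              rw [show (27 * 6 : ℂ) = 3 ^ 4 * 2 by norm_num, map_mul, v2, mul_one]
            have w3 : O.valuation ((3 : ℂ) ^ 4) ≤ O.valuation (27 * 4) := by
              rw [show (27 * 4 : ℂ) = 3 ^ 3 * 4 by norm_num, map_mul, v4, mul_one, pow_succ, map_mul]
              exact mul_le_of_le_one_right' h3.le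
            rw [h8]
            have hcase : (m = 4 ∧ n = 0) ∨ (m = 3 ∧ n = 1) ∨ (m = 2 ∧ n = 2) ∨ (m = 1 ∧ n = 3) ∨ (m = 0 ∧ n = 4) := by
              omega
            rcases hcase with ⟨rfl, rfl⟩ | ⟨rfl, rfl⟩ | ⟨rfl, rfl⟩ | ⟨rfl, rfl⟩ | ⟨rfl, rfl⟩
            · rw [w1]
              exact le_of_eq (by norm_num [Nat.factorial])
            · rw [w2]
              exact le_of_eq (by norm_num [Nat.factorial])
            · refine w3.trans (le_of_eq (by norm_num [Nat.factorial]))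
            · rw [w2]
              exact le_of_eq (by norm_num [Nat.factorial])
            · rw [w1]
              exact le_of_eq (by norm_num [Nat.factorial])
          · have h9 := fact3 h3 m n 3 (by omega) (by omega)
            rw [show ((3 : ℂ) ^ 3) = 27 by norm_num] at h9
            exact h9

theorem clT_dat (h3 : O.valuation 3 < 1) (c : ℂ) (κ : ℕ → ℕ → ℕ → ℂ) (h : DatM O c κ)
    (hc2 : O.valuation (c ^ 2 - 1) ≤ O.valuation 3)
    (hs : O.valuation (κ 2 0 0 + κ 1 1 1 + κ 0 0 0) ≤ O.valuation 3) (r : ℂ) (hr : r ≠ 0) (M : Mt N)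
    (hM : ∀ i s : Fin (N + 1), M i s = r * MG (-1) c κ N i s) : ∃ d : ℂ, d ≠ 0 ∧ ClT O M d 1 := by
  have hc1 := h.hc
  have hc0 : c ≠ 0 := by
    rintro rfl
    rw [map_zero] at hc1
    exact zero_ne_one hc1
  have v2 := DaM_v2 h3
  have hN : ∀ n : ℕ, O.valuation (n : ℂ) ≤ 1 := fun n => by
    have := MP_06b9d2_ssp.int_mem O (n : ℤ)
    rwa [Int.cast_natCast] at this
  have hch2 : O.valuation ((N : ℂ) * (N - 1) / 2) ≤ 1 := by
    have := hN (N.choose 2)
    rwa [Nat.cast_choose_two] at this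
  have hch3 : O.valuation ((N : ℂ) * (N - 1) * (N - 2) / 6) ≤ 1 := by
    have h5 := MP_06b9d2_tls.prod_desc N 3
    simp only [Finset.prod_range_succ, Finset.prod_range_zero, Nat.factorial] at h5
    have h6 : (N : ℂ) * (N - 1) * (N - 2) / 6 = (N.choose 3 : ℂ) := by
      push_cast at h5
      linear_combination (1 / 6 : ℂ) * h5
    rw [h6]
    exact hN _
  have hdc : ∀ (y : ℂ) (k : ℕ), O.valuation y ≤ 1 → O.valuation (y / c ^ k) ≤ 1 := by
    intro y k hy
    rw [map_div₀, map_pow, hc1, one_pow, div_one]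
    exact hy
  have v30 : O.valuation (3 : ℂ) ≠ 0 := (map_ne_zero _).mpr (by norm_num)
  set w0 : ℂ := -(κ 1 0 0 / c ^ 1 * N) + 3 * (κ 2 0 0 / c ^ 2 * (N * (N - 1) / 2)) with hw0
  have hw0v : O.valuation w0 ≤ 1 := by
    refine Valuation.map_add_le _ ?_ ?_
    · rw [Valuation.map_neg, map_mul]
      exact mul_le_one' (hdc _ _ (h.int _ _ _)) (hN N)
    · rw [map_mul, map_mul]
      exact mul_le_one' h3.le (mul_le_one' (hdc _ _ (h.int _ _ _)) hch2)
  set d : ℂ := κ 0 0 0 + 3 * w0 with hd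
  have hdv : O.valuation d = 1 := by
    have e2 : O.valuation (3 * w0) < 1 := by
      rw [map_mul]
      exact lt_of_le_of_lt (mul_le_of_le_one_right' hw0v) h3
    rw [hd, Valuation.map_add_eq_of_lt_left _ (by rw [h.h000]; exact e2), h.h000]
  have hd0 : d ≠ 0 := by
    intro h0
    rw [h0, map_zero] at hdv
    exact zero_ne_one hdv
  have hdi : O.valuation (1 / d) ≤ 1 := by
    rw [map_div₀, map_one, hdv, div_one]
  -- the coefficient of `q`
  set y : ℂ := ((κ 2 0 0 + κ 1 1 1) / c ^ 2 + d) / 3 with hy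
  have hyv : O.valuation y ≤ 1 := by
    have e1 : (κ 2 0 0 + κ 1 1 1) / c ^ 2 + d =
        -((κ 2 0 0 + κ 1 1 1) / c ^ 2 * (c ^ 2 - 1)) + (κ 2 0 0 + κ 1 1 1 + κ 0 0 0) + 3 * w0 := by
      rw [hd]
      field_simp
      ring
    have e2 : O.valuation ((κ 2 0 0 + κ 1 1 1) / c ^ 2 + d) ≤ O.valuation 3 := by
      rw [e1]
      refine Valuation.map_add_le _ (Valuation.map_add_le _ ?_ hs) ?_
      · rw [Valuation.map_neg, map_mul]
        exact (mul_le_of_le_one_left' (hdc _ _ (by rw [h.ht]))).trans hc2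
      · rw [map_mul]
        exact mul_le_of_le_one_right' hw0v
    rw [hy, map_div₀]
    exact div_le_one_of_le₀ e2 zero_le
  refine ⟨r * d, mul_ne_zero hr hd0, fun F π s => 1 / (9 * d) * (sg π * opD (-1) c (DaMk2 κ) N F π s),
    ⟨?_, ?_, ?_, ?_⟩, ?_⟩
  · intro F hF
    obtain ⟨H, hH, hHe⟩ := opD_err (N := N) (e := -1) (c := c) (by rw [Valuation.map_neg, map_one]) hc1 9
      (by norm_num) (DaMk2 κ) (DaM_e2 h3 h) F hF
    have h1 : (fun π s => 1 / (9 * d) * (sg π * opD (-1) c (DaMk2 κ) N F π s)) =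
        fun π s => 1 / d * SG H π s := by
      funext π s
      rw [hHe]
      unfold SG
      field_simp
    rw [h1]
    exact pd_smul _ hdi (pd_sg hH)
  · intro F G
    funext π s
    rw [opD_addF]
    ring
  · intro z F
    funext π s
    rw [opD_smulF]
    ring
  · intro F
    funext π s
    rw [opD_sg]
    · ring
    · intro m n l h0
      exact if_neg (by omega)
  · intro F hF
    obtain ⟨H, hH, hHe⟩ := opD_err (N := N) (e := -1) (c := c) (by rw [Valuation.map_neg, map_one]) hc1 27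
      (by norm_num) (DaMk3 κ) (DaM_e3 h3 h) F hF
    have hP : PD O (fun π s => (-(κ 3 0 0 / c ^ 3) * (N * (N - 1) * (N - 2) / 6)) * F π s +
        (y + -(κ 3 0 0 / c ^ 3) * ((N - 2) * (1 / 2))) * (qf N s * F π s)) := by
      refine pd_add (pd_smul _ ?_ hF) (pd_smul _ ?_ (pd_q hF))
      · rw [map_mul, Valuation.map_neg]
        exact mul_le_one' (hdc _ _ (h.int _ _ _)) hch3
      · refine Valuation.map_add_le _ hyv ?_
        have h12 : O.valuation (1 / 2 : ℂ) = 1 := by rw [map_div₀, v2, map_one, div_one]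
        rw [map_mul, map_mul, Valuation.map_neg, h12, mul_one]
        refine mul_le_one' (hdc _ _ (h.int _ _ _)) ?_
        have := MP_06b9d2_ssp.int_mem O ((N : ℤ) - 2)
        push_cast at this
        exact this
    refine ⟨fun π s => 1 / d * SG (fun π s => ((-(κ 3 0 0 / c ^ 3) * (N * (N - 1) * (N - 2) / 6)) * F π s +
        (y + -(κ 3 0 0 / c ^ 3) * ((N - 2) * (1 / 2))) * (qf N s * F π s)) + H π s) π s,
      pd_smul _ hdi (pd_sg (pd_add hP hH)), fun π s => ?_⟩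
    rw [act_opM c r κ h.deg M hM F π s, DaM_split, hHe]
    have h30 : opD (-1) c (DaM30 κ) N F π ((s : ℕ) : ℤ) = _ := DaM_one (-1) c (κ 3 0 0) 3 0 F π s
    have h03 : opD (-1) c (DaM03 κ) N F π ((s : ℕ) : ℤ) = _ := DaM_one (-1) c (κ 0 3 3) 0 3 F π s
    have hk1 : ∀ m n l, l = n ∧ m + n ≤ 2 → DaMk1 κ m n l = κ m n l := fun m n l h => if_pos h
    rw [h30, h03, opD_diag (DaMk1 κ) (fun m n l h => if_neg (by omega)) F π s]
    rw [hk1 0 0 0 ⟨rfl, by norm_num⟩, hk1 1 0 0 ⟨rfl, by norm_num⟩, hk1 0 1 1 ⟨rfl, by norm_num⟩,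
      hk1 2 0 0 ⟨rfl, by norm_num⟩, hk1 1 1 1 ⟨rfl, by norm_num⟩, hk1 0 2 2 ⟨rfl, by norm_num⟩,
      h.h011, h.h022, h.h033]
    simp only [dmG, Finset.prod_range_succ, Finset.prod_range_zero, Nat.factorial]
    simp only [SG, qf, if_true, Int.cast_natCast, pow_one, hy]
    generalize opD (-1) c (DaMk2 κ) N F π ((s : ℕ) : ℤ) = X2
    generalize H π ((s : ℕ) : ℤ) = X3
    generalize F π ((s : ℕ) : ℤ) = X1
    have hw : d = κ 0 0 0 + 3 * (-(κ 1 0 0 / c ^ 1 * N) + 3 * (κ 2 0 0 / c ^ 2 * (N * (N - 1) / 2))) := hd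
    clear_value d
    have hABC : ∀ a b e : ℂ, r * d * (a + 9 * (1 / (9 * d) * b) + 27 * (1 / d * e)) = r * (d * a + b + 27 * e) := by
      intro a b e
      field_simp
    push_cast
    rw [hABC]
    linear_combination (-(r * sg π * X1)) * hw

end Pool.Agent.Lib.MP_06b9d2_tlm
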