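import Pool.Agent.Lib.MP_06b9d2_tlm.OpD
import Pool.Agent.Lib.MP_06b9d2_tlm.OpE

/-!
Module TLM-DaP. The primes `l ≡ 1` modulo `3`: the operator is `d + 81 (..)`.

`act_opP`; `κ₁` = the entries with `l = n`, `m + n ≤ 2`: `opD_diag` with `e = 1`, `κ 0 1 1 = κ 1 0 0`, `κ 0 2 2 = κ 2 0 0`: `κ 0 0 0 + (3 N / c) κ 1 0 0 + (9 / c ^ 2) κ 2 0 0 N (N - 1) / 2 + (9 / c ^ 2) (κ 2 0 0 - κ 1 1 1) q`; the last term is in `81 O` (`ht`), `N (N - 1) / 2` is an integer.
The other entries: `m + n = 1`: `0`; `m + n = 2`: `κ 2 0 2 = κ 0 2 0 = κ 1 1 0 = κ 1 1 2 = 0`, `κ 2 0 1`, `κ 0 2 1` in `9 O`: `9 * 9 / 2`; `m + n = 3`: `27 * 9 / 6` (`(m + n + 1) / 2 = 2`); `m + n ≥ 4`: `opD_err` with `B = 81`: `v (3 ^ (m + n) κ) ≤ v (3 ^ (m + n + (m + n + 1) / 2))` and `m! n! = 3 ^ v b`, `3 ∤ b`,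
`v ≤ (m + n - 1) / 2` (`val_fact` of `MP_06b9d2_tls/NrM.lean`), `m + n + (m + n + 1) / 2 ≥ 4 + (m + n - 1) / 2`.
-/

namespace Pool.Agent.Lib.MP_06b9d2_tlm

open PowerSeries Pool.Agent.L1
open Pool.Agent.Lib.MP_06b9d2_ssp (PO Lv mo)
open Pool.Agent.Lib.MP_06b9d2_tls (Two Tl MG dmG DatM DatM1 DatP)
open Pool.Agent.Lib.MP_06b9d2_tln (TN Mt ex Rp Sy act lu)

variable {O : ValuationSubring ℂ} {N : ℕ}

private theorem DaP_val2 (h3 : O.valuation 3 < 1) : O.valuation (2 : ℂ) = 1 := by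
  have h1 : (2 : ℂ) = -(1 - 3) := by norm_num
  rw [h1, Valuation.map_neg]
  exact Valuation.map_one_sub_of_lt (v := O.valuation) h3

private noncomputable def DaPk (κ : ℕ → ℕ → ℕ → ℂ) (m n l : ℕ) : ℂ := if l = n ∧ m + n ≤ 2 then κ m n l else 0

private theorem DaP_k0 (κ : ℕ → ℕ → ℕ → ℂ) {m n l : ℕ} (h : l = n ∧ m + n ≤ 2) : DaPk κ m n l = κ m n l := if_pos h

private theorem DaP_k1 (κ : ℕ → ℕ → ℕ → ℂ) {m n l : ℕ} (h : ¬ (l = n ∧ m + n ≤ 2)) : DaPk κ m n l = 0 := if_neg h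

private theorem DaP_err (h3 : O.valuation 3 < 1) (κ : ℕ → ℕ → ℕ → ℂ)
    (deg : ∀ m n r, m + n < r → κ m n r = 0)
    (int : ∀ m n r, O.valuation (κ m n r) ≤ O.valuation 3 ^ ((m + n + 1) / 2))
    (h101 : κ 1 0 1 = 0) (h010 : κ 0 1 0 = 0)
    (h202 : κ 2 0 2 = 0) (h020 : κ 0 2 0 = 0) (h110 : κ 1 1 0 = 0) (h112 : κ 1 1 2 = 0)
    (h201 : O.valuation (κ 2 0 1) ≤ O.valuation 9) (h021 : O.valuation (κ 0 2 1) ≤ O.valuation 9) (m n l : ℕ) :
    O.valuation (3 ^ (m + n) * (κ m n l - DaPk κ m n l)) ≤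
      O.valuation (81 * ((m.factorial * n.factorial : ℕ) : ℂ)) := by
  have hz : ∀ x : ℂ, x = 0 → O.valuation (3 ^ (m + n) * x) ≤
      O.valuation (81 * ((m.factorial * n.factorial : ℕ) : ℂ)) := by
    intro x hx
    rw [hx, mul_zero, map_zero]
    exact zero_le
  by_cases h1 : l = n ∧ m + n ≤ 2
  · exact hz _ (by rw [DaP_k0 κ h1, sub_self])
  · rw [DaP_k1 κ h1, sub_zero]
    by_cases h2 : m + n < l
    · exact hz _ (deg m n l h2)
    · by_cases h4 : m + n ≤ 2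
      · have v2 := DaP_val2 h3
        have v9 : O.valuation (9 : ℂ) = O.valuation 3 ^ 2 := by
          rw [← map_pow]
          norm_num
        have v81 : O.valuation (81 : ℂ) = O.valuation 3 ^ 2 * O.valuation 9 := by
          rw [← map_pow, ← map_mul]
          norm_num
        have hm2 : m ≤ 2 := by omega
        have hn2 : n ≤ 2 := by omega
        have hl2 : l ≤ 2 := by omega
        have key : ∀ x : ℂ, O.valuation x ≤ O.valuation 9 → O.valuation (3 ^ 2 * x) ≤ O.valuation (81 * ((2 : ℕ) : ℂ)) := by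
          intro x hx
          rw [map_mul, map_pow, map_mul, Nat.cast_ofNat, v2, mul_one, v81]
          exact mul_le_mul_right hx _
        interval_cases m <;> interval_cases n <;> interval_cases l <;>
          first
          | omega
          | exact absurd ⟨rfl, by norm_num⟩ h1
          | exact hz _ h101
          | exact hz _ h010
          | exact hz _ h202
          | exact hz _ h020
          | exact hz _ h110
          | exact hz _ h112
          | exact key _ h201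
          | exact key _ h021
      · have h5 : 3 ≤ m + n := by omega
        set a := (m + n + 1) / 2 with ha
        have h6 : 2 ≤ a := by omega
        have h7 := fact3 h3 m n a (by omega) (by omega)
        have h8 : O.valuation ((3 : ℂ) ^ (m + n) * κ m n l) ≤
            O.valuation (3 ^ a * ((m.factorial * n.factorial : ℕ) : ℂ)) * O.valuation 3 ^ a := by
          rw [map_mul]
          exact mul_le_mul' h7 (int m n l)
        refine h8.trans ?_
        rw [map_mul, map_mul, map_pow, mul_right_comm, ← pow_add]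
        have h9 : O.valuation (81 : ℂ) = O.valuation 3 ^ 4 := by
          rw [← map_pow]
          norm_num
        rw [h9]
        refine mul_le_mul' (pow_le_pow_right_of_le_one' h3.le (by omega)) le_rfl

theorem erd_genP (h3 : O.valuation 3 < 1) (c : ℂ) (hc : O.valuation c = 1) (κ : ℕ → ℕ → ℕ → ℂ)
    (deg : ∀ m n r, m + n < r → κ m n r = 0)
    (int : ∀ m n r, O.valuation (κ m n r) ≤ O.valuation 3 ^ ((m + n + 1) / 2))
    (h101 : κ 1 0 1 = 0) (h010 : κ 0 1 0 = 0) (h011 : κ 0 1 1 = κ 1 0 0)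
    (h202 : κ 2 0 2 = 0) (h020 : κ 0 2 0 = 0) (h022 : κ 0 2 2 = κ 2 0 0) (h110 : κ 1 1 0 = 0) (h112 : κ 1 1 2 = 0)
    (h201 : O.valuation (κ 2 0 1) ≤ O.valuation 9) (h021 : O.valuation (κ 0 2 1) ≤ O.valuation 9)
    (ht : O.valuation (κ 2 0 0 - κ 1 1 1) ≤ O.valuation 9) (r : ℂ) (hr : O.valuation r ≤ 1)
    (M : Mt N) (hM : ∀ i s : Fin (N + 1), M i s = r * MG 1 c κ N i s) : ∃ d : ℂ, ErD O M 0 d 81 := by
  set κ₂ : ℕ → ℕ → ℕ → ℂ := fun m n l => κ m n l - DaPk κ m n l with hκ₂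
  have hsum : κ = fun m n l => DaPk κ m n l + 1 * κ₂ m n l := by
    funext m n l
    rw [hκ₂]
    ring
  have hc0 : c ≠ 0 := by
    rintro rfl
    rw [map_zero] at hc
    exact zero_ne_one hc
  have hci : O.valuation (1 / c ^ 2) = 1 := by
    rw [one_div, map_inv₀, map_pow, hc, one_pow, inv_one]
  refine ⟨r * (κ 0 0 0 + (3 / c) * κ 1 0 0 * N + (9 / c ^ 2) * κ 2 0 0 * (N * (N - 1) / 2)), fun F hF => ?_⟩
  obtain ⟨G₂, hG₂, hG⟩ := opD_err (N := N) (e := 1) (c := c) (by rw [map_one]) hc 81 (by norm_num) κ₂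
    (fun m n l => DaP_err h3 κ deg int h101 h010 h202 h020 h110 h112 h201 h021 m n l) F hF
  have h9 : (9 : ℂ) ≠ 0 := by norm_num
  have ht' : O.valuation ((κ 2 0 0 - κ 1 1 1) / 9) ≤ 1 := by
    rw [map_div₀]
    have h1 : 0 < O.valuation (9 : ℂ) := (Valuation.pos_iff _).2 h9
    exact (div_le_one₀ h1).2 ht
  refine ⟨fun π s => (r * (1 / c ^ 2) * ((κ 2 0 0 - κ 1 1 1) / 9)) * (qf N s * F π s) + r * G₂ π s,
    pd_add (pd_smul _ ?_ (pd_q hF)) (pd_smul _ hr hG₂), fun π s => ?_⟩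
  · rw [map_mul, map_mul, hci, mul_one]
    exact mul_le_one' hr ht'
  · rw [act_opP c r κ deg M hM F π s]
    have hop : opD 1 c κ N F π ((s : ℕ) : ℤ) = opD 1 c (DaPk κ) N F π ((s : ℕ) : ℤ) +
        1 * opD 1 c κ₂ N F π ((s : ℕ) : ℤ) := by
      conv_lhs => rw [hsum]
      exact opD_lin (DaPk κ) κ₂ 1 F π ((s : ℕ) : ℤ)
    rw [hop, hG, opD_diag (DaPk κ) (fun m n l h => DaP_k1 κ (by
      rintro ⟨h1, h2⟩
      rcases h with h | h
      · exact h h1
      · omega)) F π s]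
    rw [DaP_k0 κ ⟨rfl, by norm_num⟩, DaP_k0 κ ⟨rfl, by norm_num⟩, DaP_k0 κ ⟨rfl, by norm_num⟩,
      DaP_k0 κ ⟨rfl, by norm_num⟩, DaP_k0 κ ⟨rfl, by norm_num⟩, DaP_k0 κ ⟨rfl, by norm_num⟩, h011, h022]
    unfold qf
    simp only [Int.cast_natCast, pow_zero, one_mul]
    field_simp
    ring

end Pool.Agent.Lib.MP_06b9d2_tlm
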