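import Pool.Agent.Lib.MP_06b9d2_tlm.OpD
import Pool.Agent.Lib.MP_06b9d2_tlm.OpE

/-!
Module TLM-DaV. The class `ClV` from the data `DatM1` (`e = -1`, weights `k ≡ 1` modulo `3`); the general primes `l ≡ 2` modulo `3`.

`clV_dat`: `act_opM`; `κ = κ₁ + κ'`, `κ₁` = the entries `(1,0,0)`, `(0,1,1)`: `opD_diag` (the other entries of `κ₁` are `0`): `-(3 / c) κ 1 0 0 (N - s) + (3 / c) κ 0 1 1 s = (3 / c) κ 1 0 0 (2 s - N)`. `κ'`: `κ 0 0 0 = 0`, `κ 1 0 1 = 0`, `κ 0 1 0 = 0`; `m + n ≥ 2`: `opD_err` with `B = 9` (`m + n = 2`: `9 / (m! n!)`; `m + n ≥ 3`: `fact3`, `a = 2`).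
`d = r (3 / c) κ 1 0 0`: `actD M 1 F = d (sg (2 s - N) F + 3 G)`, `v (κ 1 0 0) = v c = 1`.
`erd_gen`: all entries are in `3 O`; `κ₁` = the entries with `l = n`, `m + n ≤ 1`: `opD_diag`: `κ 0 0 0 - (3 / c) κ 1 0 0 (N - s) + (3 / c) κ 0 1 1 s = κ 0 0 0 - (3 N / c) κ 1 0 0 =: d₁` (`κ 0 1 1 = -κ 1 0 0`); the rest: `m + n ≥ 2`: `opD_err` with `B = 27` (`fact3` with `a = 2` for `m + n ≥ 3`, one more factor `3` from `κ`; `m + n = 2`: `9 * 3 / (m! n!)`). `d = r d₁`.
`erd_gen1`: `κ 0 0 0 = 0`, `κ 0 1 1 = κ 1 0 0`: `(3 / c) κ 1 0 0 (2 s - N) F` is in `9 PD`, the rest in `27 PD`.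
-/

namespace Pool.Agent.Lib.MP_06b9d2_tlm

open PowerSeries Pool.Agent.L1
open Pool.Agent.Lib.MP_06b9d2_ssp (PO Lv mo)
open Pool.Agent.Lib.MP_06b9d2_tls (Two Tl MG dmG DatM DatM1 DatP)
open Pool.Agent.Lib.MP_06b9d2_tln (TN Mt ex Rp Sy act lu)

variable {O : ValuationSubring ℂ} {N : ℕ}

private theorem dav_two (h3 : O.valuation 3 < 1) : O.valuation 2 = 1 := by
  have h : O.valuation ((3 : ℂ) + -1) = O.valuation (-1 : ℂ) := by
    apply Valuation.map_add_eq_of_lt_right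
    rw [Valuation.map_neg, Valuation.map_one]
    exact h3
  have h2 : (3 : ℂ) + -1 = 2 := by norm_num
  rw [h2, Valuation.map_neg, Valuation.map_one] at h
  exact h

private theorem dav_main (h3 : O.valuation 3 < 1) (c : ℂ) (hc : O.valuation c = 1) (κ : ℕ → ℕ → ℕ → ℂ)
    (deg : ∀ m n r, m + n < r → κ m n r = 0) (y : ℂ) (hy : y ≠ 0)
    (int : ∀ m n r, O.valuation (κ m n r) ≤ O.valuation y)
    (h101 : κ 1 0 1 = 0) (h010 : κ 0 1 0 = 0) (F : FF) (hF : PD O F) :
    ∃ G : FF, PD O G ∧ ∀ (π : ZMod 2) (s : Fin (N + 1)), opD (-1) c κ N F π ((s : ℕ) : ℤ) =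
      (κ 0 0 0 - κ 1 0 0 * (3 / c) * (N - ((s : ℕ) : ℂ)) + κ 0 1 1 * (3 / c) * ((s : ℕ) : ℂ)) *
        F π ((s : ℕ) : ℤ) + 9 * y * G π ((s : ℕ) : ℤ) := by
  classical
  obtain ⟨G, hG, hGe⟩ := opD_err (O := O) (N := N) (e := (-1 : ℂ)) (c := c)
    (by rw [Valuation.map_neg, Valuation.map_one]) hc (9 * y) (mul_ne_zero (by norm_num) hy)
    (fun m n l => if l = n ∧ m + n ≤ 1 then 0 else κ m n l) (by
      intro m n l
      by_cases hd : l = n ∧ m + n ≤ 1
      · simp only [hd, and_self, if_true, mul_zero, Valuation.map_zero]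
        exact zero_le
      · simp only [hd, if_false]
        by_cases hl : m + n < l
        · rw [deg m n l hl, mul_zero, Valuation.map_zero]
          exact zero_le
        · by_cases h1 : m + n ≤ 1
          · have hk : κ m n l = 0 := by
              have hln : l ≠ n := fun h => hd ⟨h, h1⟩
              have hcase : (m = 1 ∧ n = 0 ∧ l = 1) ∨ (m = 0 ∧ n = 1 ∧ l = 0) := by omega
              rcases hcase with ⟨rfl, rfl, rfl⟩ | ⟨rfl, rfl, rfl⟩
              · exact h101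
              · exact h010
            rw [hk, mul_zero, Valuation.map_zero]
            exact zero_le
          · by_cases h2 : m + n = 2
            · have hf : O.valuation (((m.factorial * n.factorial : ℕ) : ℂ)) = 1 := by
                have hcase : (m = 2 ∧ n = 0) ∨ (m = 1 ∧ n = 1) ∨ (m = 0 ∧ n = 2) := by omega
                have h22 := dav_two h3
                rcases hcase with ⟨rfl, rfl⟩ | ⟨rfl, rfl⟩ | ⟨rfl, rfl⟩ <;>
                  simp [Nat.factorial, h22]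
              rw [map_mul, map_mul _ (9 * y), hf, mul_one, map_mul, h2]
              have h9 : ((3 : ℂ) ^ 2) = 9 := by norm_num
              rw [h9]
              exact mul_le_mul' le_rfl (int m n l)
            · have h3' := fact3 (O := O) h3 m n 2 (by omega) (by omega)
              have h9 : ((3 : ℂ) ^ 2) = 9 := by norm_num
              rw [h9] at h3'
              calc O.valuation (3 ^ (m + n) * κ m n l)
                  = O.valuation (3 ^ (m + n)) * O.valuation (κ m n l) := map_mul _ _ _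
                _ ≤ O.valuation (9 * ((m.factorial * n.factorial : ℕ) : ℂ)) * O.valuation y :=
                    mul_le_mul' h3' (int m n l)
                _ = O.valuation (9 * y * ((m.factorial * n.factorial : ℕ) : ℂ)) := by
                    rw [← map_mul]
                    congr 1
                    ring) F hF
  refine ⟨G, hG, fun π s => ?_⟩
  have hlin := opD_lin (N := N) (e := (-1 : ℂ)) (c := c)
    (fun m n l => if l = n ∧ m + n ≤ 1 then κ m n l else 0)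
    (fun m n l => if l = n ∧ m + n ≤ 1 then 0 else κ m n l) 1 F π ((s : ℕ) : ℤ)
  have hsum : (fun m n l => (if l = n ∧ m + n ≤ 1 then κ m n l else 0) +
      1 * (if l = n ∧ m + n ≤ 1 then 0 else κ m n l)) = κ := by
    funext m n l
    by_cases hd : l = n ∧ m + n ≤ 1
    · simp [hd]
    · simp [hd]
  rw [hsum, hGe] at hlin
  have hdiag := opD_diag (N := N) (e := (-1 : ℂ)) (c := c)
    (fun m n l => if l = n ∧ m + n ≤ 1 then κ m n l else 0) (by
      intro m n l h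
      have hd : ¬ (l = n ∧ m + n ≤ 1) := by omega
      simp only [hd, if_false]) F π s
  have t2 : ¬ ((2 : ℕ) ≤ 1) := by omega
  simp only [Nat.add_zero, Nat.zero_add, Nat.reduceAdd, t2, and_false, if_false, true_and, zero_le,
    le_refl, if_true] at hdiag
  rw [hlin, hdiag]
  ring

theorem clV_dat (h3 : O.valuation 3 < 1) (c : ℂ) (κ : ℕ → ℕ → ℕ → ℂ) (h : DatM1 O c κ) (r : ℂ) (hr : r ≠ 0)
    (M : Mt N) (hM : ∀ i s : Fin (N + 1), M i s = r * MG (-1) c κ N i s) : ∃ d : ℂ, d ≠ 0 ∧ ClV O M d 1 := by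
  have hc0 : c ≠ 0 := by
    intro h0
    have := h.hc
    rw [h0, Valuation.map_zero] at this
    exact zero_ne_one this
  have hu0 : κ 1 0 0 ≠ 0 := by
    intro h0
    have := h.hu
    rw [h0, Valuation.map_zero] at this
    exact zero_ne_one this
  refine ⟨r * ((3 / c) * κ 1 0 0), mul_ne_zero hr (mul_ne_zero (div_ne_zero (by norm_num) hc0) hu0), ?_⟩
  intro F hF
  obtain ⟨G, hG, hGe⟩ := dav_main (N := N) h3 c h.hc κ h.deg 1 one_ne_zero
    (by intro m n l; rw [Valuation.map_one]; exact h.int m n l) h.h101 h.h010 F hF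
  refine ⟨fun π s => (c / κ 1 0 0) * SG G π s, pd_smul _ ?_ (pd_sg hG), fun π s => ?_⟩
  · rw [map_div₀, h.hc, h.hu, div_one]
  · rw [act_opM c r κ h.deg M hM F π s, hGe π s, h.h000, h.h011]
    simp only [SG, pow_one, Int.cast_natCast]
    field_simp
    ring

theorem erd_gen (h3 : O.valuation 3 < 1) (c : ℂ) (hc : O.valuation c = 1) (κ : ℕ → ℕ → ℕ → ℂ)
    (deg : ∀ m n r, m + n < r → κ m n r = 0) (int : ∀ m n r, O.valuation (κ m n r) ≤ O.valuation 3)
    (h101 : κ 1 0 1 = 0) (h010 : κ 0 1 0 = 0) (h011 : κ 0 1 1 = -κ 1 0 0) (r : ℂ) (hr : O.valuation r ≤ 1)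
    (M : Mt N) (hM : ∀ i s : Fin (N + 1), M i s = r * MG (-1) c κ N i s) : ∃ d : ℂ, ErD O M 1 d 27 := by
  refine ⟨r * (κ 0 0 0 - κ 1 0 0 * (3 / c) * N), ?_⟩
  intro F hF
  obtain ⟨G, hG, hGe⟩ := dav_main (N := N) h3 c hc κ deg 3 (by norm_num) int h101 h010 F hF
  refine ⟨fun π s => r * SG G π s, pd_smul _ hr (pd_sg hG), fun π s => ?_⟩
  rw [act_opM c r κ deg M hM F π s, hGe π s, h011]
  simp only [SG, pow_one]
  ring

theorem erd_gen1 (h3 : O.valuation 3 < 1) (c : ℂ) (hc : O.valuation c = 1) (κ : ℕ → ℕ → ℕ → ℂ)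
    (deg : ∀ m n r, m + n < r → κ m n r = 0) (int : ∀ m n r, O.valuation (κ m n r) ≤ O.valuation 3)
    (h000 : κ 0 0 0 = 0) (h101 : κ 1 0 1 = 0) (h010 : κ 0 1 0 = 0) (h011 : κ 0 1 1 = κ 1 0 0) (r : ℂ)
    (hr : O.valuation r ≤ 1) (M : Mt N) (hM : ∀ i s : Fin (N + 1), M i s = r * MG (-1) c κ N i s) :
    ErD O M 1 0 9 := by
  have h30 : (3 : ℂ) ≠ 0 := by norm_num
  have hc0 : c ≠ 0 := by
    intro h0
    rw [h0, Valuation.map_zero] at hc
    exact zero_ne_one hc
  intro F hF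
  obtain ⟨G, hG, hGe⟩ := dav_main (N := N) h3 c hc κ deg 3 h30 int h101 h010 F hF
  have hz : O.valuation (κ 1 0 0 / (3 * c)) ≤ 1 := by
    rw [map_div₀, map_mul, hc, mul_one]
    exact div_le_one_of_le₀ (int 1 0 0) zero_le
  have hP : PD O (fun π s => (κ 1 0 0 / (3 * c)) * ((2 * (s : ℂ) - N) ^ 1 * F π s) + 3 * G π s) :=
    pd_add (pd_smul _ hz (pd_mul _ (po_v O N 1) hF)) (pd_smul _ h3.le hG)
  refine ⟨fun π s => r * SG (fun π s => (κ 1 0 0 / (3 * c)) * ((2 * (s : ℂ) - N) ^ 1 * F π s) + 3 * G π s) π s,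
    pd_smul _ hr (pd_sg hP), fun π s => ?_⟩
  rw [act_opM c r κ deg M hM F π s, hGe π s, h011, h000]
  simp only [SG, pow_one, Int.cast_natCast]
  field_simp
  ring

end Pool.Agent.Lib.MP_06b9d2_tlm
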