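import Pool.Agent.Lib.MP_06b9d2_tln.Defs
import Pool.Agent.Lib.MP_06b9d2_tls.DefsC
import Pool.Agent.Lib.MP_06b9d2_tls.StM

/-!
MP_06b9d2_nt, board TLM: simple spectrum of `T_n` for composite `n` by the prime `3`. Definitions.

`O` is a valuation ring of `ℂ` with `O.valuation 3 < 1`, `PO O f` says that `f : ℤ → ℂ` is a polynomial
function over `O`. The functions `F : FF` have two arguments, a residue `π` modulo `2` and an integer `s`.
A matrix `M` with the indices `0, …, N` acts on them by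
`(actD M j F) π s = (-1) ^ (j (π + s)) ∑ i, M i s F (π + i - s) i`.
-/

namespace Pool.Agent.Lib.MP_06b9d2_tlm

open PowerSeries Pool.Agent.L1
open Pool.Agent.Lib.MP_06b9d2_ssp (PO Lv mo)
open Pool.Agent.Lib.MP_06b9d2_tls (Two Tl MG dmG)
open Pool.Agent.Lib.MP_06b9d2_tln (TN Mt ex Rp Sy act lu)

/-- functions of a residue modulo `2` and an integer -/
abbrev FF : Type := ZMod 2 → ℤ → ℂ

/-- the sign `(-1) ^ π` -/
noncomputable def sg (π : ZMod 2) : ℂ := if π = 0 then 1 else -1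

/-- polynomial functions over `O` for both residues -/
def PD (O : ValuationSubring ℂ) (F : FF) : Prop := ∀ π, PO O (F π)

/-- multiplication by the sign -/
noncomputable def SG (F : FF) : FF := fun π s => sg π * F π s

/-- the function `s ^ 2 - N s` -/
noncomputable def qf (N : ℕ) (s : ℤ) : ℂ := (s : ℂ) ^ 2 - N * s

/-- the action on functions, with the sign exponent `j` -/
noncomputable def actD {N : ℕ} (M : Mt N) (j : ℕ) (F : FF) (π : ZMod 2) (s : Fin (N + 1)) : ℂ :=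
  sg (π + ((s : ℕ) : ZMod 2)) ^ j *
    ∑ i : Fin (N + 1), M i s * F (π + ((i : ℕ) : ZMod 2) + ((s : ℕ) : ZMod 2)) ((i : ℕ) : ℤ)

/-- `M` acts as `c (-1) ^ (j π) + δ (..)` -/
def ErD (O : ValuationSubring ℂ) {N : ℕ} (M : Mt N) (j : ℕ) (c δ : ℂ) : Prop :=
  ∀ F : FF, PD O F → ∃ G : FF, PD O G ∧ ∀ (π : ZMod 2) (s : Fin (N + 1)),
    actD M j F π s = c * (sg π ^ j * F π ((s : ℕ) : ℤ)) + δ * G π ((s : ℕ) : ℤ)

/-- a linear operator which preserves `PD O` and anticommutes with the sign -/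
structure An (O : ValuationSubring ℂ) (W : FF → FF) : Prop where
  po : ∀ F, PD O F → PD O (W F)
  add : ∀ F G : FF, W (fun π s => F π s + G π s) = fun π s => W F π s + W G π s
  smul : ∀ (z : ℂ) (F : FF), W (fun π s => z * F π s) = fun π s => z * W F π s
  anti : ∀ F : FF, W (SG F) = fun π s => -(sg π * W F π s)

/-- the class for the weights `k ≡ 0, 2` modulo `3`: `M` acts as
`c ((-1) ^ (j π) (1 - 9 j (s ^ 2 - N s)) + 9 W + 27 (..))`, where `W` is present only for odd `j` -/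
def ClT (O : ValuationSubring ℂ) {N : ℕ} (M : Mt N) (c : ℂ) (j : ℕ) : Prop :=
  ∃ W : FF → FF, An O W ∧ ∀ F : FF, PD O F → ∃ G : FF, PD O G ∧
    ∀ (π : ZMod 2) (s : Fin (N + 1)), actD M j F π s =
      c * (sg π ^ j * ((1 - 9 * j * qf N ((s : ℕ) : ℤ)) * F π ((s : ℕ) : ℤ)) +
        (if j % 2 = 1 then 9 * W F π ((s : ℕ) : ℤ) else 0) + 27 * G π ((s : ℕ) : ℤ))

/-- the class for the weights `k ≡ 1` modulo `3`: `M` acts as `c ((-1) ^ (j π) (2 s - N) ^ j + 3 (..))` -/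
def ClV (O : ValuationSubring ℂ) {N : ℕ} (M : Mt N) (c : ℂ) (j : ℕ) : Prop :=
  ∀ F : FF, PD O F → ∃ G : FF, PD O G ∧ ∀ (π : ZMod 2) (s : Fin (N + 1)), actD M j F π s =
    c * (sg π ^ j * ((2 * (((s : ℕ) : ℤ) : ℂ) - N) ^ j * F π ((s : ℕ) : ℤ)) + 3 * G π ((s : ℕ) : ℤ))

/-- the class for the weights `k ≡ e` modulo `3` -/
def Cl3 (O : ValuationSubring ℂ) (e : ℕ) {N : ℕ} (M : Mt N) (c : ℂ) (j : ℕ) : Prop :=
  if e = 1 then ClV O M c j else ClT O M c j

/-- `T_n` (weight `k`) acts on `mo 0, …, mo N` by a symmetric matrix of the class `Cl3 O e` with the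
exponent `j` -/
def PG3 (O : ValuationSubring ℂ) (N e k : ℕ) (mo : ℕ → ℂ⟦X⟧) (n j : ℕ) : Prop :=
  ∃ (M : Mt N) (c : ℂ), Rp mo (TN n k) M ∧ Sy M ∧ c ≠ 0 ∧ Cl3 O e M c j

/-- the companions of the Lucas polynomials `lu L` -/
noncomputable def lv (L : ℂ) : ℕ → Polynomial ℂ
  | 0 => 2
  | 1 => Polynomial.X
  | (e + 2) => Polynomial.X * lv L (e + 1) - Polynomial.C L * lv L e

/-- the operator `∑ κ m n l (3 e / c) ^ m (3 / c) ^ n C(N - s, m) C(s, n) F(π + n + l, s - n + l)` -/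
noncomputable def opD (e c : ℂ) (κ : ℕ → ℕ → ℕ → ℂ) (N : ℕ) (F : FF) (π : ZMod 2) (s : ℤ) : ℂ :=
  ∑ m ∈ Finset.range (N + 1), ∑ n ∈ Finset.range (N + 1), ∑ l ∈ Finset.range (m + n + 1),
    κ m n l * (dmG e c N m n s * F (π + (n : ZMod 2) + (l : ZMod 2)) (s - n + l))

/-- the matrix of `T_l` -/
noncomputable def mt3 (l e : ℕ) (M : ℕ → ℕ → ℕ → ℕ → ℂ) (N : ℕ) : Mt N := Matrix.of fun j s => M e N j s / l

/-- the number of primes `p ≡ 2` modulo `3` which divide `n` to an odd power -/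
def nu2 (n : ℕ) : ℕ := (n.primeFactors.filter fun p => p % 3 = 2 ∧ n.factorization p % 2 = 1).card

/-- what is used about `n` -/
def HypN3 (n : ℕ) : Prop := ∃ a c : ℂ⟦X⟧, Lv a c ∧ ∀ e N : ℕ, e ≤ 2 → Even (N + e) →
  ∃ M : Mt N, Rp (mo a c e N) (TN n (3 * N + e)) M ∧ Sy M ∧ Two (ex M) N

end Pool.Agent.Lib.MP_06b9d2_tlm
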