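import Pool.Agent.Lib.MP_06b9d2_tls.DatB
import Pool.Agent.Lib.MP_06b9d2_tlm.Defs

/-!
Module TLM-GeP. The data of all primes `l ≡ 1` modulo `3`.

`ge_d`: the proof of `cv_d` (private in `MP_06b9d2_tls/Cv.lean`) without the last part: `M a 2 0 0 - M a 2 1 1 = 81 l ([q^l] κ ^ 4 + 3 y)`, an integer multiple of `81`; `h9` is used there only for the second statement (`¬ 3 ∣ n`). `ge_10`: `a = 0, 2`: `cv_0`, `cv_2` (private there, valid for all `l ≡ 1` modulo `3`; copy them): in `243 ℤ`; `a = 1`: `m7` (`MP_06b9d2_tls/`, as in `mp_10`): `3 / 7` times `M 1 2 0 0 - M 1 2 1 1`.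
`ge_all`: the fields as in `datP` (`MP_06b9d2_tls/DatB.lean`): `pc_deg`, `pcP`, `pc_101`, `pc_sym`, `pc_202`, `pc_110`, `pc_201`, `pc_dif`; `v (cl l 1) = 1` for `l ≡ 1` modulo `3`.
-/

namespace Pool.Agent.Lib.MP_06b9d2_tlm

open PowerSeries Pool.Agent.L1
open Pool.Agent.Lib.MP_06b9d2_ssp (PO Lv mo)
open Pool.Agent.Lib.MP_06b9d2_tls (Core MatD PL pc cl)

variable {A Y : ℂ⟦X⟧} {O : ValuationSubring ℂ} {l : ℕ} {s0 : ℂ} {M : ℕ → ℕ → ℕ → ℕ → ℂ}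

private theorem gep_l {l : ℕ} {s0 : ℂ} (hl : PL l 1 s0) : l.Prime ∧ l % 3 = 1 := by
  obtain ⟨hp, h | h⟩ := hl
  · exact ⟨hp, h.1⟩
  · exfalso
    have h1 : (1 : ℂ) = -1 := h.2.1
    norm_num at h1

private theorem gep_int {O : ValuationSubring ℂ} (n : ℤ) (c : ℂ) :
    O.valuation (c * (n : ℂ)) ≤ O.valuation c := by
  rw [map_mul]
  exact mul_le_of_le_one_right' (Pool.Agent.Lib.MP_06b9d2_ssp.int_mem O n)

private theorem gep_div {O : ValuationSubring ℂ} (x : ℂ) (a b : ℂ) (hb : b ≠ 0)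
    (h : O.valuation x ≤ O.valuation (a * b)) : O.valuation (x / b) ≤ O.valuation a := by
  have h1 : O.valuation b ≠ 0 := (map_ne_zero _).mpr hb
  rw [map_div₀, div_le_iff₀ (zero_lt_iff.mpr h1), ← map_mul]
  exact h

theorem ge_c (h3 : O.valuation 3 < 1) (hl : PL l 1 s0) : O.valuation (cl l 1) = 1 := by
  obtain ⟨_, h9⟩ := gep_l hl
  have h1 : O.valuation ((l : ℕ) : ℂ) = 1 := Pool.Agent.Lib.MP_06b9d2_tls.v_prime h3 l (by omega)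
  have h2 : O.valuation (((l ^ 2 + 1 : ℕ)) : ℂ) = 1 := by
    refine Pool.Agent.Lib.MP_06b9d2_tls.v_prime h3 _ fun h => ?_
    have h4 : (l ^ 2 + 1) % 3 = 0 := Nat.mod_eq_zero_of_dvd h
    rw [Nat.add_mod, Nat.pow_mod, h9] at h4
    exact absurd h4 (by decide)
  have h4 : O.valuation (((l + 1 : ℕ)) : ℂ) = 1 := Pool.Agent.Lib.MP_06b9d2_tls.v_prime h3 _ (by omega)
  have h5 : cl l 1 = (l : ℂ) * ((l ^ 2 + 1 : ℕ) : ℂ) / ((l + 1 : ℕ) : ℂ) := by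
    unfold cl
    push_cast
    ring
  rw [h5, map_div₀, map_mul, h1, h2, h4, one_mul, div_one]

theorem ge_d (h : Core A Y) (h3 : O.valuation 3 < 1) (hl : PL l 1 s0) (hM : MatD l 1 A Y M) (a : ℕ) (ha : a ≤ 2) :
    O.valuation (M a 2 0 0 - M a 2 1 1) ≤ O.valuation 81 := by
  obtain ⟨b, k, c, q⟩ := Pool.Agent.Lib.MP_06b9d2_tls.qd_ex h
  obtain ⟨hp, h1⟩ := gep_l hl
  have : Fact (a < 3) := ⟨by omega⟩
  have e0 := Pool.Agent.Lib.MP_06b9d2_tls.mat_00 h hl hM a 2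
  have e1 := Pool.Agent.Lib.MP_06b9d2_tls.q_t h q hl hM a
  have key : ∃ y : ℤ, 1 + (l : ℤ) ^ (5 + a) - coeff l (b ^ a * (b ^ 3 - 27 * c) * c) =
      81 * coeff l (k ^ 4) + 243 * y := by
    interval_cases a
    · obtain ⟨y, hy⟩ := Pool.Agent.Lib.MP_06b9d2_tls.cp6 q l hp h1
      exact ⟨y, by rw [pow_zero, one_mul]; exact hy⟩
    · obtain ⟨y, hy⟩ := Pool.Agent.Lib.MP_06b9d2_tls.cz7 h q hl hM
      exact ⟨y, by rw [pow_one]; exact hy⟩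
    · exact Pool.Agent.Lib.MP_06b9d2_tls.cp8 q l hp h1
  obtain ⟨y, hy⟩ := key
  have hn : M a 2 0 0 - M a 2 1 1 = 81 * (((l : ℤ) * (coeff l (k ^ 4) + 3 * y) : ℤ) : ℂ) := by
    have hy' : (((1 + (l : ℤ) ^ (5 + a) - coeff l (b ^ a * (b ^ 3 - 27 * c) * c) : ℤ)) : ℂ) =
        ((81 * coeff l (k ^ 4) + 243 * y : ℤ) : ℂ) := by
      rw [hy]
    rw [e0, ← e1]
    push_cast at hy' ⊢
    have e3 : (l : ℂ) + (1 * (l : ℂ)) ^ (3 * 2 + a) = (l : ℂ) * (1 + (l : ℂ) ^ (5 + a)) := by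
      rw [one_mul, mul_add, mul_one, ← pow_succ']
      congr 2
      omega
    rw [e3]
    linear_combination (l : ℂ) * hy'
  rw [hn]
  exact gep_int _ _

private theorem gep_0 {A Y : ℂ⟦X⟧} (h : Core A Y) {l : ℕ} {s0 : ℂ}
    (hl : PL l 1 s0) {M : ℕ → ℕ → ℕ → ℕ → ℂ} (hM : MatD l 1 A Y M) :
    ∃ y : ℤ, M 0 2 1 0 = 243 * (y : ℂ) := by
  obtain ⟨b, k, c, q⟩ := Pool.Agent.Lib.MP_06b9d2_tls.qd_ex h
  obtain ⟨hp, h1⟩ := gep_l hl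
  have e0 := Pool.Agent.Lib.MP_06b9d2_tls.mat_00 h hl hM 0 2
  have e1 := Pool.Agent.Lib.MP_06b9d2_tls.q_M h q hl hM 0 2
  obtain ⟨y, hy⟩ := Pool.Agent.Lib.MP_06b9d2_tls.cp20 q l hp h1
  rw [pow_zero, one_mul, e0] at e1
  have hy' : (((coeff l ((b ^ 3 - 27 * c) ^ 2) + 18 * (1 + (l : ℤ) ^ 5) : ℤ)) : ℂ) =
        ((27 * 243 * y : ℤ) : ℂ) := by
    rw [hy]
  push_cast at e1 hy'
  refine ⟨l * y, ?_⟩
  push_cast
  linear_combination ((l : ℂ) * hy' - e1) / 27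

private theorem gep_2 {A Y : ℂ⟦X⟧} (h : Core A Y) {l : ℕ} {s0 : ℂ}
    (hl : PL l 1 s0) {M : ℕ → ℕ → ℕ → ℕ → ℂ} (hM : MatD l 1 A Y M) :
    ∃ y : ℤ, M 2 2 1 0 = 243 * (y : ℂ) := by
  obtain ⟨b, k, c, q⟩ := Pool.Agent.Lib.MP_06b9d2_tls.qd_ex h
  obtain ⟨hp, h1⟩ := gep_l hl
  have e0 := Pool.Agent.Lib.MP_06b9d2_tls.mat_00 h hl hM 2 2
  have e1 := Pool.Agent.Lib.MP_06b9d2_tls.q_M h q hl hM 2 2
  obtain ⟨y, hy⟩ := Pool.Agent.Lib.MP_06b9d2_tls.cp22 q l hp h1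
  rw [e0] at e1
  have hy' : (((coeff l (b ^ 2 * (b ^ 3 - 27 * c) ^ 2) + 6 * (1 + (l : ℤ) ^ 7) : ℤ)) : ℂ) =
        ((27 * 243 * y : ℤ) : ℂ) := by
    rw [hy]
  push_cast at e1 hy'
  refine ⟨l * y, ?_⟩
  push_cast
  linear_combination ((l : ℂ) * hy' - e1) / 27

theorem ge_10 (h : Core A Y) (h3 : O.valuation 3 < 1) (hl : PL l 1 s0) (hM : MatD l 1 A Y M) (a : ℕ) (ha : a ≤ 2) :
    O.valuation (M a 2 1 0) ≤ O.valuation 81 := by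
  have h243 : ∀ y : ℤ, O.valuation ((243 : ℂ) * (y : ℂ)) ≤ O.valuation 81 := by
    intro y
    have e : (243 : ℂ) * (y : ℂ) = 81 * ((3 * y : ℤ) : ℂ) := by
      push_cast
      ring
    rw [e]
    exact gep_int _ _
  interval_cases a
  · obtain ⟨y, hy⟩ := gep_0 h hl hM
    rw [hy]
    exact h243 y
  · have h7 : O.valuation (7 : ℂ) = 1 := by
      have h8 := Pool.Agent.Lib.MP_06b9d2_ssp.val_int h3 7 (by norm_num)
      exact_mod_cast h8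
    rw [Pool.Agent.Lib.MP_06b9d2_tls.m7 h hl hM, map_mul, map_div₀, h7, div_one]
    have h5 := ge_d h h3 hl hM 1 (by norm_num)
    exact (mul_le_of_le_one_left' h3.le).trans h5
  · obtain ⟨y, hy⟩ := gep_2 h hl hM
    rw [hy]
    exact h243 y

theorem ge_all (h : Core A Y) (h3 : O.valuation 3 < 1) (hl : PL l 1 s0) (hM : MatD l 1 A Y M) (a : ℕ) (ha : a ≤ 2) :
    (∀ m n r, m + n < r → pc 1 (cl l 1) M a m n r = 0) ∧
    (∀ m n r, O.valuation (pc 1 (cl l 1) M a m n r) ≤ O.valuation 3 ^ ((m + n + 1) / 2)) ∧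
    pc 1 (cl l 1) M a 1 0 1 = 0 ∧ pc 1 (cl l 1) M a 0 1 0 = 0 ∧
    pc 1 (cl l 1) M a 0 1 1 = pc 1 (cl l 1) M a 1 0 0 ∧ pc 1 (cl l 1) M a 2 0 2 = 0 ∧
    pc 1 (cl l 1) M a 0 2 0 = 0 ∧ pc 1 (cl l 1) M a 0 2 2 = pc 1 (cl l 1) M a 2 0 0 ∧
    pc 1 (cl l 1) M a 1 1 0 = 0 ∧ pc 1 (cl l 1) M a 1 1 2 = 0 ∧
    O.valuation (pc 1 (cl l 1) M a 2 0 1) ≤ O.valuation 9 ∧
    O.valuation (pc 1 (cl l 1) M a 0 2 1) ≤ O.valuation 9 ∧
    O.valuation (pc 1 (cl l 1) M a 2 0 0 - pc 1 (cl l 1) M a 1 1 1) ≤ O.valuation 9 := by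
  have : Fact (a < 3) := ⟨by omega⟩
  have he : (1 : ℂ) ^ 2 = 1 := one_pow 2
  have sym : ∀ m n r : ℕ, r ≤ m + n → pc 1 (cl l 1) M a n m (m + n - r) = pc 1 (cl l 1) M a m n r := by
    intro m n r hr
    have h1 := Pool.Agent.Lib.MP_06b9d2_tls.pc_sym he (cl l 1) hM a m n r hr
    rwa [one_pow, one_mul] at h1
  have h201 : O.valuation (pc 1 (cl l 1) M a 2 0 1) ≤ O.valuation 9 := by
    rw [Pool.Agent.Lib.MP_06b9d2_tls.pc_201 h hl hM a]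
    refine gep_div _ _ _ (by norm_num) ?_
    have h1 := ge_10 h h3 hl hM a ha
    have h2 : (9 : ℂ) * 9 = 81 := by norm_num
    rw [h2]
    exact h1
  refine ⟨fun m n r hr => Pool.Agent.Lib.MP_06b9d2_tls.pc_deg (cl l 1) hM a m n r hr,
    fun m n r => Pool.Agent.Lib.MP_06b9d2_tls.pcP h h3 hl hM a m n r,
    (Pool.Agent.Lib.MP_06b9d2_tls.pc_101 h hl hM a).1,
    (Pool.Agent.Lib.MP_06b9d2_tls.pc_101 h hl hM a).2, sym 1 0 0 (by omega),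
    (Pool.Agent.Lib.MP_06b9d2_tls.pc_202 h hl hM a).1,
    (Pool.Agent.Lib.MP_06b9d2_tls.pc_202 h hl hM a).2, sym 2 0 0 (by omega),
    (Pool.Agent.Lib.MP_06b9d2_tls.pc_110 h hl hM a).1,
    (Pool.Agent.Lib.MP_06b9d2_tls.pc_110 h hl hM a).2, h201, ?_, ?_⟩
  · have h1 := sym 2 0 1 (by omega)
    have h2 : 2 + 0 - 1 = 1 := rfl
    rw [h2] at h1
    rw [h1]
    exact h201
  · have h1 := Pool.Agent.Lib.MP_06b9d2_tls.pc_dif h hl hM a (by rw [one_pow])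
    rw [one_mul, one_mul] at h1
    rw [h1]
    refine gep_div _ _ _ (by norm_num) ?_
    have h2 : (9 : ℂ) * 9 = 81 := by norm_num
    rw [h2]
    exact ge_d h h3 hl hM a ha

end Pool.Agent.Lib.MP_06b9d2_tlm
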