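import Pool.Agent.Lib.MP_06b9d2_tlm.CTa

/-!
Module TLM-Idd. The constant of an operator `d + δ (..)`.
-/

namespace Pool.Agent.Lib.MP_06b9d2_tlm

open PowerSeries Pool.Agent.L1
open Pool.Agent.Lib.MP_06b9d2_ssp (PO Lv mo)
open Pool.Agent.Lib.MP_06b9d2_tls (Two Tl MG dmG)
open Pool.Agent.Lib.MP_06b9d2_tln (TN Mt ex Rp Sy act lu)

variable {O : ValuationSubring ℂ} {N : ℕ}

private theorem Idd_po {f : ℤ → ℂ} (h : PO O f) (s : ℤ) : O.valuation (f s) ≤ 1 := by
  obtain ⟨p, hp⟩ := h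
  rw [hp s, ValuationSubring.valuation_le_one_iff]
  have h1 : (s : ℂ) = algebraMap O ℂ (s : O) := by simp
  rw [h1, Polynomial.aeval_algebraMap_apply]
  exact (Polynomial.aeval (s : O) p).2

theorem erd_id (j : ℕ) (d δ z : ℂ) (hδ : δ ≠ 0) (M : Mt N) (h : ErD O M j d δ) (h0 : M 0 0 = z)
    (hcol : ∀ i : Fin (N + 1), 2 ≤ (i : ℕ) → O.valuation (M i 0) ≤ O.valuation δ) : ErD O M j z δ := by
  classical
  have hF : PD O (fun (π : ZMod 2) (_ : ℤ) => if π = 0 then (1 : ℂ) else 0) :=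
    pd_single (fun _ => 1) (Pool.Agent.Lib.MP_06b9d2_ssp.PO_const 1 (by rw [map_one])) 0
  obtain ⟨G, hG, e⟩ := h _ hF
  have e0 := e 0 0
  have s0 : sg (0 : ZMod 2) = 1 := by simp [sg]
  unfold actD at e0
  have hz : (((0 : Fin (N + 1)) : ℕ) : ZMod 2) = 0 := by simp
  have hz' : (((0 : Fin (N + 1)) : ℕ) : ℤ) = 0 := by simp
  simp only [hz, hz', zero_add, add_zero, s0, one_pow, one_mul, if_true, mul_one] at e0
  rw [Fin.sum_univ_succ] at e0
  simp only [Fin.val_zero, Nat.cast_zero, if_true, mul_one, h0] at e0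
  have hv : O.valuation (∑ i : Fin N, M i.succ 0 * (if (((i.succ : Fin (N + 1)) : ℕ) : ZMod 2) = 0 then (1 : ℂ) else 0)) ≤
      O.valuation δ := by
    refine Valuation.map_sum_le _ fun i _ => ?_
    by_cases hi : (((i.succ : Fin (N + 1)) : ℕ) : ZMod 2) = 0
    · rw [if_pos hi, mul_one]
      refine hcol _ ?_
      rcases Nat.lt_or_ge ((i.succ : Fin (N + 1)) : ℕ) 2 with h2 | h2
      · exfalso
        have h3 : ((i.succ : Fin (N + 1)) : ℕ) = 1 := by
          have : 0 < ((i.succ : Fin (N + 1)) : ℕ) := by rw [Fin.val_succ]; omega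
          omega
        rw [h3] at hi
        exact absurd hi (by decide)
      · exact h2
    · rw [if_neg hi, mul_zero, map_zero]
      exact zero_le
  have hd : d - z = (∑ i : Fin N, M i.succ 0 * (if (((i.succ : Fin (N + 1)) : ℕ) : ZMod 2) = 0 then (1 : ℂ) else 0)) -
      δ * G 0 0 := by
    linear_combination -e0
  have hdv : O.valuation (d - z) ≤ O.valuation δ := by
    rw [hd]
    refine (Valuation.map_sub _ _ _).trans (max_le hv ?_)
    rw [map_mul]
    calc O.valuation δ * O.valuation (G 0 0) ≤ O.valuation δ * 1 := mul_le_mul_right (Idd_po (hG 0) 0) _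
      _ = O.valuation δ := mul_one _
  set y : ℂ := (d - z) / δ with hy
  have hyv : O.valuation y ≤ 1 := by
    rw [hy, map_div₀]
    exact div_le_one_of_le₀ hdv zero_le
  have hyd : d = z + δ * y := by
    rw [hy]
    field_simp
    ring
  intro F hF'
  obtain ⟨G', hG', e'⟩ := h F hF'
  refine ⟨fun π s => y * (sg π ^ j * F π s) + G' π s, pd_add (pd_smul y hyv (pd_sgp j hF')) hG', fun π s => ?_⟩
  rw [e' π s, hyd]
  ring

end Pool.Agent.Lib.MP_06b9d2_tlm
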