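import Pool.Agent.Lib.MP_06b9d2_tls.DatA
import Pool.Agent.Lib.MP_06b9d2_tls.DatC
import Pool.Agent.Lib.MP_06b9d2_tlm.Defs

/-!
Module TLM-Sgn. The sign of the second order term.

Compare `cm_v` in `MP_06b9d2_tls/CmV.lean`, `cm_v81` in `DatC.lean` and the last part of `datM` in `DatA.lean`. `cm6`, `cm8` (`Cm.lean`): `11 [q^l](..) + 2 (1 + l ^ 5) = 243 y` (`a = 0`), `43 [q^l](..) - 2 (1 + l ^ 7) = 243 y` (`a = 2`); `q_t`: `M a 2 1 1 = l [q^l](..)`; `mat_00`: `M a 2 0 0 = l (1 + l ^ (5 + a))`.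
`a = 0`: `11 (M 0 2 0 0 + M 0 2 1 1) = l (9 (1 + l ^ 5) + 243 y)`, so by `pc_dif` (`e = -1`): `11 (pc 2 0 0 + pc 1 1 1) = l (1 + l ^ 5 + 27 y)`; `pc 0 0 0 = l + 1` (`pc_m00`). So `11 (pc 2 0 0 + pc 1 1 1 + pc 0 0 0) = (l + 1) (l (1 - l + l ^ 2 - l ^ 3 + l ^ 4) + 11) + 27 l y`, the second factor is divisible by `3` (`l ≡ 2`).
`a = 2`: `43 (M 2 2 0 0 + M 2 2 1 1) = l (45 (1 + l ^ 7) + 243 y)`, `43 (pc 2 0 0 + pc 1 1 1) = l (5 (1 + l ^ 7) + 27 y)`, `pc 0 0 0 = l + l ^ 2`: `43 (..) = l ((l + 1) (5 (1 - l + l ^ 2 - l ^ 3 + l ^ 4 - l ^ 5 + l ^ 6) + 43) + 27 y)`, again divisible by `3 (l + 1)` up to `27`.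
`sgn3`: `3 ∣ l + 1`: everything is divisible by `9`. `sgn9`: `9 ∣ l + 1`: everything is divisible by `27`. (`v 11 = v 43 = 1`.)
-/

namespace Pool.Agent.Lib.MP_06b9d2_tlm

open PowerSeries Pool.Agent.L1
open Pool.Agent.Lib.MP_06b9d2_ssp (PO Lv mo)
open Pool.Agent.Lib.MP_06b9d2_tls (Core MatD PL pc cl)

variable {A Y : ℂ⟦X⟧} {O : ValuationSubring ℂ} {l : ℕ} {s0 : ℂ} {M : ℕ → ℕ → ℕ → ℕ → ℂ}

private theorem sgn_zint (O : ValuationSubring ℂ) (z : ℤ) : O.valuation (z : ℂ) ≤ 1 :=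
  (O.valuation_le_one_iff _).2 (intCast_mem O z)

private theorem sgn_fin (h3 : O.valuation 3 < 1) {S : ℂ} (p w : ℤ) (hp : ¬ (3 : ℤ) ∣ p)
    (h : (p : ℂ) * S = 3 * (w : ℂ)) : O.valuation S ≤ O.valuation 3 := by
  have h1 := congrArg O.valuation h
  rw [map_mul, map_mul, MP_06b9d2_ssp.val_int h3 p hp, one_mul] at h1
  rw [h1]
  calc O.valuation 3 * O.valuation (w : ℂ) ≤ O.valuation 3 * 1 := mul_le_mul' le_rfl (sgn_zint O w)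
    _ = O.valuation 3 := mul_one _

private theorem sgn_u (l : ℤ) (h : l % 3 = 2) : ∃ u : ℤ, l * (1 - l + l ^ 2 - l ^ 3 + l ^ 4) + 11 = 3 * u := by
  have e : l ≡ 2 [ZMOD 3] := h
  have e1 : l * (1 - l + l ^ 2 - l ^ 3 + l ^ 4) + 11 ≡ 2 * (1 - 2 + 2 ^ 2 - 2 ^ 3 + 2 ^ 4) + 11 [ZMOD 3] :=
    (e.mul ((((Int.ModEq.rfl.sub e).add (e.pow 2)).sub (e.pow 3)).add (e.pow 4))).add_right 11
  have e2 : (3 : ℤ) ∣ l * (1 - l + l ^ 2 - l ^ 3 + l ^ 4) + 11 := by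
    refine Int.dvd_of_emod_eq_zero ?_
    unfold Int.ModEq at e1
    rw [e1]
    norm_num
  exact e2

private theorem sgn_u' (l : ℤ) (h : l % 3 = 2) :
    ∃ u : ℤ, 5 * (1 - l + l ^ 2 - l ^ 3 + l ^ 4 - l ^ 5 + l ^ 6) + 43 = 3 * u := by
  have e : l ≡ 2 [ZMOD 3] := h
  have e1 : 5 * (1 - l + l ^ 2 - l ^ 3 + l ^ 4 - l ^ 5 + l ^ 6) + 43 ≡
      5 * (1 - 2 + 2 ^ 2 - 2 ^ 3 + 2 ^ 4 - 2 ^ 5 + 2 ^ 6) + 43 [ZMOD 3] :=
    (((((((Int.ModEq.rfl.sub e).add (e.pow 2)).sub (e.pow 3)).add (e.pow 4)).sub (e.pow 5)).add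
      (e.pow 6)).mul_left 5).add_right 43
  have e2 : (3 : ℤ) ∣ 5 * (1 - l + l ^ 2 - l ^ 3 + l ^ 4 - l ^ 5 + l ^ 6) + 43 := by
    refine Int.dvd_of_emod_eq_zero ?_
    unfold Int.ModEq at e1
    rw [e1]
    norm_num
  exact e2

private theorem sgn_key (h : Core A Y) (hl : PL l (-1) s0) (h2 : l % 3 = 2) (hM : MatD l (-1) A Y M) (a : ℕ)
    (ha : a = 0 ∨ a = 2) : ∃ p u v : ℤ, ¬ (3 : ℤ) ∣ p ∧
    (p : ℂ) * (pc (-1) (cl l (-1)) M a 2 0 0 + pc (-1) (cl l (-1)) M a 1 1 1 +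
      pc (-1) (cl l (-1)) M a 0 0 0) = 3 * ((l : ℂ) + 1) * u + 27 * v := by
  have : Fact (a < 3) := ⟨by omega⟩
  have hea : (-1 : ℂ) ^ a = 1 := by
    rcases ha with h | h <;> subst h <;> norm_num
  obtain ⟨α, k, c, q⟩ := MP_06b9d2_tls.qd_ex h
  have hp : l.Prime := hl.1
  have h00 := MP_06b9d2_tls.mat_00 h hl hM a 2
  have h11 := MP_06b9d2_tls.q_t h q hl hM a
  have hd := MP_06b9d2_tls.pc_dif h hl hM a (by rw [pow_add, hea]; norm_num)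
  have h0 := MP_06b9d2_tls.pc_m00 h hl hM a 0
  have h2' : (l : ℤ) % 3 = 2 := by omega
  rcases ha with rfl | rfl
  · obtain ⟨y, hy⟩ := MP_06b9d2_tls.cm6 q l hp h2
    obtain ⟨u, hu⟩ := sgn_u l h2'
    refine ⟨11, u, l * y, by norm_num, ?_⟩
    have e2 : 11 * ((coeff l ((α ^ 3 - 27 * c) * c) : ℤ) : ℂ) + 2 * (1 + (l : ℂ) ^ 5) =
        243 * (y : ℂ) := by exact_mod_cast hy
    have e3 : (l : ℂ) * (1 - l + l ^ 2 - l ^ 3 + l ^ 4) + 11 = 3 * (u : ℂ) := by exact_mod_cast hu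
    rw [pow_zero, one_mul] at h11
    rw [h00, ← h11] at hd
    push_cast
    linear_combination 11 * hd + 11 * h0 + (l : ℂ) / 9 * e2 + ((l : ℂ) + 1) * e3
  · obtain ⟨y, hy⟩ := MP_06b9d2_tls.cm8 q l hp h2
    obtain ⟨u, hu⟩ := sgn_u' l h2'
    refine ⟨43, l * u, l * y, by norm_num, ?_⟩
    have e2 : 43 * ((coeff l (α ^ 2 * (α ^ 3 - 27 * c) * c) : ℤ) : ℂ) - 2 * (1 + (l : ℂ) ^ 7) =
        243 * (y : ℂ) := by exact_mod_cast hy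
    have e3 : 5 * (1 - (l : ℂ) + l ^ 2 - l ^ 3 + l ^ 4 - l ^ 5 + l ^ 6) + 43 = 3 * (u : ℂ) := by
      exact_mod_cast hu
    rw [h00, ← h11] at hd
    push_cast
    linear_combination 43 * hd + 43 * h0 + (l : ℂ) / 9 * e2 + (l : ℂ) * ((l : ℂ) + 1) * e3

theorem sgn3 (h : Core A Y) (h3 : O.valuation 3 < 1) (hl : PL l (-1) s0) (hM : MatD l (-1) A Y M) (a : ℕ)
    (ha : a = 0 ∨ a = 2) :
    O.valuation (pc (-1) (cl l (-1)) M a 2 0 0 / 3 + pc (-1) (cl l (-1)) M a 1 1 1 / 3 +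
      pc (-1) (cl l (-1)) M a 0 0 0 / 3) ≤ O.valuation 3 := by
  have h2 : l % 3 = 2 := by
    rcases hl.2 with h | h
    · exact absurd h.2.1 (by norm_num)
    · exact h.1
  obtain ⟨p, u, v, hp, he⟩ := sgn_key h hl h2 hM a ha
  have hm : (l : ℂ) + 1 = 3 * (((l : ℤ) + 1) / 3 : ℤ) := by
    have : (l : ℤ) + 1 = 3 * (((l : ℤ) + 1) / 3) := by omega
    exact_mod_cast this
  refine sgn_fin h3 p ((((l : ℤ) + 1) / 3) * u + 3 * v) hp ?_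
  rw [hm] at he
  push_cast
  linear_combination he / 3

theorem sgn9 (h : Core A Y) (h3 : O.valuation 3 < 1) (hl : PL l (-1) s0) (h9 : l % 9 = 8) (hM : MatD l (-1) A Y M)
    (a : ℕ) (ha : a = 0 ∨ a = 2) :
    O.valuation (pc (-1) (cl l (-1)) M a 2 0 0 / 9 + pc (-1) (cl l (-1)) M a 1 1 1 / 9 +
      pc (-1) (cl l (-1)) M a 0 0 0 / 9) ≤ O.valuation 3 := by
  obtain ⟨p, u, v, hp, he⟩ := sgn_key h hl (by omega) hM a ha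
  have hm : (l : ℂ) + 1 = 9 * (((l : ℤ) + 1) / 9 : ℤ) := by
    have : (l : ℤ) + 1 = 9 * (((l : ℤ) + 1) / 9) := by omega
    exact_mod_cast this
  refine sgn_fin h3 p ((((l : ℤ) + 1) / 9) * u + v) hp ?_
  rw [hm] at he
  push_cast
  linear_combination he / 9

end Pool.Agent.Lib.MP_06b9d2_tlm
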