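import Pool.Agent.Lib.MP_06b9d2_tlm.PrT
import Pool.Agent.Lib.MP_06b9d2_tlm.DaM
import Pool.Agent.Lib.MP_06b9d2_tlm.DaV
import Pool.Agent.Lib.MP_06b9d2_tlm.DaP
import Pool.Agent.Lib.MP_06b9d2_tlm.Idd
import Pool.Agent.Lib.MP_06b9d2_tlm.Sgn
import Pool.Agent.Lib.MP_06b9d2_tlm.GeP
import Pool.Agent.Lib.MP_06b9d2_tls.Two9

/-!
Module TLM-PrF. The classes of the primes.

`k = 3 N + e`, `L = l ^ k / l`, `mt3_MG`: `M i s = r MG ε (cl l ε) pc N i s`, `r = (ε cl) ^ N / l`, `v r = 1` (`v cl = 1`, `v l = 1`), `r ≠ 0`.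
`pr_one` (`l ≡ 1` modulo `3`): `ge_all`, `ge_c`, `erd_genP`, then `erd_id` with `mt3_00`, `mt3_col` (`27 ^ 2` is divisible by `81`). `pr_two` (`l ≡ 2` modulo `3`, `ε = -1`): the fields `deg`, `int` (`pcM`: `v (pc) ≤ v 3`), `pc_101`, `pc_sym` as in `datM`, `datM1` (`MP_06b9d2_tls/DatA.lean`).
`e = 0, 2`: `erd_gen`, `erd_id`: `ErD M 1 (1 + L) 27`; `v (1 + L) ≤ v 3` (`l ^ k + l`, `k` even, is divisible by `3`); `ErD (M * M) (1 + 1) ((1 + L) ^ 2) 81` by `erd_mul` (`27 (1 + L)` and `27 ^ 2` are in `81 O`), `erd_two`. `e = 1`: `erd_gen1`: `ErD M 1 0 9`, `erd_mul`: `ErD (M * M) 2 0 81`, and `v (1 + L) ≤ v 9`: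
`L = l ^ (3 N)` (`k = 3 N + 1`, also for `N = 0`... `N` is odd), `l ^ N ≡ -1` modulo `3`, so `l ^ (3 N) ≡ -1` modulo `9`; hence `ErD (M * M) 2 ((1 + L) ^ 2) 81` (the difference of the constants is in `81 O`), `erd_two`.
`pr_cl`: `l % 27 ≠ 26`, `l % 3 = 2`: `l % 9 = 2, 5` (`datM`, `datM1`, `sgn3`, `κ = pc / 3`) or `l % 27 = 8, 17` (`datM9`, `datM19`, `sgn9`, `κ = pc / 9`); `M i s = (r * 3) MG (-1) cl κ N i s` resp. `r * 9` (`MG_third` in `TwoL.lean` is private: unfold `MG`). `clT_dat` for `e = 0, 2` (`cl = l (l - 1) ≡ -1` modulo `3`: `v (cl ^ 2 - 1) ≤ v 3`), `clV_dat` for `e = 1`; unfold `Cl3`.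
-/

namespace Pool.Agent.Lib.MP_06b9d2_tlm

open PowerSeries Pool.Agent.L1
open Pool.Agent.Lib.MP_06b9d2_ssp (PO Lv mo)
open Pool.Agent.Lib.MP_06b9d2_tls (Two Tl MG dmG Core MatD PL pc cl Qd)
open Pool.Agent.Lib.MP_06b9d2_tln (TN Mt ex Rp Sy act lu)

variable {A Y : ℂ⟦X⟧} {O : ValuationSubring ℂ} {l : ℕ} {s0 : ℂ} {M : ℕ → ℕ → ℕ → ℕ → ℂ}

private theorem vdvd (O : ValuationSubring ℂ) (d n : ℤ) (h : d ∣ n) :
    O.valuation (n : ℂ) ≤ O.valuation (d : ℂ) := by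
  obtain ⟨z, rfl⟩ := h
  rw [Int.cast_mul, map_mul]
  calc O.valuation (d : ℂ) * O.valuation (z : ℂ) ≤ O.valuation (d : ℂ) * 1 :=
        mul_le_mul' le_rfl ((O.valuation_le_one_iff _).2 (intCast_mem O z))
    _ = O.valuation (d : ℂ) := mul_one _

private theorem v27 (O : ValuationSubring ℂ) (i : ℕ) (hi : 2 ≤ i) :
    O.valuation ((27 : ℂ) ^ i) ≤ O.valuation 81 := by
  obtain ⟨j, rfl⟩ := Nat.exists_eq_add_of_le hi
  have h := vdvd O 81 (27 ^ (2 + j)) ⟨9 * 27 ^ j, by rw [pow_add]; ring⟩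
  push_cast at h
  exact h

private theorem erd_const {O : ValuationSubring ℂ} {N : ℕ} {M : Mt N} {j : ℕ} {c c' δ : ℂ} (hδ : δ ≠ 0)
    (h : ErD O M j c δ) (hc : O.valuation (c - c') ≤ O.valuation δ) : ErD O M j c' δ := by
  intro F hF
  obtain ⟨G, hG, hE⟩ := h F hF
  have hv : O.valuation δ ≠ 0 := (Valuation.ne_zero_iff _).2 hδ
  have hy : O.valuation ((c - c') / δ) ≤ 1 := by
    rw [map_div₀]
    exact div_le_one_of_le₀ hc zero_le
  refine ⟨fun π s => (c - c') / δ * (sg π ^ j * F π s) + G π s,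
    pd_add (pd_smul _ hy (pd_sgp j hF)) hG, ?_⟩
  intro π s
  rw [hE π s]
  field_simp
  ring

private theorem MG_div (e c t : ℂ) (ht : t ≠ 0) (κ : ℕ → ℕ → ℕ → ℂ) (N j s : ℕ) :
    MG e c κ N j s = t * MG e c (fun m n r => κ m n r / t) N j s := by
  unfold MG
  rw [Finset.mul_sum]
  refine Finset.sum_congr rfl fun m _ => ?_
  rw [Finset.mul_sum]
  refine Finset.sum_congr rfl fun n _ => ?_
  split_ifs
  · field_simp
  · ring

private theorem l_mod1 (hl : PL l 1 s0) : l % 3 = 1 := by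
  rcases hl.2 with h | h
  · exact h.1
  · exfalso
    have := h.2.1
    norm_num at this

private theorem l_mod2 (hl : PL l (-1) s0) : l % 3 = 2 := by
  rcases hl.2 with h | h
  · exfalso
    have := h.2.1
    norm_num at this
  · exact h.1

private theorem clm : cl l (-1) = (l : ℂ) * ((l : ℂ) - 1) := by
  unfold cl
  have h1 : ((l : ℂ) + 1) ≠ 0 := by exact_mod_cast Nat.succ_ne_zero l
  field_simp
  ring

private theorem clm_v (h3 : O.valuation 3 < 1) (hl : l % 3 = 2) : O.valuation (cl l (-1)) = 1 := by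
  rw [clm]
  have h0 : 1 ≤ l := by omega
  have h1 : (l : ℂ) * ((l : ℂ) - 1) = (((l * (l - 1) : ℕ)) : ℂ) := by
    push_cast [Nat.cast_sub h0]
    ring
  rw [h1]
  refine MP_06b9d2_tls.v_prime h3 _ ?_
  intro hd
  rcases (Nat.Prime.dvd_mul Nat.prime_three).1 hd with h | h <;> omega

private theorem clm_sq (hl : l % 3 = 2) : O.valuation (cl l (-1) ^ 2 - 1) ≤ O.valuation 3 := by
  have h1 : (cl l (-1) ^ 2 - 1 : ℂ) = ((((l : ℤ) * ((l : ℤ) - 1)) ^ 2 - 1 : ℤ) : ℂ) := by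
    rw [clm]
    push_cast
    ring
  rw [h1]
  have h2 := vdvd O 3 (((l : ℤ) * ((l : ℤ) - 1)) ^ 2 - 1) (by
    obtain ⟨q, hq⟩ : ∃ q : ℤ, (l : ℤ) = 3 * q + 2 := ⟨l / 3, by omega⟩
    rw [hq]
    exact ⟨27 * q ^ 4 + 54 * q ^ 3 + 39 * q ^ 2 + 12 * q + 1, by ring⟩)
  exact_mod_cast h2

theorem pr_one (h : Core A Y) (h3 : O.valuation 3 < 1) (hl : PL l 1 s0) (hM : MatD l 1 A Y M) (e N : ℕ)
    (he : e ≤ 2) (hN : Even (N + e)) : ErD O (mt3 l e M N) 0 (1 + (l : ℂ) ^ (3 * N + e) / l) 81 := by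
  have hF : Fact (e < 3) := ⟨by omega⟩
  have hl1 := l_mod1 hl
  have hvl : O.valuation (l : ℂ) = 1 := MP_06b9d2_tls.v_prime h3 l (by omega)
  have hc := ge_c h3 hl
  obtain ⟨deg, int, h101, h010, h011, h202, h020, h022, h110, h112, h201, h021, ht⟩ :=
    ge_all h h3 hl hM e he
  have hr : O.valuation ((1 * cl l 1) ^ N / l) ≤ 1 := by
    rw [map_div₀, map_pow, one_mul, hc, one_pow, hvl, div_one]
  obtain ⟨d, hd⟩ := erd_genP h3 (cl l 1) hc (fun m n r => pc 1 (cl l 1) M e m n r) deg int h101 h010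
    h011 h202 h020 h022 h110 h112 h201 h021 ht _ hr (mt3 l e M N)
    (fun i s => mt3_MG h hl hM e N he i s)
  refine erd_id 0 d 81 _ (by norm_num) _ hd (mt3_00 h hl hM e N he hN) ?_
  intro i hi
  exact le_trans (mt3_col h h3 hl hM e N he i) (v27 O i hi)

private theorem two_r (h3 : O.valuation 3 < 1) (hl : l % 3 = 2) (N : ℕ) :
    O.valuation ((-1 * cl l (-1)) ^ N / l) = 1 := by
  have hvl : O.valuation (l : ℂ) = 1 := MP_06b9d2_tls.v_prime h3 l (by omega)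
  rw [map_div₀, map_pow, neg_one_mul, Valuation.map_neg, clm_v h3 hl, one_pow, hvl, div_one]

private theorem two_L (h3 : O.valuation 3 < 1) (hl : l % 3 = 2) (k : ℕ) (hk : Even k) :
    O.valuation (1 + (l : ℂ) ^ k / l) ≤ O.valuation 3 := by
  have hvl : O.valuation (l : ℂ) = 1 := MP_06b9d2_tls.v_prime h3 l (by omega)
  have hl0 : (l : ℂ) ≠ 0 := by
    have : l ≠ 0 := by omega
    exact_mod_cast this
  have h1 : (1 + (l : ℂ) ^ k / l) = (((l : ℤ) + (l : ℤ) ^ k : ℤ) : ℂ) / l := by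
    push_cast
    field_simp
  rw [h1, map_div₀, hvl, div_one]
  have h2 := vdvd O 3 ((l : ℤ) + (l : ℤ) ^ k) (by
    have e1 : (l : ℤ) ≡ -1 [ZMOD 3] := by
      unfold Int.ModEq
      omega
    have e2 : (l : ℤ) + (l : ℤ) ^ k ≡ -1 + (-1) ^ k [ZMOD 3] := e1.add (e1.pow k)
    rw [hk.neg_one_pow] at e2
    exact Int.modEq_zero_iff_dvd.1 e2)
  exact_mod_cast h2

private theorem two_L9 (hl : l % 3 = 2) (N : ℕ) (hN : Odd N) :
    O.valuation (1 + (l : ℂ) ^ (3 * N + 1) / l) ≤ O.valuation 9 := by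
  have hl0 : (l : ℂ) ≠ 0 := by
    have : l ≠ 0 := by omega
    exact_mod_cast this
  have h1 : (1 + (l : ℂ) ^ (3 * N + 1) / l) = ((1 + ((l : ℤ) ^ N) ^ 3 : ℤ) : ℂ) := by
    push_cast
    rw [pow_succ, mul_div_cancel_right₀ _ hl0, mul_comm 3 N, pow_mul]
  rw [h1]
  have h2 := vdvd O 9 (1 + ((l : ℤ) ^ N) ^ 3) (by
    have e1 : (l : ℤ) ≡ -1 [ZMOD 3] := by
      unfold Int.ModEq
      omega
    have e2 : (l : ℤ) ^ N ≡ (-1) ^ N [ZMOD 3] := e1.pow N
    rw [hN.neg_one_pow] at e2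
    obtain ⟨q, hq⟩ : ∃ q : ℤ, (l : ℤ) ^ N = 3 * q - 1 := by
      obtain ⟨q, hq⟩ := Int.modEq_iff_dvd.1 e2
      exact ⟨-q, by linarith⟩
    rw [hq]
    exact ⟨3 * q ^ 3 - 3 * q ^ 2 + q, by ring⟩)
  exact_mod_cast h2

private theorem v_mul_le (O : ValuationSubring ℂ) (a b c d : ℂ) (h1 : O.valuation a ≤ O.valuation c)
    (h2 : O.valuation b ≤ O.valuation d) : O.valuation (a * b) ≤ O.valuation (c * d) := by
  rw [map_mul, map_mul]
  exact mul_le_mul' h1 h2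

theorem pr_two (h : Core A Y) (h3 : O.valuation 3 < 1) (hl : PL l (-1) s0) (hM : MatD l (-1) A Y M) (e N : ℕ)
    (he : e ≤ 2) (hN : Even (N + e)) :
    ErD O (mt3 l e M N * mt3 l e M N) 0 ((1 + (l : ℂ) ^ (3 * N + e) / l) ^ 2) 81 := by
  have hF : Fact (e < 3) := ⟨by omega⟩
  have hl2 := l_mod2 hl
  have hc := clm_v h3 hl2 (O := O)
  have hs : (-1 : ℂ) ^ 2 = 1 := by norm_num
  have hsym := MP_06b9d2_tls.pc_sym hs (cl l (-1)) hM e 1 0 0 (by norm_num)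
  rw [show 1 + 0 - 0 = 1 from rfl] at hsym
  rcases (show e = 1 ∨ e % 2 = 0 by omega) with h1 | h02
  · subst h1
    have hE := erd_gen1 h3 (cl l (-1)) hc (fun m n r => pc (-1) (cl l (-1)) M 1 m n r)
      (fun m n r hr => MP_06b9d2_tls.pc_deg _ hM 1 m n r hr)
      (fun m n r => MP_06b9d2_tls.pcM h h3 hl hM 1 m n r)
      (by
        show pc (-1) (cl l (-1)) M 1 0 0 0 = 0
        rw [MP_06b9d2_tls.pc_m00 h hl hM 1 0, pow_zero, pow_zero, pow_zero]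
        ring)
      (MP_06b9d2_tls.pc_101 h hl hM 1).1 (MP_06b9d2_tls.pc_101 h hl hM 1).2
      (by
        show pc (-1) (cl l (-1)) M 1 0 1 1 = pc (-1) (cl l (-1)) M 1 1 0 0
        rw [hsym, show ((-1 : ℂ) ^ (1 + 1 + 0)) = 1 by norm_num, one_mul])
      _ (two_r h3 hl2 N).le (mt3 l 1 M N) (fun i s => mt3_MG h hl hM 1 N he i s)
    have hE2 : ErD O (mt3 l 1 M N * mt3 l 1 M N) (1 + 1) (0 * 0) 81 :=
      erd_mul hE hE (by rw [mul_zero, map_zero]; exact zero_le) (by rw [zero_mul, map_zero]; exact zero_le)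
        (by norm_num)
    refine erd_const (by norm_num) (erd_two hE2) ?_
    rw [mul_zero, zero_sub, Valuation.map_neg, sq, show (81 : ℂ) = 9 * 9 by norm_num]
    have hL := two_L9 (O := O) hl2 N (by
      rw [Nat.even_iff] at hN
      rw [Nat.odd_iff]
      omega)
    exact v_mul_le O _ _ _ _ hL hL
  · have hea : (-1 : ℂ) ^ (e + 1 + 0) = -1 := Odd.neg_one_pow (by
      rw [Nat.odd_iff]
      omega)
    obtain ⟨d, hd⟩ := erd_gen h3 (cl l (-1)) hc (fun m n r => pc (-1) (cl l (-1)) M e m n r)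
      (fun m n r hr => MP_06b9d2_tls.pc_deg _ hM e m n r hr)
      (fun m n r => MP_06b9d2_tls.pcM h h3 hl hM e m n r)
      (MP_06b9d2_tls.pc_101 h hl hM e).1 (MP_06b9d2_tls.pc_101 h hl hM e).2
      (by
        show pc (-1) (cl l (-1)) M e 0 1 1 = -pc (-1) (cl l (-1)) M e 1 0 0
        rw [hsym, hea, neg_one_mul])
      _ (two_r h3 hl2 N).le (mt3 l e M N) (fun i s => mt3_MG h hl hM e N he i s)
    have hE : ErD O (mt3 l e M N) 1 (1 + (l : ℂ) ^ (3 * N + e) / l) 27 := by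
      refine erd_id 1 d 27 _ (by norm_num) _ hd (mt3_00 h hl hM e N he hN) ?_
      intro i hi
      refine le_trans (mt3_col h h3 hl hM e N he i) (le_trans (v27 O i hi) ?_)
      have := vdvd O 27 81 ⟨3, by norm_num⟩
      exact_mod_cast this
    have hL := two_L (O := O) h3 hl2 (3 * N + e) (by
      rw [Nat.even_iff] at hN ⊢
      omega)
    have hE2 : ErD O (mt3 l e M N * mt3 l e M N) (1 + 1)
        ((1 + (l : ℂ) ^ (3 * N + e) / l) * (1 + (l : ℂ) ^ (3 * N + e) / l)) 81 :=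
      erd_mul hE hE (by
        rw [show (81 : ℂ) = 27 * 3 by norm_num]
        exact v_mul_le O _ _ _ _ le_rfl hL) (by
        rw [show (81 : ℂ) = 3 * 27 by norm_num]
        exact v_mul_le O _ _ _ _ hL le_rfl) (by
        have := vdvd O 81 (27 * 27) ⟨9, by norm_num⟩
        exact_mod_cast this)
    rw [sq]
    exact erd_two hE2

private theorem cl_aux (h : Core A Y) (h3 : O.valuation 3 < 1) (hl : PL l (-1) s0)
    (hM : MatD l (-1) A Y M) (e N : ℕ) (he : e ≤ 2) (t : ℂ) (ht : t ≠ 0)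
    (h1 : MP_06b9d2_tls.DatM1 O (cl l (-1)) (fun m n r => pc (-1) (cl l (-1)) M 1 m n r / t))
    (h02 : ∀ a, a = 0 ∨ a = 2 → MP_06b9d2_tls.DatM O (cl l (-1)) (fun m n r => pc (-1) (cl l (-1)) M a m n r / t))
    (hs : ∀ a, a = 0 ∨ a = 2 → O.valuation (pc (-1) (cl l (-1)) M a 2 0 0 / t +
      pc (-1) (cl l (-1)) M a 1 1 1 / t + pc (-1) (cl l (-1)) M a 0 0 0 / t) ≤ O.valuation 3) :
    ∃ d : ℂ, d ≠ 0 ∧ Cl3 O e (mt3 l e M N) d 1 := by
  have hl2 := l_mod2 hl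
  have hr : (-1 * cl l (-1)) ^ N / l * t ≠ 0 := by
    refine mul_ne_zero ?_ ht
    have := two_r (O := O) h3 hl2 N
    intro h0
    rw [h0, map_zero] at this
    exact zero_ne_one this
  have key : ∀ i s : Fin (N + 1), mt3 l e M N i s = ((-1 * cl l (-1)) ^ N / l * t) *
      MG (-1) (cl l (-1)) (fun m n r => pc (-1) (cl l (-1)) M e m n r / t) N i s := by
    intro i s
    rw [mt3_MG h hl hM e N he i s, MG_div _ _ t ht]
    ring
  unfold Cl3
  rcases (show e = 1 ∨ (e = 0 ∨ e = 2) by omega) with he1 | he02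
  · subst he1
    simp only [if_true]
    exact clV_dat h3 _ _ h1 _ hr _ key
  · have hne : ¬ e = 1 := by omega
    simp only [if_neg hne]
    exact clT_dat h3 _ _ (h02 e he02) (clm_sq hl2) (hs e he02) _ hr _ key

theorem pr_cl (h : Core A Y) (h3 : O.valuation 3 < 1) (hl : PL l (-1) s0) (h26 : l % 27 ≠ 26)
    (hM : MatD l (-1) A Y M) (e N : ℕ) (he : e ≤ 2) (hN : Even (N + e)) :
    ∃ d : ℂ, d ≠ 0 ∧ Cl3 O e (mt3 l e M N) d 1 := by
  have hl2 := l_mod2 hl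
  rcases (show (l % 9 = 2 ∨ l % 9 = 5) ∨ (l % 27 = 8 ∨ l % 27 = 17) by omega) with h9 | h27
  · exact cl_aux h h3 hl hM e N he 3 (by norm_num) (MP_06b9d2_tls.datM1 h h3 hl h9 hM)
      (fun a ha => MP_06b9d2_tls.datM h h3 hl h9 hM a ha) (fun a ha => sgn3 h h3 hl hM a ha)
  · exact cl_aux h h3 hl hM e N he 9 (by norm_num) (MP_06b9d2_tls.datM19 h h3 hl h27 hM)
      (fun a ha => MP_06b9d2_tls.datM9 h h3 hl h27 hM a ha)
      (fun a ha => sgn9 h h3 hl (by omega) hM a ha)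

end Pool.Agent.Lib.MP_06b9d2_tlm
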