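import Pool.Agent.Lib.MP_06b9d2_tlm.Rpb
import Pool.Agent.Lib.MP_06b9d2_tls.TwoM

/-!
Module TLM-TwO. Eigenspaces of dimension at most two, odd exponents.

As `twoM`, `twoM1` in `MP_06b9d2_tls/TwoM.lean` (`twoKey` with `M = 2`, `finM`, `finM1` in `FnM.lean`, the congruences `CgM`, `CgM1` in `CgM.lean`, `NmM` in `NrM.lean`).
For an eigenvector `x` of `ex M` (`EgG (ex M) N lam x`) and `F : FF`: `∑_s x_s (actD M j F s s) = lam ∑_s x_s F s s` (`π = s` in `ZMod 2`: `sg (s + s) = 1`, `actD M j F s s = ∑_i M i s F i i`; `∑_s M i s x_s = lam x_i`). Take `F π s = f s` if `π = π₀`, else `0` (`pd_single`), `f` in `PO O`: `∑_s x_s F s s = muM 2 N x π₀ f` (the `s ≡ π₀` modulo `2`; `(s : ZMod 2) = (π₀ : ZMod 2) ↔ s % 2 = π₀ % 2`: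
`ZMod.natCast_eq_natCast_iff'`). `∑_s x_s G s s = muM 2 N x 0 (G 0) + muM 2 N x 1 (G 1)` is in `O` for `G` in `PD O` (`NmM.mem`).
`two_T_odd`: `SG F = sg π₀ F`, so `W (SG F) = sg π₀ W F` (`An.smul`) and `= - sg W F` (`An.anti`): at `π = π₀` this gives `(W F) π₀ = 0`; so `∑_s x_s (W F) s s = muM 2 N x (π₀ + 1) ((W F) (π₀ + 1))`. Dividing by `c`: `CgM O N x (lam / c) 1 (-j)` (`sg π₀ ^ j = sg π₀ = (-1) ^ π₀`, `j` odd; `1 - 9 j q = 1 + 9 (-j) q`); `v (-j) = 1` as `3 ∤ j`. `finM` with `d = 1`, `t = -j`.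
`two_V_one`: multiply by `3 / c`: `CgM1 O N x (3 lam / c) 1`. `finM1` with `q = 1`.
-/

namespace Pool.Agent.Lib.MP_06b9d2_tlm

open PowerSeries Pool.Agent.L1
open Pool.Agent.Lib.MP_06b9d2_ssp (PO Lv mo)
open Pool.Agent.Lib.MP_06b9d2_tls (Two Tl MG dmG EgG NmM muM CgM CgM1)
open Pool.Agent.Lib.MP_06b9d2_tln (TN Mt ex Rp Sy act lu)

variable {O : ValuationSubring ℂ} {N : ℕ}

/-- the sum of `x s * F s s` -/
private noncomputable def TwO_S (N : ℕ) (x : ℕ → ℂ) (F : FF) : ℂ :=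
  ∑ s : Fin (N + 1), x s * F ((s : ℕ) : ZMod 2) ((s : ℕ) : ℤ)

private theorem TwO_two (a : ZMod 2) : a + a = 0 := CharTwo.add_self_eq_zero a

private theorem TwO_diag (M : Mt N) (j : ℕ) (F : FF) (s : Fin (N + 1)) :
    actD M j F ((s : ℕ) : ZMod 2) s =
      ∑ i : Fin (N + 1), M i s * F ((i : ℕ) : ZMod 2) ((i : ℕ) : ℤ) := by
  unfold actD
  have h1 : (((s : ℕ) : ZMod 2)) + ((s : ℕ) : ZMod 2) = 0 := TwO_two _
  have h2 : sg (0 : ZMod 2) = 1 := by unfold sg; simp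
  rw [h1, h2, one_pow, one_mul]
  refine Finset.sum_congr rfl fun i _ => ?_
  have h3 : (((s : ℕ) : ZMod 2)) + ((i : ℕ) : ZMod 2) + ((s : ℕ) : ZMod 2) = ((i : ℕ) : ZMod 2) := by
    rw [add_right_comm, h1, zero_add]
  rw [h3]

private theorem TwO_eig (M : Mt N) {lam : ℂ} {x : ℕ → ℂ} (hx : EgG (ex M) N lam x) (j : ℕ) (F : FF) :
    ∑ s : Fin (N + 1), x s * actD M j F ((s : ℕ) : ZMod 2) s = lam * TwO_S N x F := by
  have h1 : ∀ i : Fin (N + 1), ∑ s : Fin (N + 1), M i s * x s = lam * x i := by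
    intro i
    have h := hx i (Nat.lt_succ_iff.1 i.2)
    rw [← h, ← Fin.sum_univ_eq_sum_range (fun s => ex M i s * x s) (N + 1)]
    refine Finset.sum_congr rfl fun s _ => ?_
    have h2 : ex M (i : ℕ) (s : ℕ) = M i s := by
      unfold ex
      rw [dif_pos ⟨i.2, s.2⟩]
    rw [h2]
  simp only [TwO_diag, Finset.mul_sum]
  rw [Finset.sum_comm]
  unfold TwO_S
  rw [Finset.mul_sum]
  refine Finset.sum_congr rfl fun i _ => ?_
  have h3 : ∑ s : Fin (N + 1), x s * (M i s * F ((i : ℕ) : ZMod 2) ((i : ℕ) : ℤ)) =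
      (∑ s : Fin (N + 1), M i s * x s) * F ((i : ℕ) : ZMod 2) ((i : ℕ) : ℤ) := by
    rw [Finset.sum_mul]
    exact Finset.sum_congr rfl fun s _ => by ring
  rw [h3, h1]
  ring

private theorem TwO_mu (N : ℕ) (x : ℕ → ℂ) (π : ℕ) (f : ℤ → ℂ) :
    muM 2 N x π f = ∑ s : Fin (N + 1),
      if (((s : ℕ) : ZMod 2)) = ((π : ℕ) : ZMod 2) then x s * f ((s : ℕ) : ℤ) else 0 := by
  unfold muM
  rw [Finset.sum_filter, ← Fin.sum_univ_eq_sum_range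
    (fun s => if s % 2 = π % 2 then x s * f ((s : ℕ) : ℤ) else 0) (N + 1)]
  refine Finset.sum_congr rfl fun s _ => ?_
  by_cases h : (s : ℕ) % 2 = π % 2
  · rw [if_pos h, if_pos ((ZMod.natCast_eq_natCast_iff' _ _ _).2 h)]
  · rw [if_neg h, if_neg (fun h' => h ((ZMod.natCast_eq_natCast_iff' _ _ _).1 h'))]

private theorem TwO_S_eq (N : ℕ) (x : ℕ → ℂ) (F : FF) (π : ℕ) :
    TwO_S N x F = muM 2 N x π (F ((π : ℕ) : ZMod 2)) +
      muM 2 N x (π + 1) (F (((π + 1 : ℕ)) : ZMod 2)) := by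
  rw [TwO_mu, TwO_mu, ← Finset.sum_add_distrib]
  unfold TwO_S
  refine Finset.sum_congr rfl fun s _ => ?_
  have hne : ((π : ℕ) : ZMod 2) ≠ ((π + 1 : ℕ) : ZMod 2) := by
    intro h
    have := (ZMod.natCast_eq_natCast_iff' _ _ _).1 h
    omega
  have hor : (((s : ℕ) : ZMod 2)) = ((π : ℕ) : ZMod 2) ∨
      (((s : ℕ) : ZMod 2)) = ((π + 1 : ℕ) : ZMod 2) := by
    have h : (s : ℕ) % 2 = π % 2 ∨ (s : ℕ) % 2 = (π + 1) % 2 := by omega
    rcases h with h | h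
    · exact Or.inl ((ZMod.natCast_eq_natCast_iff' _ _ _).2 h)
    · exact Or.inr ((ZMod.natCast_eq_natCast_iff' _ _ _).2 h)
  rcases hor with h | h
  · rw [h, if_pos rfl, if_neg hne, add_zero]
  · rw [h, if_neg hne.symm, if_pos rfl, zero_add]

private theorem TwO_mu0 (N : ℕ) (x : ℕ → ℂ) (π : ℕ) (f : ℤ → ℂ) (h : ∀ s, f s = 0) :
    muM 2 N x π f = 0 := by
  unfold muM
  exact Finset.sum_eq_zero fun s _ => by rw [h, mul_zero]

private theorem TwO_mem {x : ℕ → ℂ} (hn : NmM O 2 N x) {G : FF} (hG : PD O G) :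
    TwO_S N x G ∈ O := by
  rw [← ValuationSubring.valuation_le_one_iff, TwO_S_eq N x G 0]
  exact Valuation.map_add_le _ (hn.mem _ _ (hG _)) (hn.mem _ _ (hG _))

/-- the function `f` at the residue `π` -/
private noncomputable def TwO_F (π : ℕ) (f : ℤ → ℂ) : FF :=
  fun ρ s => if ρ = ((π : ℕ) : ZMod 2) then f s else 0

private theorem TwO_F_pd {f : ℤ → ℂ} (hf : PO O f) (π : ℕ) : PD O (TwO_F π f) :=
  pd_single f hf _

private theorem TwO_F_same (π : ℕ) (f : ℤ → ℂ) (s : ℤ) : TwO_F π f ((π : ℕ) : ZMod 2) s = f s := by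
  unfold TwO_F
  rw [if_pos rfl]

private theorem TwO_F_other (π : ℕ) (f : ℤ → ℂ) (s : ℤ) :
    TwO_F π f ((π + 1 : ℕ) : ZMod 2) s = 0 := by
  unfold TwO_F
  rw [if_neg]
  intro h
  have := (ZMod.natCast_eq_natCast_iff' _ _ _).1 h
  omega

private theorem TwO_SF (N : ℕ) (x : ℕ → ℂ) (π : ℕ) (f : ℤ → ℂ) :
    TwO_S N x (TwO_F π f) = muM 2 N x π f := by
  rw [TwO_S_eq N x _ π, TwO_mu0 N x (π + 1) _ (TwO_F_other π f), add_zero]
  congr 1
  funext s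
  exact TwO_F_same π f s

/-- a function times the function `f` at one residue -/
private theorem TwO_SgF (N : ℕ) (x : ℕ → ℂ) (π : ℕ) (f : ℤ → ℂ) (a : ZMod 2 → ℂ) (g : ℤ → ℂ) :
    TwO_S N x (fun ρ s => a ρ * (g s * TwO_F π f ρ s)) =
      a ((π : ℕ) : ZMod 2) * muM 2 N x π (fun s => g s * f s) := by
  rw [TwO_S_eq N x _ π, TwO_mu0 N x (π + 1) _ (fun s => by rw [TwO_F_other, mul_zero, mul_zero]),
    add_zero, ← Pool.Agent.Lib.MP_06b9d2_tls.muM_mul]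
  congr 1
  funext s
  rw [TwO_F_same]

private theorem TwO_W {W : FF → FF} (hW : An O W) (π : ℕ) (f : ℤ → ℂ) (s : ℤ) :
    W (TwO_F π f) ((π : ℕ) : ZMod 2) s = 0 := by
  have h1 : SG (TwO_F π f) = fun ρ s => sg ((π : ℕ) : ZMod 2) * TwO_F π f ρ s := by
    funext ρ s
    unfold SG TwO_F
    by_cases h : ρ = ((π : ℕ) : ZMod 2)
    · rw [h]
    · rw [if_neg h, mul_zero, mul_zero]
  have h2 := hW.anti (TwO_F π f)
  rw [h1, hW.smul] at h2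
  have h3 := congrFun (congrFun h2 ((π : ℕ) : ZMod 2)) s
  have h4 : sg ((π : ℕ) : ZMod 2) * W (TwO_F π f) ((π : ℕ) : ZMod 2) s = 0 := by
    have h5 : sg ((π : ℕ) : ZMod 2) * W (TwO_F π f) ((π : ℕ) : ZMod 2) s =
      -(sg ((π : ℕ) : ZMod 2) * W (TwO_F π f) ((π : ℕ) : ZMod 2) s) := h3
    linear_combination h5 / 2
  exact (mul_eq_zero.1 h4).resolve_left (sg_ne _)

private theorem TwO_sgj (j : ℕ) (h2 : j % 2 = 1) (π : ℕ) : sg ((π : ℕ) : ZMod 2) ^ j = (-1) ^ π := by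
  obtain ⟨k, rfl⟩ : ∃ k, j = 2 * k + 1 := ⟨j / 2, by omega⟩
  have h := sg_sq ((π : ℕ) : ZMod 2)
  rw [pow_succ, pow_mul, pow_two, h, one_pow, one_mul, sg_nat]

private theorem TwO_cg {M : Mt N} {c : ℂ} (hc : c ≠ 0) {j : ℕ} (h2 : j % 2 = 1) (h : ClT O M c j)
    {lam : ℂ} {x : ℕ → ℂ} (hx : EgG (ex M) N lam x) (hn : NmM O 2 N x) :
    CgM O N x (lam / c) 1 (-(j : ℂ)) := by
  obtain ⟨W, hW, hF⟩ := h
  intro π f hf
  obtain ⟨G, hG, hGe⟩ := hF (TwO_F π f) (TwO_F_pd hf π)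
  refine ⟨W (TwO_F π f) ((π + 1 : ℕ) : ZMod 2), TwO_S N x G, hW.po _ (TwO_F_pd hf π) _,
    TwO_mem hn hG, ?_⟩
  have h1 := TwO_eig M hx j (TwO_F π f)
  rw [TwO_SF] at h1
  have h3 : ∑ s : Fin (N + 1), x s * actD M j (TwO_F π f) ((s : ℕ) : ZMod 2) s =
      c * (TwO_S N x (fun ρ s => sg ρ ^ j * ((1 - 9 * j * qf N s) * TwO_F π f ρ s)) +
        9 * TwO_S N x (W (TwO_F π f)) + 27 * TwO_S N x G) := by
    unfold TwO_S
    rw [Finset.mul_sum, Finset.mul_sum, ← Finset.sum_add_distrib, ← Finset.sum_add_distrib,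
      Finset.mul_sum]
    refine Finset.sum_congr rfl fun s _ => ?_
    rw [hGe, if_pos h2]
    ring
  rw [h1, TwO_SgF, TwO_sgj j h2, TwO_S_eq N x (W (TwO_F π f)) π,
    TwO_mu0 N x π _ (TwO_W hW π f), zero_add] at h3
  have h4 : muM 2 N x π (fun s => (1 - 9 * j * qf N s) * f s) =
      muM 2 N x π (fun s => (1 + 9 * (-(j : ℂ)) * ((s : ℂ) ^ 2 - (N : ℂ) * (s : ℂ))) * f s) := by
    congr 1
    funext s
    unfold qf
    ring
  rw [h4] at h3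
  rw [div_mul_eq_mul_div, h3, mul_div_cancel_left₀ _ hc]

theorem two_T_odd (h3 : O.valuation 3 < 1) (M : Mt N) (c : ℂ) (hc : c ≠ 0) (j : ℕ) (hj : j % 3 ≠ 0)
    (h2 : j % 2 = 1) (h : ClT O M c j) : Two (ex M) N := by
  intro lam
  have hv : O.valuation (-(j : ℂ)) = 1 := by
    rw [Valuation.map_neg]
    have h5 := Pool.Agent.Lib.MP_06b9d2_ssp.val_int h3 (j : ℤ) (by omega)
    simpa using h5
  obtain ⟨π, hπ⟩ := Pool.Agent.Lib.MP_06b9d2_tls.finM h3 N (lam / c) 1 (-(j : ℂ)) (map_one _) hv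
  exact Pool.Agent.Lib.MP_06b9d2_tls.twoKey 2 (by norm_num) N lam π π _ _
    fun y hy hE h1 h2' => hπ y hy (TwO_cg hc h2 h hE hy) h1 h2'

private theorem TwO_cg1 {M : Mt N} {c : ℂ} (hc : c ≠ 0) (h : ClV O M c 1)
    {lam : ℂ} {x : ℕ → ℂ} (hx : EgG (ex M) N lam x) (hn : NmM O 2 N x) :
    CgM1 O N x (3 * lam / c) 1 := by
  intro π f hf
  obtain ⟨G, hG, hGe⟩ := h (TwO_F π f) (TwO_F_pd hf π)
  refine ⟨TwO_S N x G, TwO_mem hn hG, ?_⟩
  have h1 := TwO_eig M hx 1 (TwO_F π f)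
  rw [TwO_SF] at h1
  have h3 : ∑ s : Fin (N + 1), x s * actD M 1 (TwO_F π f) ((s : ℕ) : ZMod 2) s =
      c * (TwO_S N x (fun ρ s => sg ρ ^ 1 * ((2 * (s : ℂ) - N) ^ 1 * TwO_F π f ρ s)) +
        3 * TwO_S N x G) := by
    unfold TwO_S
    rw [Finset.mul_sum, ← Finset.sum_add_distrib, Finset.mul_sum]
    refine Finset.sum_congr rfl fun s _ => ?_
    rw [hGe]
    ring
  rw [h1, TwO_SgF N x π f (fun ρ => sg ρ ^ 1) (fun s => (2 * (s : ℂ) - N) ^ 1),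
    TwO_sgj 1 (by norm_num)] at h3
  have h4 : muM 2 N x π (fun s => 3 * 1 * (2 * (s : ℂ) - (N : ℂ)) * f s) =
      3 * muM 2 N x π (fun s => (2 * (s : ℂ) - N) ^ 1 * f s) := by
    rw [← Pool.Agent.Lib.MP_06b9d2_tls.muM_mul]
    congr 1
    funext s
    ring
  rw [h4, div_mul_eq_mul_div, mul_assoc, h3, div_eq_iff hc]
  ring

theorem two_V_one (h3 : O.valuation 3 < 1) (M : Mt N) (c : ℂ) (hc : c ≠ 0) (h : ClV O M c 1) :
    Two (ex M) N := by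
  intro lam
  exact Pool.Agent.Lib.MP_06b9d2_tls.twoKey 2 (by norm_num) N lam 0 1 _ _
    fun y hy hE h1 h2 => Pool.Agent.Lib.MP_06b9d2_tls.finM1 h3 N (3 * lam / c) 1 (map_one _) y hy
      (TwO_cg1 hc h hE hy) h1 h2

end Pool.Agent.Lib.MP_06b9d2_tlm
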