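import Pool.Agent.Lib.MP_06b9d2_tlm.TwD
import Pool.Agent.Lib.MP_06b9d2_tlm.TwO

/-!
Module TLM-TwA. Eigenspaces of dimension at most two: all cases.

`two_T`: `j` odd: `two_T_odd`; `j` even: `actD M j = actD M 0` (`actD_two`, induction on `j / 2`), `sg π ^ j = 1`, `two_dbl` with `d = c`, `w = -9 j c`: `27 c G = w (3 (-1 / j) G)`, `1 / j` in `O` as `3 ∤ j`.
`two_V`: `j = 1`: `two_V_one`; `j = 2`: `(2 s - N) ^ 2 = 4 q + N ^ 2`, `two_dbl` with `d = c N ^ 2`, `w = 4 c`: `3 c G = w (3 (1 / 4) G)`. `two_3`: unfold `Cl3`.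
-/

namespace Pool.Agent.Lib.MP_06b9d2_tlm

open PowerSeries Pool.Agent.L1
open Pool.Agent.Lib.MP_06b9d2_ssp (PO Lv mo)
open Pool.Agent.Lib.MP_06b9d2_tls (Two Tl MG dmG)
open Pool.Agent.Lib.MP_06b9d2_tln (TN Mt ex Rp Sy act lu)

variable {O : ValuationSubring ℂ} {N : ℕ}

private theorem twA_inv (h3 : O.valuation 3 < 1) (a : ℤ) (j : ℕ) (hj : j % 3 ≠ 0) :
    O.valuation ((a : ℂ) / ((j : ℤ) : ℂ)) ≤ 1 :=
  Pool.Agent.Lib.MP_06b9d2_ssp.val_rat h3 a j (by omega)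

private theorem twA_even (M : Mt N) (j : ℕ) (F : FF) (π : ZMod 2) (s : Fin (N + 1)) :
    actD M (2 * j) F π s = actD M 0 F π s := by
  induction j with
  | zero => rfl
  | succ j ih => rw [Nat.mul_succ, actD_two, ih]

private theorem twA_sg (π : ZMod 2) (j : ℕ) : sg π ^ (2 * j) = 1 := by
  rw [pow_mul, pow_two, sg_sq, one_pow]

theorem two_T (h3 : O.valuation 3 < 1) (M : Mt N) (c : ℂ) (hc : c ≠ 0) (j : ℕ) (hj : j % 3 ≠ 0)
    (h : ClT O M c j) : Two (ex M) N := by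
  by_cases h2 : j % 2 = 1
  · exact two_T_odd h3 M c hc j hj h2 h
  obtain ⟨i, rfl⟩ : ∃ i, j = 2 * i := ⟨j / 2, by omega⟩
  have hj0 : ((2 * i : ℕ) : ℂ) ≠ 0 := by
    have : 2 * i ≠ 0 := by rintro h0; rw [h0] at hj; exact hj rfl
    exact_mod_cast this
  obtain ⟨W, _, hW⟩ := h
  refine two_dbl h3 M c (-9 * ((2 * i : ℕ) : ℂ) * c) ?_ ?_
  · exact mul_ne_zero (mul_ne_zero (by norm_num) hj0) hc
  intro F hF
  obtain ⟨G, hG, hFG⟩ := hW F hF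
  refine ⟨fun π s => (((-1 : ℤ) : ℂ) / (((2 * i : ℕ) : ℤ) : ℂ)) * G π s, pd_smul _ (twA_inv h3 (-1) (2 * i) hj) hG, ?_⟩
  intro π s
  rw [← twA_even M i F π s, hFG π s, twA_sg, if_neg h2]
  have e1 : (((2 * i : ℕ) : ℤ) : ℂ) = ((2 * i : ℕ) : ℂ) := by push_cast; rfl
  rw [e1]
  field_simp
  push_cast
  ring

theorem two_V (h3 : O.valuation 3 < 1) (M : Mt N) (c : ℂ) (hc : c ≠ 0) (j : ℕ) (hj : j = 1 ∨ j = 2)
    (h : ClV O M c j) : Two (ex M) N := by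
  rcases hj with rfl | rfl
  · exact two_V_one h3 M c hc h
  refine two_dbl h3 M (c * (N : ℂ) ^ 2) (4 * c) (mul_ne_zero (by norm_num) hc) ?_
  intro F hF
  obtain ⟨G, hG, hFG⟩ := h F hF
  refine ⟨fun π s => (((1 : ℤ) : ℂ) / (((4 : ℕ) : ℤ) : ℂ)) * G π s, pd_smul _ (twA_inv h3 1 4 (by norm_num)) hG, ?_⟩
  intro π s
  have e2 := twA_even M 1 F π s
  rw [Nat.mul_one] at e2
  rw [← e2, hFG π s]
  have e3 := twA_sg π 1
  rw [Nat.mul_one] at e3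
  rw [e3]
  unfold qf
  push_cast
  ring

theorem two_3 (h3 : O.valuation 3 < 1) (e : ℕ) (M : Mt N) (c : ℂ) (hc : c ≠ 0) (j : ℕ)
    (hj : j = 1 ∨ j = 2 ∨ (e ≠ 1 ∧ j % 3 ≠ 0)) (h : Cl3 O e M c j) : Two (ex M) N := by
  unfold Cl3 at h
  split_ifs at h with he
  · refine two_V h3 M c hc j ?_ h
    rcases hj with h1 | h1 | h1
    · exact Or.inl h1
    · exact Or.inr h1
    · exact absurd he h1.1
  · refine two_T h3 M c hc j ?_ h
    rcases hj with h1 | h1 | h1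
    · rw [h1]; norm_num
    · rw [h1]; norm_num
    · exact h1.2

end Pool.Agent.Lib.MP_06b9d2_tlm
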