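import Pool.Agent.Lib.MP_06b9d2_tlm.PP3
import Pool.Agent.Lib.MP_06b9d2_tlm.As3
import Pool.Agent.Lib.MP_06b9d2_tlm.TwA
import Pool.Agent.Lib.MP_06b9d2_tlm.PrF
import Pool.Agent.Lib.MP_06b9d2_tlm.Ker3
import Pool.Agent.Lib.MP_06b9d2_tls.CoreS

/-!
Module TLM-Fin3. The theorem for `n` prime to `3`.

`pg_all`: `core_ex`, `qd_ex` (`Qd.lean`), `exists_O` (`MP_06b9d2_ssp/POa.lean`), `matD_ex` (`Mat2.lean`); `a = map a`, `c = map c`, `lv3'`; `k = 3 N + e` is even; `ind` (`MP_06b9d2_ssp`): `fun x hx => ind h e N x hx` (as in `ker_le`).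
For a prime `p ≠ 3`: `PL p 1 om` if `p % 3 = 1`, `PL p (-1) (om ^ 2)` if `p % 3 = 2`. `p % 3 = 1`: `pp_one` (`rp3`, `sy3`, `pr_one`); `p % 3 = 2`, `v` even: `pp_even` (`pr_two`); `p % 3 = 2`, `v` odd: `p % 27 ≠ 26` (`h26`): `pp_odd` (`pr_two`, `pr_cl`). `pg3_n` with `P p := p % 3 = 2 ∧ n.factorization p % 2 = 1`; the cardinality of the filter is `nu2 n`.
`hyp3`: `two_3` with `j = nu2 n`. `ker_three_k`: `two_3` with `e = k % 3 ≠ 1`, `ker_k3`.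
-/

namespace Pool.Agent.Lib.MP_06b9d2_tlm

open PowerSeries Pool.Agent.L1 UpperHalfPlane Pool.Agent.Lib.MP_06b9d2_nt
open Pool.Agent.Lib.MP_06b9d2_ssp (PO Lv mo)
open Pool.Agent.Lib.MP_06b9d2_tls (Two Tl MG dmG KerOne)
open Pool.Agent.Lib.MP_06b9d2_tln (TN Mt ex Rp Sy act lu)
open scoped MatrixGroups ModularForm

theorem pg_all (n : ℕ) (hn : n ≠ 0) (h3 : n % 3 ≠ 0)
    (h26 : ∀ p ∈ n.primeFactors, p % 27 = 26 → n.factorization p % 2 = 0) :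
    ∃ (O : ValuationSubring ℂ) (a c : ℂ⟦X⟧), O.valuation 3 < 1 ∧ Lv a c ∧
      ∀ e N : ℕ, e ≤ 2 → Even (N + e) → PG3 O N e (3 * N + e) (mo a c e N) n (nu2 n) := by
  obtain ⟨A, Y, h⟩ := Pool.Agent.Lib.MP_06b9d2_tls.core_ex
  obtain ⟨a, k, c, q⟩ := Pool.Agent.Lib.MP_06b9d2_tls.qd_ex h
  obtain ⟨O, hO⟩ := Pool.Agent.Lib.MP_06b9d2_ssp.exists_O
  have hLv := lv3' h q
  refine ⟨O, PowerSeries.map (Int.castRingHom ℂ) a, PowerSeries.map (Int.castRingHom ℂ) c, hO, hLv, ?_⟩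
  intro e N he hN
  have hk : (3 * N + e) % 2 = 0 := by
    obtain ⟨t, ht⟩ := hN
    omega
  unfold nu2
  refine pg3_n hO (fun x hx => Pool.Agent.Lib.MP_06b9d2_ssp.ind hLv e N x hx)
    (fun p => p % 3 = 2 ∧ n.factorization p % 2 = 1) n hn ?_
  intro p hp
  have hpp := Nat.prime_of_mem_primeFactors hp
  have hpd := Nat.dvd_of_mem_primeFactors hp
  have hp3 : p % 3 ≠ 0 := by
    intro h0
    have h4 : 3 ∣ p := Nat.dvd_of_mod_eq_zero h0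
    exact h3 (Nat.mod_eq_zero_of_dvd (h4.trans hpd))
  rcases (by omega : p % 3 = 1 ∨ p % 3 = 2) with h1 | h2
  · rw [if_neg (by omega)]
    have hPL : Pool.Agent.Lib.MP_06b9d2_tls.PL p 1 Pool.Agent.Lib.MP_06b9d2_tls.om :=
      ⟨hpp, Or.inl ⟨h1, rfl, rfl⟩⟩
    obtain ⟨M, hM⟩ := Pool.Agent.Lib.MP_06b9d2_tls.matD_ex h hPL
    exact pp_one hO e p (3 * N + e) hpp h1 ⟨mt3 p e M N, rp3 h q hPL hM e N he hN,
      sy3 hPL hM e N he hN, pr_one h hO hPL hM e N he hN⟩ _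
  · have hPL : Pool.Agent.Lib.MP_06b9d2_tls.PL p (-1) (Pool.Agent.Lib.MP_06b9d2_tls.om ^ 2) :=
      ⟨hpp, Or.inr ⟨h2, rfl, rfl⟩⟩
    obtain ⟨M, hM⟩ := Pool.Agent.Lib.MP_06b9d2_tls.matD_ex h hPL
    have hrp := rp3 h q hPL hM e N he hN
    have hsy := sy3 hPL hM e N he hN
    have hsq := pr_two h hO hPL hM e N he hN
    rcases Nat.mod_two_eq_zero_or_one (n.factorization p) with hv | hv
    · rw [if_neg (by omega)]
      obtain ⟨i, hi⟩ : ∃ i, n.factorization p = 2 * i := ⟨n.factorization p / 2, by omega⟩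
      rw [hi]
      exact pp_even hO e p _ hpp h2 hk ⟨_, hrp, hsy, hsq⟩ i
    · rw [if_pos ⟨h2, hv⟩]
      obtain ⟨i, hi⟩ : ∃ i, n.factorization p = 2 * i + 1 := ⟨n.factorization p / 2, by omega⟩
      rw [hi]
      have h26' : p % 27 ≠ 26 := fun hh => by
        have := h26 p hp hh
        omega
      obtain ⟨d, hd, hcl⟩ := pr_cl h hO hPL h26' hM e N he hN
      exact pp_odd hO e p _ hpp h2 hk ⟨_, d, hrp, hsy, hsq, hd, hcl⟩ i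

theorem hyp3 (n : ℕ) (hn : n ≠ 0) (h3 : n % 3 ≠ 0) (hj : nu2 n = 1 ∨ nu2 n = 2)
    (h26 : ∀ p ∈ n.primeFactors, p % 27 = 26 → n.factorization p % 2 = 0) : HypN3 n := by
  obtain ⟨O, a, c, hO, hLv, H⟩ := pg_all n hn h3 h26
  refine ⟨a, c, hLv, fun e N he hN => ?_⟩
  obtain ⟨M, c', hR, hS, hc, hcl⟩ := H e N he hN
  exact ⟨M, hR, hS, two_3 hO e M c' hc (nu2 n) (hj.elim Or.inl fun h => Or.inr (Or.inl h)) hcl⟩

/-- `3 ∤ n`, exactly one or two primes `p ≡ 2` modulo `3` divide `n` to an odd power, none of them `≡ 26` modulo `27` -/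
theorem kerOne_three (n : ℕ) (hn : n ≠ 0) (h3 : n % 3 ≠ 0) (hj : nu2 n = 1 ∨ nu2 n = 2)
    (h26 : ∀ p ∈ n.primeFactors, p % 27 = 26 → n.factorization p % 2 = 0) : KerOne n :=
  kerOne_of_hypN3 hn (hyp3 n hn h3 hj h26)

/-- the weights `k ≡ 0, 2` modulo `3` -/
theorem ker_three_k (n : ℕ) (hn : n ≠ 0) (h3 : n % 3 ≠ 0) (hj : nu2 n % 3 ≠ 0)
    (h26 : ∀ p ∈ n.primeFactors, p % 27 = 26 → n.factorization p % 2 = 0) (k : ℕ) (hk : Even k)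
    (hk3 : k % 3 ≠ 1) (T : CuspForm 𝒮ℒ (k : ℤ) →ₗ[ℂ] CuspForm 𝒮ℒ (k : ℤ)) (hT : IsHecke (k : ℤ) n T) (lam : ℂ) :
    Module.finrank ℂ (LinearMap.ker (T - lam • LinearMap.id)) ≤ 1 := by
  obtain ⟨O, a, c, hO, hLv, H⟩ := pg_all n hn h3 h26
  have hE : Even (k / 3 + k % 3) := by
    obtain ⟨t, ht⟩ := hk
    rw [Nat.even_iff]
    omega
  obtain ⟨M, c', hR, hS, hc, hcl⟩ := H (k % 3) (k / 3) (by omega) hE
  have h2 := two_3 hO (k % 3) M c' hc (nu2 n) (Or.inr (Or.inr ⟨hk3, hj⟩)) hcl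
  have hk' : 3 * (k / 3) + k % 3 = k := by omega
  rw [hk'] at hR
  exact ker_k3 hn hLv k (k / 3) (k % 3) (by omega) (by omega) M hR hS h2 T hT lam

end Pool.Agent.Lib.MP_06b9d2_tlm
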