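import Pool.Agent.Lib.MP_06b9d2_tlm.Rpb

/-!
Module TLM-CTa. The operators `c + δ (..)` (`ErD`). (The same as `Er` in `MP_06b9d2_tln/ClA.lean`.)

`erd_one`: `G = 0`. `erd_mono`: `δ₁ = δ (δ₁ / δ)`; if `δ = 0` then `δ₁ = 0`. `erd_mul`: `F₁ = c₁ sg ^ j₁ F + δ₁ G₁` is `actD M₁ j₁ F` on `0, …, N`; `actD_mul`, `actD_addF`, `actD_smulF` (`sg π ^ j₁ * F` is the function `fun π s => sg π ^ j₁ * F π s`, in `PD O` by `pd_sgp`): `actD M₂ j₂ F₁ = c₁ (c₂ sg ^ (j₁ + j₂) F + δ₂ G₂) + δ₁ (c₂ sg ^ j₂ G₁ + δ₂ G₃)`,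
and `δ₁ c₂`, `c₁ δ₂`, `δ₁ δ₂` are `δ` times elements of `O` (if `δ = 0` they are `0`). `erd_two`: `actD_two`, `sg π ^ 2 = 1`. `erd_clT`: `W = 0`, `j = 0`. `erd_clV`: `j = 0`, `27 = 3 * 9`.
-/

namespace Pool.Agent.Lib.MP_06b9d2_tlm

open PowerSeries Pool.Agent.L1
open Pool.Agent.Lib.MP_06b9d2_ssp (PO Lv mo)
open Pool.Agent.Lib.MP_06b9d2_tls (Two Tl MG dmG)
open Pool.Agent.Lib.MP_06b9d2_tln (TN Mt ex Rp Sy act lu)

variable {O : ValuationSubring ℂ} {N j j₁ j₂ : ℕ} {M M₁ M₂ : Mt N} {c c₁ c₂ δ δ₁ δ₂ : ℂ}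

private theorem CTa_div {x y : ℂ} (h : O.valuation x ≤ O.valuation y) :
    ∃ z : ℂ, O.valuation z ≤ 1 ∧ x = y * z := by
  by_cases hy : y = 0
  · refine ⟨0, by rw [map_zero]; exact zero_le_one, ?_⟩
    rw [hy, map_zero] at h
    have h1 : O.valuation x = 0 := le_antisymm h zero_le
    rw [hy, zero_mul]
    exact (map_eq_zero O.valuation).1 h1
  · refine ⟨x / y, ?_, by field_simp⟩
    rw [map_div₀]
    exact div_le_one_of_le₀ h zero_le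

private theorem CTa_lin (M : Mt N) (j : ℕ) (F G : FF) (x y : ℂ) (π : ZMod 2) (s : Fin (N + 1)) :
    actD M j (fun π s => x * F π s + y * G π s) π s = x * actD M j F π s + y * actD M j G π s := by
  rw [actD_addF M j (fun π s => x * F π s) (fun π s => y * G π s), actD_smulF, actD_smulF]

theorem erd_one : ErD O (1 : Mt N) 0 1 δ := by
  intro F _
  refine ⟨fun _ _ => 0, pd_zero O, fun π s => ?_⟩
  rw [actD_one]
  ring

theorem erd_mono (h : ErD O M j c δ₁) (hδ : O.valuation δ₁ ≤ O.valuation δ) : ErD O M j c δ := by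
  obtain ⟨z, hz, hz'⟩ := CTa_div hδ
  intro F hF
  obtain ⟨G, hG, h1⟩ := h F hF
  refine ⟨fun π s => z * G π s, pd_smul z hz hG, fun π s => ?_⟩
  rw [h1 π s, hz']
  ring

theorem erd_add (h₁ : ErD O M₁ j c₁ δ) (h₂ : ErD O M₂ j c₂ δ) : ErD O (M₁ + M₂) j (c₁ + c₂) δ := by
  intro F hF
  obtain ⟨G₁, hG₁, e₁⟩ := h₁ F hF
  obtain ⟨G₂, hG₂, e₂⟩ := h₂ F hF
  refine ⟨fun π s => G₁ π s + G₂ π s, pd_add hG₁ hG₂, fun π s => ?_⟩
  rw [actD_add, e₁ π s, e₂ π s]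
  ring

theorem erd_smul (z : ℂ) (h : ErD O M j c δ) : ErD O (z • M) j (z * c) (z * δ) := by
  intro F hF
  obtain ⟨G, hG, e⟩ := h F hF
  refine ⟨G, hG, fun π s => ?_⟩
  rw [actD_smul, e π s]
  ring

theorem erd_mul (h₁ : ErD O M₁ j₁ c₁ δ₁) (h₂ : ErD O M₂ j₂ c₂ δ₂) (ha : O.valuation (δ₁ * c₂) ≤ O.valuation δ)
    (hb : O.valuation (c₁ * δ₂) ≤ O.valuation δ) (hc : O.valuation (δ₁ * δ₂) ≤ O.valuation δ) :
    ErD O (M₁ * M₂) (j₁ + j₂) (c₁ * c₂) δ := by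
  obtain ⟨za, hza, ea⟩ := CTa_div ha
  obtain ⟨zb, hzb, eb⟩ := CTa_div hb
  obtain ⟨zc, hzc, ec⟩ := CTa_div hc
  intro F hF
  obtain ⟨G₁, hG₁, e₁⟩ := h₁ F hF
  obtain ⟨G₂, hG₂, e₂⟩ := h₂ (fun π s => sg π ^ j₁ * F π s) (pd_sgp j₁ hF)
  obtain ⟨G₃, hG₃, e₃⟩ := h₂ G₁ hG₁
  refine ⟨fun π s => za * (sg π ^ j₂ * G₁ π s) + zb * G₂ π s + zc * G₃ π s,
    pd_add (pd_add (pd_smul za hza (pd_sgp j₂ hG₁)) (pd_smul zb hzb hG₂)) (pd_smul zc hzc hG₃),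
    fun π s => ?_⟩
  rw [actD_mul M₁ M₂ j₁ j₂ F (fun π s => c₁ * (sg π ^ j₁ * F π s) + δ₁ * G₁ π s) e₁ π s,
    CTa_lin M₂ j₂ (fun π s => sg π ^ j₁ * F π s) G₁, e₂ π s, e₃ π s]
  rw [pow_add]
  linear_combination (sg π ^ j₂ * G₁ π ((s : ℕ) : ℤ)) * ea + (G₂ π ((s : ℕ) : ℤ)) * eb +
    (G₃ π ((s : ℕ) : ℤ)) * ec

theorem erd_two (h : ErD O M (j + 2) c δ) : ErD O M j c δ := by
  intro F hF
  obtain ⟨G, hG, e⟩ := h F hF
  refine ⟨G, hG, fun π s => ?_⟩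
  have h1 : sg π ^ (j + 2) = sg π ^ j := by
    rw [pow_add, pow_two, sg_sq, mul_one]
  rw [← actD_two, e π s, h1]

theorem erd_clT (h : ErD O M 0 c (27 * c)) : ClT O M c 0 := by
  refine ⟨fun _ _ _ => 0, ⟨fun F _ => pd_zero O, fun F G => ?_, fun z F => ?_, fun F => ?_⟩,
    fun F hF => ?_⟩
  · funext π s
    simp
  · funext π s
    simp
  · funext π s
    simp
  · obtain ⟨G, hG, e⟩ := h F hF
    refine ⟨G, hG, fun π s => ?_⟩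
    rw [e π s]
    have h0 : ¬ ((0 : ℕ) % 2 = 1) := by decide
    rw [if_neg h0]
    push_cast
    ring

theorem erd_clV (h3 : O.valuation 3 < 1) (h : ErD O M 0 c (27 * c)) : ClV O M c 0 := by
  intro F hF
  obtain ⟨G, hG, e⟩ := h F hF
  refine ⟨fun π s => 9 * G π s, pd_smul 9 ?_ hG, fun π s => ?_⟩
  · have h9 : (9 : ℂ) = 3 * 3 := by norm_num
    rw [h9, map_mul]
    exact mul_le_one' h3.le h3.le
  · rw [e π s]
    ring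

end Pool.Agent.Lib.MP_06b9d2_tlm
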