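import Pool.Agent.Lib.MP_06b9d2_tlm.Rpb

/-!
Module TLM-CTb. Products in the class `ClT`.

Write `σ` for the multiplication by `sg`, `q` for that by `qf N`. For `F` in `PD O`: `actD M₁ j₁ F = c₁ F₁` on `0, …, N`, `F₁ = σ ^ j₁ (1 - 9 j₁ q) F + [j₁ odd] 9 W₁ F + 27 G₁` in `PD O` (`pd_*`); `actD (M₁ M₂) (j₁ + j₂) F = c₁ actD M₂ j₂ F₁` (`actD_mul` with `c₁ F₁`, `actD_smulF`) and
`actD M₂ j₂ F₁ = c₂ (σ ^ j₂ (1 - 9 j₂ q) F₁ + [j₂ odd] 9 W₂ F₁ + 27 G₂)`. All products `9 * 9` are in `27 O`. By the linearity of `W₂` (`An.add`, `An.smul`) `9 W₂ F₁ = 9 W₂ (σ ^ j₁ F) + 27 (..)`, and `W₂ (σ ^ j₁ F) = (-1) ^ j₁ σ ^ j₁ W₂ F` (`An.anti`; for even `j₁`: `σ ^ j₁ F = F`).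
both even: clear, `W = 0` (any `An O W`, e.g. `W = 0`). `j₁` even, `j₂` odd: `W = W₂`. `j₁` odd, `j₂` even: `W = W₁`. Both odd: `actD (M₁ M₂) (j₁ + j₂) F = c₁ c₂ ((1 - 9 (j₁ + j₂) q) F + 9 (σ W₁ F - σ W₂ F) + 27 G)`; exchange of the roles: `actD (M₂ M₁) (j₂ + j₁) F = c₂ c₁ ((1 - 9 (j₁ + j₂) q) F + 9 (σ W₂ F - σ W₁ F) + 27 G')`.
The left sides are equal by `hc`; so `18 (σ W₁ F - σ W₂ F) = 27 (G' - G)` at the points `(π, s)`, `s ≤ N`, and `9 (σ W₁ F - σ W₂ F) + 27 G = 27 (G' + G) / 2`, `1 / 2` in `O` (`v 2 = 1`: `val_int h3 2`). Even sum, no `W` term.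
-/

namespace Pool.Agent.Lib.MP_06b9d2_tlm

open PowerSeries Pool.Agent.L1
open Pool.Agent.Lib.MP_06b9d2_ssp (PO Lv mo)
open Pool.Agent.Lib.MP_06b9d2_tls (Two Tl MG dmG)
open Pool.Agent.Lib.MP_06b9d2_tln (TN Mt ex Rp Sy act lu)

variable {O : ValuationSubring ℂ} {N j₁ j₂ : ℕ} {M₁ M₂ : Mt N} {c₁ c₂ : ℂ}

private theorem CTb_nat (O : ValuationSubring ℂ) (n : ℕ) : O.valuation ((n : ℕ) : ℂ) ≤ 1 :=
  (ValuationSubring.valuation_le_one_iff O _).2 (natCast_mem O n)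

private theorem CTb_neg (O : ValuationSubring ℂ) (n : ℕ) : O.valuation (-((n : ℕ) : ℂ)) ≤ 1 := by
  rw [Valuation.map_neg]
  exact CTb_nat O n

private theorem CTb_even {j : ℕ} (hj : j % 2 = 0) (π : ZMod 2) : sg π ^ j = 1 := by
  obtain ⟨m, rfl⟩ : ∃ m, j = 2 * m := ⟨j / 2, by omega⟩
  rw [pow_mul, pow_two, sg_sq, one_pow]

private theorem CTb_odd {j : ℕ} (hj : j % 2 = 1) (π : ZMod 2) : sg π ^ j = sg π := by
  obtain ⟨m, rfl⟩ : ∃ m, j = 2 * m + 1 := ⟨j / 2, by omega⟩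
  rw [pow_succ, pow_mul, pow_two, sg_sq, one_pow, one_mul]

/-- the class with a given operator -/
private def CTb_cl (O : ValuationSubring ℂ) {N : ℕ} (W : FF → FF) (M : Mt N) (c : ℂ) (j : ℕ) : Prop :=
  ∀ F : FF, PD O F → ∃ G : FF, PD O G ∧
    ∀ (π : ZMod 2) (s : Fin (N + 1)), actD M j F π s =
      c * (sg π ^ j * ((1 - 9 * j * qf N ((s : ℕ) : ℤ)) * F π ((s : ℕ) : ℤ)) +
        (if j % 2 = 1 then 9 * W F π ((s : ℕ) : ℤ) else 0) + 27 * G π ((s : ℕ) : ℤ))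

private theorem CTb_key {W₁ W₂ : FF → FF} (a₁ : An O W₁) (a₂ : An O W₂)
    (k₁ : CTb_cl O W₁ M₁ c₁ j₁) (k₂ : CTb_cl O W₂ M₂ c₂ j₂) (F : FF) (hF : PD O F) :
    ∃ G : FF, PD O G ∧ ∀ (π : ZMod 2) (s : Fin (N + 1)), actD (M₁ * M₂) (j₁ + j₂) F π s =
      c₁ * c₂ * (sg π ^ (j₁ + j₂) *
          ((1 - 9 * ((j₁ : ℂ) + j₂) * qf N ((s : ℕ) : ℤ)) * F π ((s : ℕ) : ℤ)) +
        (if j₁ % 2 = 1 then 9 * (sg π ^ j₂ * W₁ F π ((s : ℕ) : ℤ)) else 0) +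
        (if j₂ % 2 = 1 then 9 * W₂ (fun π s => sg π ^ j₁ * F π s) π ((s : ℕ) : ℤ) else 0) +
        27 * G π ((s : ℕ) : ℤ)) := by
  obtain ⟨G₁, pG₁, e₁⟩ := k₁ F hF
  obtain ⟨A, hA⟩ : ∃ A : FF, A = fun π s => if j₁ % 2 = 1 then W₁ F π s else 0 := ⟨_, rfl⟩
  obtain ⟨S, hS⟩ : ∃ S : FF, S = fun π s => sg π ^ j₁ * F π s := ⟨_, rfl⟩
  obtain ⟨H, hH⟩ : ∃ H : FF, H = fun π s =>
      (-(j₁ : ℂ)) * (qf N s * S π s) + A π s + 3 * G₁ π s := ⟨_, rfl⟩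
  obtain ⟨F₁, hF₁⟩ : ∃ F₁ : FF, F₁ = fun π s => S π s + 9 * H π s := ⟨_, rfl⟩
  have pA : PD O A := by
    rw [hA]
    by_cases h : j₁ % 2 = 1
    · simp only [h, if_true]
      exact a₁.po F hF
    · simp only [h, if_false]
      exact pd_zero O
  have pS : PD O S := by
    rw [hS]
    exact pd_sgp j₁ hF
  have pH : PD O H := by
    rw [hH]
    exact pd_add (pd_add (pd_smul _ (CTb_neg O j₁) (pd_q pS)) pA)
      (pd_smul _ (by simp) pG₁)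
  have p9 : PD O (fun π s => 9 * H π s) := pd_smul _ (by simp) pH
  have pF₁ : PD O F₁ := by
    rw [hF₁]
    exact pd_add pS p9
  obtain ⟨G₂, pG₂, e₂⟩ := k₂ F₁ pF₁
  obtain ⟨B, hB⟩ : ∃ B : FF, B = fun π s => if j₂ % 2 = 1 then W₂ H π s else 0 := ⟨_, rfl⟩
  have pB : PD O B := by
    rw [hB]
    by_cases h : j₂ % 2 = 1
    · simp only [h, if_true]
      exact a₂.po H pH
    · simp only [h, if_false]
      exact pd_zero O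
  have e₁' : ∀ (π : ZMod 2) (i : Fin (N + 1)), actD M₁ j₁ F π i =
      (fun π s => c₁ * F₁ π s : FF) π ((i : ℕ) : ℤ) := by
    intro π i
    rw [e₁ π i]
    simp only [hF₁, hH, hA, hS]
    split_ifs <;> ring
  have hW : W₂ F₁ = fun π s => W₂ S π s + 9 * W₂ H π s := by
    rw [hF₁]
    have h1 := a₂.add S (fun π s => 9 * H π s)
    have h2 := a₂.smul 9 H
    rw [h1, h2]
  refine ⟨fun π s => (sg π ^ j₂ * G₁ π s) + (-((3 * j₂ : ℕ) : ℂ)) * (qf N s * (sg π ^ j₂ * H π s)) +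
    3 * B π s + G₂ π s, ?_, ?_⟩
  · exact pd_add (pd_add (pd_add (pd_sgp j₂ pG₁) (pd_smul _ (CTb_neg O _) (pd_q (pd_sgp j₂ pH))))
      (pd_smul _ (by simp) pB)) pG₂
  · intro π s
    rw [actD_mul M₁ M₂ j₁ j₂ F (fun π s => c₁ * F₁ π s) e₁' π s, actD_smulF, e₂ π s, hW]
    rw [← hS]
    have hFS : ∀ t : ℤ, sg π ^ (j₁ + j₂) * F π t = sg π ^ j₂ * S π t := by
      intro t
      rw [hS, pow_add]
      ring
    have h3 : sg π ^ (j₁ + j₂) * ((1 - 9 * ((j₁ : ℂ) + j₂) * qf N ((s : ℕ) : ℤ)) *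
        F π ((s : ℕ) : ℤ)) = (1 - 9 * ((j₁ : ℂ) + j₂) * qf N ((s : ℕ) : ℤ)) *
        (sg π ^ j₂ * S π ((s : ℕ) : ℤ)) := by
      rw [← hFS]
      ring
    rw [h3]
    have h4 : (if j₁ % 2 = 1 then 9 * (sg π ^ j₂ * W₁ F π ((s : ℕ) : ℤ)) else 0) =
        9 * (sg π ^ j₂ * A π ((s : ℕ) : ℤ)) := by
      rw [hA]
      dsimp only
      split_ifs <;> ring
    have h5 : (if j₂ % 2 = 1 then 9 * (W₂ S π ((s : ℕ) : ℤ) + 9 * W₂ H π ((s : ℕ) : ℤ)) else 0) =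
        (if j₂ % 2 = 1 then 9 * W₂ S π ((s : ℕ) : ℤ) else 0) + 81 * B π ((s : ℕ) : ℤ) := by
      rw [hB]
      dsimp only
      split_ifs <;> ring
    rw [h4, h5]
    have h6 : F₁ π ((s : ℕ) : ℤ) = S π ((s : ℕ) : ℤ) + 9 * H π ((s : ℕ) : ℤ) := by
      rw [hF₁]
    have h7 : H π ((s : ℕ) : ℤ) = (-(j₁ : ℂ)) * (qf N ((s : ℕ) : ℤ) * S π ((s : ℕ) : ℤ)) +
        A π ((s : ℕ) : ℤ) + 3 * G₁ π ((s : ℕ) : ℤ) := by
      rw [hH]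
    have h8 : A π ((s : ℕ) : ℤ) = H π ((s : ℕ) : ℤ) + j₁ * (qf N ((s : ℕ) : ℤ) *
        S π ((s : ℕ) : ℤ)) - 3 * G₁ π ((s : ℕ) : ℤ) := by
      rw [h7]
      ring
    rw [h6, h8]
    push_cast
    ring

theorem clT_mul (h3 : O.valuation 3 < 1) (hc : M₁ * M₂ = M₂ * M₁) (hc₁ : c₁ ≠ 0) (hc₂ : c₂ ≠ 0)
    (h₁ : ClT O M₁ c₁ j₁) (h₂ : ClT O M₂ c₂ j₂) : ClT O (M₁ * M₂) (c₁ * c₂) (j₁ + j₂) := by
  obtain ⟨W₁, a₁, k₁⟩ := h₁
  obtain ⟨W₂, a₂, k₂⟩ := h₂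
  have a0 : An O (fun _ _ _ => 0) := by
    refine ⟨fun F _ => pd_zero O, fun F G => ?_, fun z F => ?_, fun F => ?_⟩
    · funext π s
      simp
    · funext π s
      simp
    · funext π s
      simp
  rcases Nat.mod_two_eq_zero_or_one j₁ with p₁ | p₁ <;>
    rcases Nat.mod_two_eq_zero_or_one j₂ with p₂ | p₂
  · have q : ¬ (j₁ + j₂) % 2 = 1 := by omega
    refine ⟨_, a0, fun F hF => ?_⟩
    obtain ⟨G, pG, e⟩ := CTb_key a₁ a₂ k₁ k₂ F hF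
    refine ⟨G, pG, fun π s => ?_⟩
    rw [e π s, if_neg (by omega), if_neg (by omega), if_neg q]
    push_cast
    ring
  · have q : (j₁ + j₂) % 2 = 1 := by omega
    refine ⟨W₂, a₂, fun F hF => ?_⟩
    obtain ⟨G, pG, e⟩ := CTb_key a₁ a₂ k₁ k₂ F hF
    refine ⟨G, pG, fun π s => ?_⟩
    have hS : (fun π s => sg π ^ j₁ * F π s : FF) = F := by
      funext π s
      rw [CTb_even p₁, one_mul]
    rw [e π s, if_neg (by omega), if_pos p₂, if_pos q, hS]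
    push_cast
    ring
  · have q : (j₁ + j₂) % 2 = 1 := by omega
    refine ⟨W₁, a₁, fun F hF => ?_⟩
    obtain ⟨G, pG, e⟩ := CTb_key a₁ a₂ k₁ k₂ F hF
    refine ⟨G, pG, fun π s => ?_⟩
    rw [e π s, if_pos p₁, if_neg (by omega), if_pos q, CTb_even p₂]
    push_cast
    ring
  · have q : ¬ (j₁ + j₂) % 2 = 1 := by omega
    refine ⟨_, a0, fun F hF => ?_⟩
    obtain ⟨G, pG, e⟩ := CTb_key a₁ a₂ k₁ k₂ F hF
    obtain ⟨G', pG', e'⟩ := CTb_key a₂ a₁ k₂ k₁ F hF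
    have hv : O.valuation (1 / 2 : ℂ) ≤ 1 := by
      have h4 := Pool.Agent.Lib.MP_06b9d2_ssp.val_int h3 2 (by norm_num)
      push_cast at h4
      rw [one_div, map_inv₀, h4, inv_one]
    refine ⟨fun π s => 1 / 2 * (G π s + G' π s), pd_smul _ hv (pd_add pG pG'), fun π s => ?_⟩
    have hS₁ : (fun π s => sg π ^ j₁ * F π s : FF) = SG F := by
      funext π s
      rw [CTb_odd p₁]
      rfl
    have hS₂ : (fun π s => sg π ^ j₂ * F π s : FF) = SG F := by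
      funext π s
      rw [CTb_odd p₂]
      rfl
    have f := e π s
    have f' := e' π s
    rw [if_pos p₁, if_pos p₂, hS₁, a₂.anti, CTb_odd p₂] at f
    rw [if_pos p₂, if_pos p₁, hS₂, a₁.anti, CTb_odd p₁, ← hc, add_comm j₂ j₁] at f'
    have hcc : c₁ * c₂ ≠ 0 := mul_ne_zero hc₁ hc₂
    have g : c₁ * c₂ * (sg π ^ (j₁ + j₂) *
          ((1 - 9 * ((j₁ : ℂ) + j₂) * qf N ((s : ℕ) : ℤ)) * F π ((s : ℕ) : ℤ)) +
        9 * (sg π * W₁ F π ((s : ℕ) : ℤ)) + 9 * -(sg π * W₂ F π ((s : ℕ) : ℤ)) +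
        27 * G π ((s : ℕ) : ℤ)) = c₁ * c₂ * (sg π ^ (j₁ + j₂) *
          ((1 - 9 * ((j₁ : ℂ) + j₂) * qf N ((s : ℕ) : ℤ)) * F π ((s : ℕ) : ℤ)) +
        9 * (sg π * W₂ F π ((s : ℕ) : ℤ)) + 9 * -(sg π * W₁ F π ((s : ℕ) : ℤ)) +
        27 * G' π ((s : ℕ) : ℤ)) := by
      rw [← f, f']
      ring
    have g2 := mul_left_cancel₀ hcc g
    rw [if_neg q, f]
    push_cast
    linear_combination (c₁ * c₂ / 2) * g2

end Pool.Agent.Lib.MP_06b9d2_tlm
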