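import Pool.Agent.Lib.MP_06b9d2_tlm.CTa
import Pool.Agent.Lib.MP_06b9d2_tlm.CTb

/-!
Module TLM-CTc. Products in the classes `ClV`, `Cl3`.

`clV_mul`: `actD M₁ j₁ F = c₁ F₁`, `F₁ = σ ^ j₁ (2 s - N) ^ j₁ F + 3 G₁` in `PD O` (`pd_mul`, `po_v`), `actD M₂ j₂ F₁ = c₂ (σ ^ j₂ (2 s - N) ^ j₂ F₁ + 3 G₂)`. `cl3_mul`, `erd_cl3`: unfold `Cl3`, two cases.
-/

namespace Pool.Agent.Lib.MP_06b9d2_tlm

open PowerSeries Pool.Agent.L1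
open Pool.Agent.Lib.MP_06b9d2_ssp (PO Lv mo)
open Pool.Agent.Lib.MP_06b9d2_tls (Two Tl MG dmG)
open Pool.Agent.Lib.MP_06b9d2_tln (TN Mt ex Rp Sy act lu)

variable {O : ValuationSubring ℂ} {N j₁ j₂ : ℕ} {M M₁ M₂ : Mt N} {c c₁ c₂ : ℂ}

theorem clV_mul (h₁ : ClV O M₁ c₁ j₁) (h₂ : ClV O M₂ c₂ j₂) : ClV O (M₁ * M₂) (c₁ * c₂) (j₁ + j₂) := by
  intro F hF
  obtain ⟨G₁, hG₁, e₁⟩ := h₁ F hF
  have h3 : O.valuation (3 : ℂ) ≤ 1 := by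
    have h := natCast_mem O 3
    rw [O.valuation_le_one_iff]
    exact_mod_cast h
  set F₁ : FF := fun π s => sg π ^ j₁ * ((2 * (s : ℂ) - N) ^ j₁ * F π s) + 3 * G₁ π s with hF₁d
  have hF₁ : PD O F₁ :=
    pd_add (pd_sgp j₁ (pd_mul _ (po_v O N j₁) hF)) (pd_smul 3 h3 hG₁)
  obtain ⟨G₂, hG₂, e₂⟩ := h₂ F₁ hF₁
  refine ⟨fun π s => sg π ^ j₂ * ((2 * (s : ℂ) - N) ^ j₂ * G₁ π s) + G₂ π s,
    pd_add (pd_sgp j₂ (pd_mul _ (po_v O N j₂) hG₁)) hG₂, ?_⟩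
  intro π s
  rw [actD_mul M₁ M₂ j₁ j₂ F (fun π s => c₁ * F₁ π s) (fun π i => by rw [e₁ π i]) π s,
    actD_smulF, e₂ π s]
  simp only [hF₁d]
  ring

theorem cl3_mul (e : ℕ) (h3 : O.valuation 3 < 1) (hc : M₁ * M₂ = M₂ * M₁) (hc₁ : c₁ ≠ 0) (hc₂ : c₂ ≠ 0)
    (h₁ : Cl3 O e M₁ c₁ j₁) (h₂ : Cl3 O e M₂ c₂ j₂) : Cl3 O e (M₁ * M₂) (c₁ * c₂) (j₁ + j₂) := by
  unfold Cl3 at *
  by_cases he : e = 1
  · rw [if_pos he] at *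
    exact clV_mul h₁ h₂
  · rw [if_neg he] at *
    exact clT_mul h3 hc hc₁ hc₂ h₁ h₂

theorem erd_cl3 (e : ℕ) (h3 : O.valuation 3 < 1) (h : ErD O M 0 c (27 * c)) : Cl3 O e M c 0 := by
  unfold Cl3
  by_cases he : e = 1
  · rw [if_pos he]
    exact erd_clV h3 h
  · rw [if_neg he]
    exact erd_clT h

end Pool.Agent.Lib.MP_06b9d2_tlm
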