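import Pool.Agent.Lib.MP_06b9d2_tlm.Defs
import Pool.Agent.Lib.MP_06b9d2_tln.Luc

/-!
Module TLM-Lu3. Identities for the Lucas polynomials.

`lv_seq`: two step induction on `n` (for all `m`): `n = 0`: `a m = 2 a m - a m`; `n = 1`: `ha`; `n + 2`: `X (lv (n + 1) a (m + 1 + (n + 1))) - L (lv n a (m + 2 + n))` with the induction hypotheses at `m + 1` and `m + 2`:
`X (a (m + 2 n + 3) + L ^ (n + 1) a (m + 1)) - L (a (m + 2 n + 2) + L ^ n a (m + 2)) - L ^ (n + 2) a m = a (m + 2 n + 4)`.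
`lu_three`: the sequence `a 0 = 0`, `a (m + 1) = lu L m` satisfies the recursion (`lu L 1 = X * lu L 0 - L * 0`); `n = k + 1`: `a (2 n) = lv n a n` (`m = 0`), `a (3 n) = lv n a (2 n) - L ^ n a n` (`m = n`), `a (3 n) = lu L (3 k + 2)`, `a n = lu L k`.
`lu_even2`: two step induction on `i` with `lu_four` (`MP_06b9d2_tln/Luc.lean`): both sides satisfy `f (i + 2) = (X ^ 2 - 2 L) f (i + 1) - L ^ 2 f i` (`Polynomial.mul_comp`, `sub_comp`, `X_comp`, `C_comp`); `i = 0`: `lu L 2 = X ^ 2 - L`; `i = 1`: `lu L 4`.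
`lv_eval`: two step induction: `(1 + L) (1 + L ^ (n + 1)) - L (1 + L ^ n) = 1 + L ^ (n + 2)`. `sum_three`: `∑_{i < 3 n} L ^ i = (∑_{i < n} L ^ i) (1 + L ^ n + L ^ (2 n))` (`Finset.sum_range_add`... or induction / `Finset.sum_range_add`, `Finset.mul_sum`). `lu_sum_even`: values of `lu_even2` at `1 + L` (`lu_eval` of `Luc.lean`).
-/

namespace Pool.Agent.Lib.MP_06b9d2_tlm

open PowerSeries Pool.Agent.L1
open Pool.Agent.Lib.MP_06b9d2_tln (TN Mt ex Rp Sy act lu)

private theorem Lu3_lvz (L : ℂ) : lv L 0 = 2 := rfl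

private theorem Lu3_lvo (L : ℂ) : lv L 1 = Polynomial.X := rfl

private theorem Lu3_lvs (L : ℂ) (e : ℕ) :
    lv L (e + 2) = Polynomial.X * lv L (e + 1) - Polynomial.C L * lv L e := rfl

private theorem Lu3_luz (L : ℂ) : lu L 0 = 1 := rfl

private theorem Lu3_luo (L : ℂ) : lu L 1 = Polynomial.X := rfl

private theorem Lu3_lus (L : ℂ) (e : ℕ) :
    lu L (e + 2) = Polynomial.X * lu L (e + 1) - Polynomial.C L * lu L e := rfl

theorem lv_seq (L : ℂ) (a : ℕ → Polynomial ℂ)
    (ha : ∀ m, a (m + 2) = Polynomial.X * a (m + 1) - Polynomial.C L * a m) (n m : ℕ) :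
    a (m + 2 * n) = lv L n * a (m + n) - Polynomial.C (L ^ n) * a m := by
  have h : ∀ n : ℕ, (∀ m, a (m + 2 * n) = lv L n * a (m + n) - Polynomial.C (L ^ n) * a m) ∧
      (∀ m, a (m + 2 * (n + 1)) = lv L (n + 1) * a (m + (n + 1)) -
        Polynomial.C (L ^ (n + 1)) * a m) := by
    intro n
    induction n with
    | zero =>
      constructor
      · intro m
        rw [Lu3_lvz, pow_zero, map_one, mul_zero, add_zero]
        ring
      · intro m
        rw [zero_add, Lu3_lvo, pow_one, mul_one]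
        exact ha m
    | succ n ih =>
      refine ⟨ih.2, ?_⟩
      intro m
      have h1 := ih.2 (m + 1)
      have h2 := ih.1 (m + 2)
      have h3 := ha (m + 2 * n + 2)
      rw [show m + 1 + 2 * (n + 1) = m + 2 * n + 2 + 1 by ring,
        show m + 1 + (n + 1) = m + (n + 1 + 1) by ring] at h1
      rw [show m + 2 + 2 * n = m + 2 * n + 2 by ring, show m + 2 + n = m + (n + 1 + 1) by ring] at h2
      rw [show m + 2 * (n + 1 + 1) = m + 2 * n + 2 + 2 by ring, h3, h1, h2, Lu3_lvs, ha m]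
      simp only [map_pow]
      ring
  exact (h n).1 m

theorem lu_three (L : ℂ) (k : ℕ) :
    lu L (3 * k + 2) = lu L k * (lv L (k + 1) ^ 2 - Polynomial.C (L ^ (k + 1))) := by
  let a : ℕ → Polynomial ℂ := fun m => match m with
    | 0 => 0
    | (m + 1) => lu L m
  have ha : ∀ m, a (m + 2) = Polynomial.X * a (m + 1) - Polynomial.C L * a m := by
    intro m
    cases m with
    | zero =>
      show lu L 1 = Polynomial.X * lu L 0 - Polynomial.C L * 0
      rw [Lu3_luo, Lu3_luz]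
      ring
    | succ m => exact Lu3_lus L m
  have h1 := lv_seq L a ha (k + 1) 0
  have h2 := lv_seq L a ha (k + 1) (k + 1)
  have e1 : a (0 + 2 * (k + 1)) = lu L (2 * k + 1) := by
    rw [show 0 + 2 * (k + 1) = (2 * k + 1) + 1 by ring]
  have e2 : a (0 + (k + 1)) = lu L k := by
    rw [zero_add]
  have e3 : a 0 = 0 := rfl
  have e4 : a (k + 1 + 2 * (k + 1)) = lu L (3 * k + 2) := by
    rw [show k + 1 + 2 * (k + 1) = (3 * k + 2) + 1 by ring]
  have e5 : a (k + 1 + (k + 1)) = lu L (2 * k + 1) := by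
    rw [show k + 1 + (k + 1) = (2 * k + 1) + 1 by ring]
  have e6 : a (k + 1) = lu L k := rfl
  rw [e1, e2, e3] at h1
  rw [e4, e5, e6, h1] at h2
  rw [h2]
  ring

theorem lu_even2 (L : ℂ) (i : ℕ) : lu L (2 * i + 2) =
    (lu (L ^ 2) (i + 1)).comp (Polynomial.X ^ 2 - Polynomial.C (2 * L)) +
      Polynomial.C L * (lu (L ^ 2) i).comp (Polynomial.X ^ 2 - Polynomial.C (2 * L)) := by
  have h : ∀ i : ℕ, lu L (2 * i + 2) =
      (lu (L ^ 2) (i + 1)).comp (Polynomial.X ^ 2 - Polynomial.C (2 * L)) +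
        Polynomial.C L * (lu (L ^ 2) i).comp (Polynomial.X ^ 2 - Polynomial.C (2 * L)) ∧
      lu L (2 * (i + 1) + 2) =
      (lu (L ^ 2) (i + 1 + 1)).comp (Polynomial.X ^ 2 - Polynomial.C (2 * L)) +
        Polynomial.C L * (lu (L ^ 2) (i + 1)).comp (Polynomial.X ^ 2 - Polynomial.C (2 * L)) := by
    intro i
    induction i with
    | zero =>
      constructor
      · rw [mul_zero, zero_add, zero_add, Lu3_luo, Lu3_luz, Polynomial.one_comp, mul_one,
          Polynomial.X_comp]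
        exact Pool.Agent.Lib.MP_06b9d2_tln.lu_two L
      · rw [show 2 * (0 + 1) + 2 = 0 + 4 from rfl, Pool.Agent.Lib.MP_06b9d2_tln.lu_four,
          zero_add, Pool.Agent.Lib.MP_06b9d2_tln.lu_two, Lu3_luz, zero_add, Lu3_luo,
          Polynomial.X_comp]
        have h2 : lu (L ^ 2) (1 + 1) = Polynomial.X * lu (L ^ 2) 1 -
            Polynomial.C (L ^ 2) * lu (L ^ 2) 0 := Lu3_lus (L ^ 2) 0
        rw [h2, Lu3_luo, Lu3_luz,
          Polynomial.sub_comp, Polynomial.mul_comp, Polynomial.mul_comp, Polynomial.X_comp,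
          Polynomial.C_comp, Polynomial.one_comp]
        ring
    | succ i ih =>
      refine ⟨ih.2, ?_⟩
      have h1 : ∀ e : ℕ, (lu (L ^ 2) (e + 2)).comp (Polynomial.X ^ 2 - Polynomial.C (2 * L)) =
          (Polynomial.X ^ 2 - Polynomial.C (2 * L)) *
            (lu (L ^ 2) (e + 1)).comp (Polynomial.X ^ 2 - Polynomial.C (2 * L)) -
          Polynomial.C (L ^ 2) * (lu (L ^ 2) e).comp (Polynomial.X ^ 2 - Polynomial.C (2 * L)) := by
        intro e
        rw [Lu3_lus (L ^ 2) e, Polynomial.sub_comp, Polynomial.mul_comp, Polynomial.mul_comp,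
          Polynomial.X_comp, Polynomial.C_comp]
      have h3 := h1 (i + 1)
      have h4 := h1 i
      rw [show i + 1 + 2 = i + 1 + 1 + 1 from rfl] at h3
      rw [show i + 2 = i + 1 + 1 from rfl] at h4
      rw [show 2 * (i + 1 + 1) + 2 = (2 * i + 2) + 4 by ring,
        Pool.Agent.Lib.MP_06b9d2_tln.lu_four,
        show 2 * i + 2 + 2 = 2 * (i + 1) + 2 by ring, ih.1, ih.2, h3, h4]
      ring
  exact (h i).1

theorem lv_eval (L : ℂ) (n : ℕ) : (lv L n).eval (1 + L) = 1 + L ^ n := by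
  have h : ∀ n : ℕ, (lv L n).eval (1 + L) = 1 + L ^ n ∧
      (lv L (n + 1)).eval (1 + L) = 1 + L ^ (n + 1) := by
    intro n
    induction n with
    | zero =>
      constructor
      · rw [Lu3_lvz, pow_zero, Polynomial.eval_ofNat]
        norm_num
      · rw [zero_add, Lu3_lvo, Polynomial.eval_X, pow_one]
    | succ n ih =>
      refine ⟨ih.2, ?_⟩
      rw [Lu3_lvs L n, Polynomial.eval_sub, Polynomial.eval_mul, Polynomial.eval_mul,
        Polynomial.eval_X, Polynomial.eval_C, ih.1, ih.2]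
      ring
  exact (h n).1

theorem sum_three (L : ℂ) (n : ℕ) : ∑ i ∈ Finset.range (3 * n), L ^ i =
    (∑ i ∈ Finset.range n, L ^ i) * (1 + L ^ n + L ^ (2 * n)) := by
  rw [show 3 * n = n + n + n by ring, Finset.sum_range_add, Finset.sum_range_add]
  simp only [pow_add, ← Finset.mul_sum, two_mul]
  ring

theorem lu_sum_even (L : ℂ) (i : ℕ) : ∑ j ∈ Finset.range (2 * i + 3), L ^ j =
    ∑ j ∈ Finset.range (i + 2), (L ^ 2) ^ j + L * ∑ j ∈ Finset.range (i + 1), (L ^ 2) ^ j := by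
  induction i with
  | zero =>
    simp only [Finset.sum_range_succ, Finset.sum_range_zero, mul_zero, zero_add]
    ring
  | succ i ih =>
    rw [show 2 * (i + 1) + 3 = 2 * i + 3 + 1 + 1 by ring, Finset.sum_range_succ,
      Finset.sum_range_succ, ih, Finset.sum_range_succ _ (i + 1 + 1), Finset.sum_range_succ _ (i + 1)]
    ring

end Pool.Agent.Lib.MP_06b9d2_tlm
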