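import Pool.Agent.Lib.MP_06b9d2_tlm.CTa
import Pool.Agent.Lib.MP_06b9d2_tlm.Lu3

/-!
Module TLM-ClW. The Lucas polynomials of an operator `1 + L + 81 (..)`, `L ≡ 1` modulo `3`.

`one_facts`: `L = 1 + 3 y`, `y` in `O`: `L ^ n - 1 = (L - 1) (..)`, `L ^ n = 1 + 3 z`: `1 + L ^ n + L ^ (2 n) = 3 (1 + 3 z + 3 z ^ 2)`, the second factor is a unit. `∑_{i ≤ e} L ^ i = (e + 1) + 3 (..)`, the valuation of the integer `e + 1` is `1` if `3 ∤ e + 1` (`val_int`).
`lv_er`, `lu_er`: two step induction with `erd_one`, `erd_mul`, `erd_add`, `erd_smul` (all constants are in `O`; `lv L 0 = 2`: `(2 : ℂ) • 1`; `Polynomial.aeval` of `X * p - C L * p'`: `W * aeval W p - L • aeval W p'`), the constants satisfy the same recursion (`lv_eval`, `lu_eval` in `MP_06b9d2_tln/Luc.lean`, or directly).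
`lu_er3`: strong induction on `e`. `3 ∤ e + 1`: `lu_er` and `v (∑ L ^ i) = 1`, `v 81 ≤ v 27`. `e = 3 k + 2`: `lu_three`, `n = k + 1`: `ErD (aeval W (lv L n) ^ 2 - L ^ n) 0 ((1 + L ^ n) ^ 2 - L ^ n) 81`, the constant is `w = 1 + L ^ n + L ^ (2 n)`, `v w = v 3`, so `v 81 = v (27 w)`;
the induction hypothesis for `k`, `erd_mul` with `δ = 27 u w`, `sum_three`.
-/

namespace Pool.Agent.Lib.MP_06b9d2_tlm

open PowerSeries Pool.Agent.L1
open Pool.Agent.Lib.MP_06b9d2_ssp (PO Lv mo)
open Pool.Agent.Lib.MP_06b9d2_tls (Two Tl MG dmG)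
open Pool.Agent.Lib.MP_06b9d2_tln (TN Mt ex Rp Sy act lu)

variable {O : ValuationSubring ℂ} {N : ℕ}

private theorem ClW_add_le {a b : ℂ} {g : O.ValueGroup} (ha : O.valuation a ≤ g) (hb : O.valuation b ≤ g) :
    O.valuation (a + b) ≤ g :=
  (Valuation.map_add O.valuation _ _).trans (max_le ha hb)

private theorem ClW_sum_le {g : O.ValueGroup} (n : ℕ) (f : ℕ → ℂ) (hf : ∀ i < n, O.valuation (f i) ≤ g) :
    O.valuation (∑ i ∈ Finset.range n, f i) ≤ g := by
  induction n with
  | zero =>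
    rw [Finset.sum_range_zero, map_zero]
    exact zero_le'
  | succ n ih =>
    rw [Finset.sum_range_succ]
    exact ClW_add_le (ih fun i hi => hf i (by omega)) (hf n (by omega))

private theorem ClW_unit {x : ℂ} (hx : O.valuation (x - 1) < 1) : O.valuation x = 1 := by
  have h : x = 1 + (x - 1) := by ring
  rw [h]
  exact Valuation.map_one_add_of_lt O.valuation hx

theorem one_facts (h3 : O.valuation 3 < 1) {L : ℂ} (hL : O.valuation (L - 1) ≤ O.valuation 3) :
    O.valuation L = 1 ∧ (∀ n : ℕ, O.valuation (L ^ n - 1) ≤ O.valuation 3) ∧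
      (∀ n : ℕ, O.valuation (1 + L ^ n + L ^ (2 * n)) = O.valuation 3) ∧
      (∀ e : ℕ, O.valuation (∑ i ∈ Finset.range (e + 1), L ^ i) ≤ 1) ∧
      ∀ e : ℕ, ¬ 3 ∣ e + 1 → O.valuation (∑ i ∈ Finset.range (e + 1), L ^ i) = 1 := by
  have hL1 : O.valuation L = 1 := ClW_unit (lt_of_le_of_lt hL h3)
  have hpow : ∀ n : ℕ, O.valuation (L ^ n) = 1 := fun n => by rw [map_pow, hL1, one_pow]
  have hsum : ∀ n : ℕ, O.valuation (∑ i ∈ Finset.range n, L ^ i) ≤ 1 := fun n =>
    ClW_sum_le n _ fun i _ => (hpow i).le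
  have hn : ∀ n : ℕ, O.valuation (L ^ n - 1) ≤ O.valuation 3 := by
    intro n
    rw [← geom_sum_mul L n, map_mul]
    exact (mul_le_of_le_one_left' (hsum n)).trans hL
  have h30 : O.valuation (3 : ℂ) ≠ 0 := (Valuation.ne_zero_iff _).2 (by norm_num)
  refine ⟨hL1, hn, ?_, fun e => hsum (e + 1), ?_⟩
  · intro n
    have hz : O.valuation ((L ^ n - 1) / 3) ≤ 1 := by
      rw [map_div₀]
      exact div_le_one_of_le₀ (hn n) zero_le'
    set z : ℂ := (L ^ n - 1) / 3 with hzd
    have h1 : L ^ n = 1 + 3 * z := by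
      rw [hzd]
      ring
    have h2 : L ^ (2 * n) = (1 + 3 * z) ^ 2 := by
      rw [mul_comm, pow_mul, h1]
    have h4 : 1 + L ^ n + L ^ (2 * n) = 3 * (1 + 3 * (z + z ^ 2)) := by
      rw [h2, h1]
      ring
    have h5 : O.valuation (z + z ^ 2) ≤ 1 := by
      refine ClW_add_le hz ?_
      rw [map_pow]
      exact pow_le_one' hz 2
    have h6 : O.valuation (1 + 3 * (z + z ^ 2)) = 1 := by
      refine ClW_unit ?_
      have : 1 + 3 * (z + z ^ 2) - 1 = 3 * (z + z ^ 2) := by ring
      rw [this, map_mul]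
      exact lt_of_le_of_lt (mul_le_of_le_one_right' h5) h3
    rw [h4, map_mul, h6, mul_one]
  · intro e he
    have h1 : ∑ i ∈ Finset.range (e + 1), L ^ i = ((e + 1 : ℕ) : ℂ) + ∑ i ∈ Finset.range (e + 1), (L ^ i - 1) := by
      rw [Finset.sum_sub_distrib]
      simp
    have h2 : O.valuation ((e + 1 : ℕ) : ℂ) = 1 := by
      have h := Pool.Agent.Lib.MP_06b9d2_ssp.val_int h3 ((e + 1 : ℕ) : ℤ) (by
        intro h
        exact he (by exact_mod_cast h))
      rwa [Int.cast_natCast] at h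
    have h4 : O.valuation (∑ i ∈ Finset.range (e + 1), (L ^ i - 1)) < O.valuation ((e + 1 : ℕ) : ℂ) := by
      rw [h2]
      exact lt_of_le_of_lt (ClW_sum_le _ _ fun i _ => hn i) h3
    rw [h1, Valuation.map_add_eq_of_lt_left O.valuation h4, h2]

private theorem ClW_le1 (z : ℕ) : O.valuation (z : ℂ) ≤ 1 := by
  have h := Pool.Agent.Lib.MP_06b9d2_ssp.int_mem O (z : ℤ)
  rwa [Int.cast_natCast] at h

private theorem ClW_step {L : ℂ} (hL1 : O.valuation L = 1) {W A B : Mt N} {a b c : ℂ} (hW : ErD O W 0 c 81) (hA : ErD O A 0 a 81)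
    (hB : ErD O B 0 b 81) (ha : O.valuation a ≤ 1) (hc : O.valuation c ≤ 1) :
    ErD O (W * A - L • B) 0 (c * a - L * b) 81 := by
  have h81 : O.valuation (81 : ℂ) ≤ 1 := ClW_le1 81
  have h1 : ErD O (W * A) (0 + 0) (c * a) 81 := by
    refine erd_mul hW hA ?_ ?_ ?_
    · rw [map_mul]
      exact mul_le_of_le_one_right' ha
    · rw [map_mul]
      exact mul_le_of_le_one_left' hc
    · rw [map_mul]
      exact mul_le_of_le_one_right' h81
  have h2 : ErD O ((-L) • B) 0 (-L * b) 81 := by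
    refine erd_mono (erd_smul (-L) hB) ?_
    rw [map_mul, Valuation.map_neg, hL1, one_mul]
  have h3 := erd_add h1 h2
  have e1 : W * A - L • B = W * A + (-L) • B := by
    rw [neg_smul, sub_eq_add_neg]
  have e2 : c * a - L * b = c * a + -L * b := by ring
  rw [e1, e2]
  exact h3

private theorem ClW_aeval (L : ℂ) (W : Mt N) (p q : Polynomial ℂ) :
    Polynomial.aeval W (Polynomial.X * p - Polynomial.C L * q) =
      W * Polynomial.aeval W p - L • Polynomial.aeval W q := by
  rw [map_sub, map_mul, map_mul, Polynomial.aeval_X, Polynomial.aeval_C, Algebra.smul_def]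

theorem lv_er (h3 : O.valuation 3 < 1) {L : ℂ} (hL : O.valuation (L - 1) ≤ O.valuation 3) (W : Mt N)
    (h : ErD O W 0 (1 + L) 81) (n : ℕ) : ErD O (Polynomial.aeval W (lv L n)) 0 (1 + L ^ n) 81 := by
  obtain ⟨hL1, -⟩ := one_facts h3 hL
  have hpow : ∀ n : ℕ, O.valuation (1 + L ^ n) ≤ 1 := fun n => by
    refine ClW_add_le (by rw [map_one]) ?_
    rw [map_pow, hL1, one_pow]
  have key : ∀ n : ℕ, ErD O (Polynomial.aeval W (lv L n)) 0 (1 + L ^ n) 81 ∧
      ErD O (Polynomial.aeval W (lv L (n + 1))) 0 (1 + L ^ (n + 1)) 81 := by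
    intro n
    induction n with
    | zero =>
      constructor
      · have e1 : Polynomial.aeval W (lv L 0) = (2 : ℂ) • (1 : Mt N) := by
          show Polynomial.aeval W (2 : Polynomial ℂ) = _
          rw [map_ofNat, two_smul]
          norm_num
        have e2 : (1 : ℂ) + L ^ 0 = 2 * 1 := by norm_num
        rw [e1, e2]
        refine erd_mono (erd_smul 2 (erd_one (δ := 81))) ?_
        rw [map_mul]
        exact mul_le_of_le_one_left' (ClW_le1 2)
      · have e1 : Polynomial.aeval W (lv L (0 + 1)) = W := by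
          show Polynomial.aeval W (Polynomial.X : Polynomial ℂ) = _
          exact Polynomial.aeval_X W
        rw [e1, zero_add, pow_one]
        exact h
    | succ n ih =>
      refine ⟨ih.2, ?_⟩
      have e1 : lv L (n + 1 + 1) = Polynomial.X * lv L (n + 1) - Polynomial.C L * lv L n := rfl
      have e2 : (1 : ℂ) + L ^ (n + 1 + 1) = (1 + L) * (1 + L ^ (n + 1)) - L * (1 + L ^ n) := by ring
      rw [e1, ClW_aeval, e2]
      have h1 := hpow 1
      rw [pow_one] at h1
      exact ClW_step hL1 h ih.2 ih.1 (hpow _) h1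
  exact (key n).1

theorem lu_er (h3 : O.valuation 3 < 1) {L : ℂ} (hL : O.valuation (L - 1) ≤ O.valuation 3) (W : Mt N)
    (h : ErD O W 0 (1 + L) 81) (e : ℕ) :
    ErD O (Polynomial.aeval W (lu L e)) 0 (∑ i ∈ Finset.range (e + 1), L ^ i) 81 := by
  obtain ⟨hL1, -, -, hs, -⟩ := one_facts h3 hL
  have key : ∀ e : ℕ, ErD O (Polynomial.aeval W (lu L e)) 0 (∑ i ∈ Finset.range (e + 1), L ^ i) 81 ∧
      ErD O (Polynomial.aeval W (lu L (e + 1))) 0 (∑ i ∈ Finset.range (e + 1 + 1), L ^ i) 81 := by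
    intro e
    induction e with
    | zero =>
      constructor
      · have e1 : Polynomial.aeval W (lu L 0) = (1 : Mt N) := by
          show Polynomial.aeval W (1 : Polynomial ℂ) = _
          rw [map_one]
        have e2 : ∑ i ∈ Finset.range (0 + 1), L ^ i = 1 := by simp
        rw [e1, e2]
        exact erd_one
      · have e1 : Polynomial.aeval W (lu L (0 + 1)) = W := by
          show Polynomial.aeval W (Polynomial.X : Polynomial ℂ) = _
          exact Polynomial.aeval_X W
        have e2 : ∑ i ∈ Finset.range (0 + 1 + 1), L ^ i = 1 + L := by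
          simp [Finset.sum_range_succ]
        rw [e1, e2]
        exact h
    | succ e ih =>
      refine ⟨ih.2, ?_⟩
      have e1 : lu L (e + 1 + 1) = Polynomial.X * lu L (e + 1) - Polynomial.C L * lu L e := rfl
      have e2 : ∑ i ∈ Finset.range (e + 1 + 1 + 1), L ^ i =
          (1 + L) * ∑ i ∈ Finset.range (e + 1 + 1), L ^ i - L * ∑ i ∈ Finset.range (e + 1), L ^ i := by
        rw [Finset.sum_range_succ _ (e + 1 + 1), Finset.sum_range_succ _ (e + 1)]
        ring
      rw [e1, ClW_aeval, e2]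
      have h1 : O.valuation (1 + L) ≤ 1 := ClW_add_le (by rw [map_one]) hL1.le
      exact ClW_step hL1 h ih.2 ih.1 (hs _) h1
  exact (key e).1

theorem lu_er3 (h3 : O.valuation 3 < 1) {L : ℂ} (hL : O.valuation (L - 1) ≤ O.valuation 3) (W : Mt N)
    (h : ErD O W 0 (1 + L) 81) (e : ℕ) :
    ErD O (Polynomial.aeval W (lu L e)) 0 (∑ i ∈ Finset.range (e + 1), L ^ i)
      (27 * ∑ i ∈ Finset.range (e + 1), L ^ i) := by
  obtain ⟨hL1, -, hw, hs, hu⟩ := one_facts h3 hL
  have h81 : (81 : ℂ) = 27 * 3 := by norm_num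
  induction e using Nat.strong_induction_on with
  | _ e ih =>
    by_cases he : 3 ∣ e + 1
    · obtain ⟨n, hn⟩ := he
      obtain ⟨k, rfl⟩ : ∃ k, n = k + 1 := ⟨n - 1, by omega⟩
      obtain rfl : e = 3 * k + 2 := by omega
      have h1 := ih k (by omega)
      have h2 := lv_er h3 hL W h (k + 1)
      have hc : O.valuation (1 + L ^ (k + 1)) ≤ 1 := by
        refine ClW_add_le (by rw [map_one]) ?_
        rw [map_pow, hL1, one_pow]
      have h4 : ErD O (Polynomial.aeval W (lv L (k + 1)) * Polynomial.aeval W (lv L (k + 1))) (0 + 0)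
          ((1 + L ^ (k + 1)) * (1 + L ^ (k + 1))) 81 := by
        refine erd_mul h2 h2 ?_ ?_ ?_
        · rw [map_mul]
          exact mul_le_of_le_one_right' hc
        · rw [map_mul]
          exact mul_le_of_le_one_left' hc
        · rw [map_mul]
          exact mul_le_of_le_one_right' (ClW_le1 81)
      have h5 : ErD O ((-L ^ (k + 1)) • (1 : Mt N)) 0 (-L ^ (k + 1) * 1) 81 := by
        refine erd_mono (erd_smul (-L ^ (k + 1)) (erd_one (δ := 81))) ?_
        rw [map_mul, Valuation.map_neg, map_pow, hL1, one_pow, one_mul]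
      have h6 := erd_add h4 h5
      have e1 : Polynomial.aeval W (lu L (3 * k + 2)) = Polynomial.aeval W (lu L k) *
          (Polynomial.aeval W (lv L (k + 1)) * Polynomial.aeval W (lv L (k + 1)) +
            (-L ^ (k + 1)) • (1 : Mt N)) := by
        rw [lu_three, map_mul, map_sub, map_pow, Polynomial.aeval_C, Algebra.algebraMap_eq_smul_one, neg_smul,
          sq, sub_eq_add_neg]
      have e2 : ∑ i ∈ Finset.range (3 * k + 2 + 1), L ^ i = (∑ i ∈ Finset.range (k + 1), L ^ i) *
          ((1 + L ^ (k + 1)) * (1 + L ^ (k + 1)) + -L ^ (k + 1) * 1) := by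
        have h7 := sum_three L (k + 1)
        rw [show 3 * k + 2 + 1 = 3 * (k + 1) by ring, h7]
        congr 1
        ring
      have e3 : O.valuation ((1 + L ^ (k + 1)) * (1 + L ^ (k + 1)) + -L ^ (k + 1) * 1) = O.valuation 3 := by
        rw [← hw (k + 1)]
        congr 1
        ring
      rw [e1, e2]
      refine erd_mul (j₁ := 0) (j₂ := 0) h1 h6 ?_ ?_ ?_
      · rw [map_mul, map_mul, map_mul, map_mul, mul_assoc]
      · rw [map_mul, map_mul, map_mul, e3, h81, map_mul]
        exact le_of_eq (by rw [← mul_assoc, mul_comm (O.valuation (∑ i ∈ Finset.range (k + 1), L ^ i)), mul_assoc])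
      · rw [map_mul, map_mul, map_mul, map_mul, e3, h81, map_mul]
        have h27 : O.valuation (27 : ℂ) ≤ 1 := ClW_le1 27
        calc O.valuation 27 * O.valuation (∑ i ∈ Finset.range (k + 1), L ^ i) * (O.valuation 27 * O.valuation 3)
            ≤ O.valuation 27 * O.valuation (∑ i ∈ Finset.range (k + 1), L ^ i) * (1 * O.valuation 3) := by gcongr
          _ = O.valuation 27 * (O.valuation (∑ i ∈ Finset.range (k + 1), L ^ i) * O.valuation 3) := by
              rw [one_mul, mul_assoc]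
    · refine erd_mono (lu_er h3 hL W h e) ?_
      rw [map_mul, hu e he, mul_one, h81, map_mul]
      exact mul_le_of_le_one_right' h3.le

end Pool.Agent.Lib.MP_06b9d2_tlm
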