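import Pool.Agent.Lib.MP_06b9d2_tlm.Rpb
import Pool.Agent.Lib.MP_06b9d2_tls.StM

/-!
Module TLM-OpD. The action of a matrix `MG e c κ N` on the functions `FF`.

`act_aux`: `∑_{i ≤ N} MG e c κ N i s F (π + i + s) i` with `MG e c κ N i s = ∑_{m, n ≤ N} if s ≤ i + n then e ^ s C(N - s, m) C(s, n) (3 e / c) ^ m (3 / c) ^ n κ m n (i + n - s)`: for `m ≤ N - s`, `n ≤ s` substitute `i = s - n + l`, `0 ≤ l ≤ m + n` (`κ m n l = 0` for `l > m + n`), and `π + i + s = π + n + l` in `ZMod 2`; otherwise the binomial coefficients are `0`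
(`dmG_nat` in `MP_06b9d2_tls/StM.lean`). It can be deduced from `star_aux` there: with `M = 2` (`e ^ 2 = 1`), for each `ρ < 2` the sum over the `i ≡ ρ` with the function `f = F (π + ρ + s)`: `∑_l e ^ (ρ + n + l) κ m n l (if s ≡ ρ + n + l then dmG e c N m n s * f (s - n + l) else 0)`, and `e ^ (ρ + n + l) = e ^ s`; add `ρ = 0, 1`.
`act_opM`: `sg (π + s) * e ^ s = sg π` for `e = -1` (`sg_add`, `sg_nat`). `act_opP`: `j = 0`, `e = 1`.
-/

namespace Pool.Agent.Lib.MP_06b9d2_tlm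

open PowerSeries Pool.Agent.L1
open Pool.Agent.Lib.MP_06b9d2_ssp (PO Lv mo)
open Pool.Agent.Lib.MP_06b9d2_tls (Two Tl MG dmG)
open Pool.Agent.Lib.MP_06b9d2_tln (TN Mt ex Rp Sy act lu)

variable {N : ℕ}

private theorem opD_aux1 (e c : ℂ) (κ : ℕ → ℕ → ℕ → ℂ) (hdeg : ∀ m n r, m + n < r → κ m n r = 0)
    (N m n s : ℕ) (hs : s ≤ N) (F : FF) (π : ZMod 2) :
    ∑ i ∈ Finset.range (N + 1),
      (if s ≤ i + n then
        e ^ s * ((N - s).choose m : ℂ) * (s.choose n : ℂ) * (3 * e / c) ^ m * (3 / c) ^ n *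
          κ m n (i + n - s)
      else 0) * F (π + (i : ZMod 2) + (s : ZMod 2)) (i : ℤ) =
    e ^ s * ∑ l ∈ Finset.range (m + n + 1), κ m n l *
      (dmG e c N m n (s : ℤ) * F (π + (n : ZMod 2) + (l : ZMod 2)) ((s : ℤ) - n + l)) := by
  by_cases hD : m ≤ N - s ∧ n ≤ s
  · obtain ⟨hm, hn⟩ := hD
    rw [Pool.Agent.Lib.MP_06b9d2_tls.dmG_nat e c N m n s hs]
    obtain ⟨t, ht⟩ : ∃ t, s = n + t := ⟨s - n, by omega⟩
    obtain ⟨u, hu⟩ : ∃ u, N + 1 = t + (m + n + 1) + u := ⟨N + 1 - (t + (m + n + 1)), by omega⟩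
    rw [hu, add_assoc t, Finset.sum_range_add _ t, Finset.sum_range_add _ (m + n + 1)]
    rw [Finset.sum_eq_zero (s := Finset.range t), zero_add,
      Finset.sum_eq_zero (s := Finset.range u), add_zero, Finset.mul_sum]
    · apply Finset.sum_congr rfl
      intro l _
      have e1 : (t + l) + n - s = l := by omega
      have e2 : s ≤ t + l + n := by omega
      have e4 : ((t + l : ℕ) : ℤ) = (s : ℤ) - n + l := by omega
      have e5 : π + ((t + l : ℕ) : ZMod 2) + (s : ZMod 2) = π + (n : ZMod 2) + (l : ZMod 2) := by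
        have h2 : (t : ZMod 2) + (t : ZMod 2) = 0 := CharTwo.add_self_eq_zero _
        rw [ht]
        push_cast
        linear_combination h2
      rw [if_pos e2, e1, e4, e5]
      ring
    · intro l _
      have e1 : t + (m + n + 1 + l) + n - s = m + n + 1 + l := by omega
      rw [e1, hdeg m n _ (by omega)]
      simp
    · intro j hj
      have hj' := Finset.mem_range.1 hj
      rw [if_neg (show ¬ s ≤ j + n by omega)]
      simp
  · have h0 : ((N - s).choose m : ℂ) * (s.choose n : ℂ) = 0 := by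
      rcases not_and_or.1 hD with h | h
      · rw [Nat.choose_eq_zero_of_lt (by omega)]; simp
      · rw [Nat.choose_eq_zero_of_lt (show s < n by omega)]; simp
    rw [Pool.Agent.Lib.MP_06b9d2_tls.dmG_nat e c N m n s hs, h0]
    rw [Finset.sum_eq_zero, Finset.sum_eq_zero]
    · simp
    · intro l _
      simp
    · intro j _
      rw [mul_assoc (e ^ s), h0]
      simp

theorem act_aux (e c : ℂ) (he : e ^ 2 = 1) (κ : ℕ → ℕ → ℕ → ℂ) (hdeg : ∀ m n r, m + n < r → κ m n r = 0)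
    (F : FF) (π : ZMod 2) (s : Fin (N + 1)) :
    ∑ i : Fin (N + 1), MG e c κ N i s * F (π + ((i : ℕ) : ZMod 2) + ((s : ℕ) : ZMod 2)) ((i : ℕ) : ℤ) =
      e ^ (s : ℕ) * opD e c κ N F π ((s : ℕ) : ℤ) := by
  rw [Fin.sum_univ_eq_sum_range (fun i => MG e c κ N i s * F (π + (i : ZMod 2) + ((s : ℕ) : ZMod 2)) (i : ℤ)) (N + 1)]
  unfold MG opD
  simp only [Finset.sum_mul, Finset.mul_sum]
  rw [Finset.sum_comm]
  refine Finset.sum_congr rfl fun m _ => ?_
  rw [Finset.sum_comm]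
  refine Finset.sum_congr rfl fun n _ => ?_
  rw [opD_aux1 e c κ hdeg N m n s (by omega) F π, Finset.mul_sum]

theorem act_opM (c r : ℂ) (κ : ℕ → ℕ → ℕ → ℂ) (hdeg : ∀ m n r, m + n < r → κ m n r = 0) (M : Mt N)
    (hM : ∀ i s : Fin (N + 1), M i s = r * MG (-1) c κ N i s) (F : FF) (π : ZMod 2) (s : Fin (N + 1)) :
    actD M 1 F π s = r * (sg π * opD (-1) c κ N F π ((s : ℕ) : ℤ)) := by
  unfold actD
  simp only [hM, mul_assoc]
  rw [← Finset.mul_sum, act_aux (-1) c (by norm_num) κ hdeg F π s, pow_one, sg_add, sg_nat]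
  have h1 : ((-1 : ℂ)) ^ (s : ℕ) * (-1) ^ (s : ℕ) = 1 := by
    rw [← mul_pow]; norm_num
  linear_combination (r * sg π * opD (-1) c κ N F π ((s : ℕ) : ℤ)) * h1

theorem act_opP (c r : ℂ) (κ : ℕ → ℕ → ℕ → ℂ) (hdeg : ∀ m n r, m + n < r → κ m n r = 0) (M : Mt N)
    (hM : ∀ i s : Fin (N + 1), M i s = r * MG 1 c κ N i s) (F : FF) (π : ZMod 2) (s : Fin (N + 1)) :
    actD M 0 F π s = r * opD 1 c κ N F π ((s : ℕ) : ℤ) := by
  unfold actD
  simp only [hM, mul_assoc]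
  rw [← Finset.mul_sum, act_aux 1 c (by norm_num) κ hdeg F π s, pow_zero, one_mul, one_pow, one_mul]

end Pool.Agent.Lib.MP_06b9d2_tlm
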