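import Pool.Agent.Lib.MP_06b9d2_tlm.ClW
import Pool.Agent.Lib.MP_06b9d2_tlm.CTc
import Pool.Agent.Lib.MP_06b9d2_tln.TNb
import Pool.Agent.Lib.MP_06b9d2_tln.Rpa

/-!
Module TLM-PP3. Prime powers.

`L = l ^ k / l` is a positive real number (so sums of powers of `L`, `L ^ 2` are not `0`). `L_one`: `L - 1 = (l ^ k - l) / l`, `3 ∣ l ^ k - l`, `v l = 1` (`v_prime` or `val_int`). `L_two`: `k` even: `3 ∣ l ^ k + l`.
`pp_one`: `M' = aeval M (lu L i)`: `rp_aeval` with `TN_lu`, `sy_aeval`, `lu_er3`, `erd_cl3`. `sq_er`: `W = M * M - (2 L) • 1`: `ErD (M * M) 0 ((1 + L) ^ 2) 81`, `erd_one`, `erd_smul`, `erd_add`: the constant `(1 + L) ^ 2 - 2 L = 1 + L ^ 2`. `L' = L ^ 2` satisfies `v (L' - 1) ≤ v 3` (`L ^ 2 - 1 = (L - 1) (L + 1)`), `W = aeval M (X ^ 2 - C (2 L))`, `Polynomial.aeval_comp`.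
`pp_even`: `i = 0`: `l ^ 0 = 1`, `lu L 0 = 1`: the matrix `1`, `c = 1` (`erd_one`, `erd_cl3`). `i + 1`: `lu_even2`: `aeval M (lu L (2 i + 2)) = aeval W (lu L' (i + 1)) + L • aeval W (lu L' i)`: `lu_er3` (`v` of the error `≤ v 27`, `one_facts`), `erd_add`, `erd_smul`: `ErD .. 0 c 27` with `c = ∑_{j < 2 i + 3} L ^ j` (`lu_sum_even`), which is a unit of `O`:
`L = -1 + 3 y`, so `c ≡ ∑_{j < 2 i + 3} (-1) ^ j = 1`. So `ErD .. 0 c (27 c)` (`erd_mono`), `erd_cl3`.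
`pp_odd`: `lu_odd` (`MP_06b9d2_tln/Luc.lean`): `aeval M (lu L (2 i + 1)) = M * aeval W (lu L' i)`, `lu_er3`, `erd_cl3` (class with the exponent `0`, constant `u = ∑ L' ^ j ≠ 0`), `cl3_mul`; `M` commutes with `aeval W (..)` (a polynomial in `M`: `Polynomial.aeval` of a commutative ring, `Commute`).
-/

namespace Pool.Agent.Lib.MP_06b9d2_tlm

open PowerSeries Pool.Agent.L1
open Pool.Agent.Lib.MP_06b9d2_ssp (PO Lv mo)
open Pool.Agent.Lib.MP_06b9d2_tls (Two Tl MG dmG)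
open Pool.Agent.Lib.MP_06b9d2_tln (TN Mt ex Rp Sy act lu)

variable {O : ValuationSubring ℂ} {N : ℕ} {mo : ℕ → ℂ⟦X⟧}

private theorem PP3_nat (h3 : O.valuation 3 < 1) (l : ℕ) (hl : ¬ 3 ∣ l) :
    O.valuation (l : ℂ) = 1 := by
  have h := MP_06b9d2_ssp.val_int h3 (l : ℤ) (by exact_mod_cast hl)
  exact_mod_cast h

private theorem PP3_int3 (h3 : O.valuation 3 < 1) (l : ℕ) (hl : ¬ 3 ∣ l) (x : ℤ) (hx : (3 : ℤ) ∣ x) :
    O.valuation ((x : ℂ) / (l : ℂ)) ≤ O.valuation 3 := by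
  obtain ⟨y, rfl⟩ := hx
  rw [map_div₀, PP3_nat h3 l hl, div_one, Int.cast_mul, map_mul]
  have h1 : O.valuation ((y : ℤ) : ℂ) ≤ 1 := MP_06b9d2_ssp.int_mem O y
  have h2 : ((3 : ℤ) : ℂ) = 3 := by norm_num
  rw [h2]
  exact mul_le_of_le_one_right' h1

private theorem PP3_L1 (h3 : O.valuation 3 < 1) (l k : ℕ) (hl : ¬ 3 ∣ l) :
    O.valuation ((l : ℂ) ^ k / l) = 1 := by
  rw [map_div₀, map_pow, PP3_nat h3 l hl, one_pow, div_one]

private theorem PP3_pos (l k n : ℕ) (hl : l.Prime) :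
    ∑ j ∈ Finset.range (n + 1), ((l : ℂ) ^ k / l) ^ j ≠ 0 := by
  have h : ∑ j ∈ Finset.range (n + 1), ((l : ℂ) ^ k / l) ^ j =
      ((∑ j ∈ Finset.range (n + 1), ((l : ℝ) ^ k / l) ^ j : ℝ) : ℂ) := by
    push_cast
    rfl
  rw [h]
  have hl0 : (0 : ℝ) < l := by exact_mod_cast hl.pos
  refine Complex.ofReal_ne_zero.2 (ne_of_gt ?_)
  exact Finset.sum_pos (fun i _ => pow_pos (div_pos (pow_pos hl0 k) hl0) i) ⟨0, by simp⟩

private theorem PP3_pos2 (l k n : ℕ) (hl : l.Prime) :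
    ∑ j ∈ Finset.range (n + 1), (((l : ℂ) ^ k / l) ^ 2) ^ j ≠ 0 := by
  have h : ∑ j ∈ Finset.range (n + 1), (((l : ℂ) ^ k / l) ^ 2) ^ j =
      ((∑ j ∈ Finset.range (n + 1), (((l : ℝ) ^ k / l) ^ 2) ^ j : ℝ) : ℂ) := by
    push_cast
    rfl
  rw [h]
  have hl0 : (0 : ℝ) < l := by exact_mod_cast hl.pos
  refine Complex.ofReal_ne_zero.2 (ne_of_gt ?_)
  exact Finset.sum_pos (fun i _ => pow_pos (pow_pos (div_pos (pow_pos hl0 k) hl0) 2) i) ⟨0, by simp⟩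

private theorem PP3_sq {L : ℂ} (h1 : O.valuation L = 1)
    (h2 : O.valuation (L + 1) ≤ O.valuation 3) : O.valuation (L ^ 2 - 1) ≤ O.valuation 3 := by
  have e : L ^ 2 - 1 = (L - 1) * (L + 1) := by ring
  rw [e, map_mul]
  have h4 : O.valuation (L - 1) ≤ 1 := by
    refine (Valuation.map_sub O.valuation _ _).trans (max_le h1.le ?_)
    rw [map_one]
  calc O.valuation (L - 1) * O.valuation (L + 1) ≤ 1 * O.valuation 3 := mul_le_mul' h4 h2
    _ = O.valuation 3 := one_mul _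

private theorem PP3_alt {L : ℂ} (h1 : O.valuation L = 1)
    (h2 : O.valuation (L + 1) ≤ O.valuation 3) (i : ℕ) :
    O.valuation (∑ j ∈ Finset.range (2 * i + 1), L ^ j - 1) ≤ O.valuation 3 := by
  induction i with
  | zero => simp
  | succ i ih =>
    have e : ∑ j ∈ Finset.range (2 * (i + 1) + 1), L ^ j - 1 =
        (∑ j ∈ Finset.range (2 * i + 1), L ^ j - 1) + L ^ (2 * i + 1) * (L + 1) := by
      rw [show 2 * (i + 1) + 1 = 2 * i + 1 + 1 + 1 by ring, Finset.sum_range_succ,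
        Finset.sum_range_succ]
      ring
    rw [e]
    refine (Valuation.map_add O.valuation _ _).trans (max_le ih ?_)
    rw [map_mul, map_pow, h1, one_pow, one_mul]
    exact h2

private theorem PP3_unit (h3 : O.valuation 3 < 1) {c : ℂ} (h : O.valuation (c - 1) ≤ O.valuation 3) :
    O.valuation c = 1 := by
  have e : c = 1 + (c - 1) := by ring
  have h1 : O.valuation (c - 1) < O.valuation 1 := by
    rw [map_one]
    exact lt_of_le_of_lt h h3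
  rw [e, Valuation.map_add_eq_of_lt_left O.valuation h1, map_one]

theorem L_one (h3 : O.valuation 3 < 1) (l k : ℕ) (hl : l.Prime) (h1 : l % 3 = 1) :
    O.valuation ((l : ℂ) ^ k / l - 1) ≤ O.valuation 3 := by
  have hl3 : ¬ 3 ∣ l := by omega
  have hl0 : (l : ℂ) ≠ 0 := by exact_mod_cast hl.ne_zero
  have e : (l : ℂ) ^ k / l - 1 = (((l : ℤ) ^ k - l : ℤ) : ℂ) / (l : ℂ) := by
    push_cast
    field_simp
  rw [e]
  refine PP3_int3 h3 l hl3 _ ?_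
  have h2 : (l : ℤ) ≡ 1 [ZMOD 3] := by
    show (l : ℤ) % 3 = 1 % 3
    omega
  have h4 : (l : ℤ) ^ k - l ≡ 1 ^ k - 1 [ZMOD 3] := (h2.pow k).sub h2
  rw [one_pow, sub_self] at h4
  exact (Int.modEq_zero_iff_dvd).1 h4

theorem L_two (h3 : O.valuation 3 < 1) (l k : ℕ) (hl : l.Prime) (h2 : l % 3 = 2) (hk : k % 2 = 0) :
    O.valuation ((l : ℂ) ^ k / l + 1) ≤ O.valuation 3 := by
  have hl3 : ¬ 3 ∣ l := by omega
  have hl0 : (l : ℂ) ≠ 0 := by exact_mod_cast hl.ne_zero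
  have e : (l : ℂ) ^ k / l + 1 = (((l : ℤ) ^ k + l : ℤ) : ℂ) / (l : ℂ) := by
    push_cast
    field_simp
  rw [e]
  refine PP3_int3 h3 l hl3 _ ?_
  have h4 : (l : ℤ) ≡ -1 [ZMOD 3] := by
    show (l : ℤ) % 3 = (-1) % 3
    omega
  have h5 : (l : ℤ) ^ k + l ≡ (-1) ^ k + (-1) [ZMOD 3] := (h4.pow k).add h4
  rw [Even.neg_one_pow (Nat.even_iff.2 hk)] at h5
  exact (Int.modEq_zero_iff_dvd).1 (by simpa using h5)

theorem sq_er (h3 : O.valuation 3 < 1) (L : ℂ) (M : Mt N) (h : ErD O (M * M) 0 ((1 + L) ^ 2) 81) :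
    ErD O (Polynomial.aeval M (Polynomial.X ^ 2 - Polynomial.C (2 * L))) 0 (1 + L ^ 2) 81 := by
  have h1 : Polynomial.aeval M (Polynomial.X ^ 2 - Polynomial.C (2 * L)) =
      M * M + (-(2 * L)) • (1 : Mt N) := by
    rw [map_sub, map_pow, Polynomial.aeval_X, Polynomial.aeval_C, pow_two, neg_smul,
      ← Algebra.algebraMap_eq_smul_one, sub_eq_add_neg]
  have h2 : ErD O ((-(2 * L)) • (1 : Mt N)) 0 (-(2 * L) * 1) 81 := by
    refine erd_mono (erd_smul (-(2 * L)) (erd_one (δ := 0))) ?_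
    rw [mul_zero, map_zero]
    exact zero_le
  have h4 := erd_add h h2
  rw [h1]
  have h5 : (1 + L) ^ 2 + -(2 * L) * 1 = 1 + L ^ 2 := by ring
  rw [h5] at h4
  exact h4

theorem pp_one (h3 : O.valuation 3 < 1) (e l k : ℕ) (hl : l.Prime) (h1 : l % 3 = 1)
    (h : ∃ M : Mt N, Rp mo (TN l k) M ∧ Sy M ∧ ErD O M 0 (1 + (l : ℂ) ^ k / l) 81) (i : ℕ) :
    PG3 O N e k mo (l ^ i) 0 := by
  obtain ⟨M, hR, hS, hE⟩ := h
  have hL := L_one h3 l k hl h1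
  refine ⟨Polynomial.aeval M (lu ((l : ℂ) ^ k / l) i),
    ∑ j ∈ Finset.range (i + 1), ((l : ℂ) ^ k / l) ^ j, ?_, MP_06b9d2_tln.sy_aeval hS _,
    PP3_pos l k i hl, erd_cl3 e h3 (lu_er3 h3 hL M hE i)⟩
  rw [MP_06b9d2_tln.TN_lu l k i hl]
  exact MP_06b9d2_tln.rp_aeval hR _

theorem pp_even (h3 : O.valuation 3 < 1) (e l k : ℕ) (hl : l.Prime) (h2 : l % 3 = 2) (hk : k % 2 = 0)
    (h : ∃ M : Mt N, Rp mo (TN l k) M ∧ Sy M ∧ ErD O (M * M) 0 ((1 + (l : ℂ) ^ k / l) ^ 2) 81) (i : ℕ) :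
    PG3 O N e k mo (l ^ (2 * i)) 0 := by
  obtain ⟨M, hR, hS, hE⟩ := h
  have hl3 : ¬ 3 ∣ l := by omega
  have hL2 := L_two h3 l k hl h2 hk
  have hL1 := PP3_L1 (O := O) h3 l k hl3
  have hT := MP_06b9d2_tln.TN_lu l k (2 * i) hl
  obtain ⟨L, hLdef⟩ : ∃ L : ℂ, L = (l : ℂ) ^ k / l := ⟨_, rfl⟩
  rw [← hLdef] at hE hL2 hL1 hT
  refine ⟨Polynomial.aeval M (lu L (2 * i)), ∑ j ∈ Finset.range (2 * i + 1), L ^ j, ?_,
    MP_06b9d2_tln.sy_aeval hS _, ?_, ?_⟩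
  · rw [hT]
    exact MP_06b9d2_tln.rp_aeval hR _
  · rw [hLdef]
    exact PP3_pos l k (2 * i) hl
  · refine erd_cl3 e h3 ?_
    cases i with
    | zero =>
      have e1 : lu L (2 * 0) = 1 := rfl
      rw [e1, map_one]
      have e2 : ∑ j ∈ Finset.range (2 * 0 + 1), L ^ j = 1 := by simp
      rw [e2]
      exact erd_one
    | succ i =>
      have hW := sq_er h3 L M hE
      have hsq := PP3_sq hL1 hL2
      obtain ⟨W, hWdef⟩ : ∃ W : Mt N,
        W = Polynomial.aeval M (Polynomial.X ^ 2 - Polynomial.C (2 * L)) := ⟨_, rfl⟩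
      rw [← hWdef] at hW
      have e1 : Polynomial.aeval M (lu L (2 * (i + 1))) =
          Polynomial.aeval W (lu (L ^ 2) (i + 1)) + L • Polynomial.aeval W (lu (L ^ 2) i) := by
        obtain ⟨Q, hQ⟩ : ∃ Q : Polynomial ℂ, Q = Polynomial.X ^ 2 - Polynomial.C (2 * L) := ⟨_, rfl⟩
        rw [show 2 * (i + 1) = 2 * i + 2 by ring, lu_even2, hWdef, ← hQ, map_add, map_mul,
          Polynomial.aeval_C, Polynomial.aeval_comp, Polynomial.aeval_comp, ← Algebra.smul_def]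
      have e2 : ∑ j ∈ Finset.range (2 * (i + 1) + 1), L ^ j =
          ∑ j ∈ Finset.range (i + 1 + 1), (L ^ 2) ^ j +
            L * ∑ j ∈ Finset.range (i + 1), (L ^ 2) ^ j := by
        rw [show 2 * (i + 1) + 1 = 2 * i + 3 by ring]
        exact lu_sum_even L i
      obtain ⟨-, -, -, hs, -⟩ := one_facts h3 hsq
      have h4 : ErD O (Polynomial.aeval W (lu (L ^ 2) (i + 1))) 0
          (∑ j ∈ Finset.range (i + 1 + 1), (L ^ 2) ^ j) 27 := by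
        refine erd_mono (lu_er3 h3 hsq W hW (i + 1)) ?_
        rw [map_mul]
        exact mul_le_of_le_one_right' (hs (i + 1))
      have h5 : ErD O (L • Polynomial.aeval W (lu (L ^ 2) i)) 0
          (L * ∑ j ∈ Finset.range (i + 1), (L ^ 2) ^ j) 27 := by
        refine erd_mono (erd_smul L (lu_er3 h3 hsq W hW i)) ?_
        rw [map_mul, map_mul, hL1, one_mul]
        exact mul_le_of_le_one_right' (hs i)
      have h6 := erd_add h4 h5
      rw [← e1, ← e2] at h6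
      refine erd_mono h6 ?_
      have h7 := PP3_unit h3 (PP3_alt hL1 hL2 (i + 1))
      rw [map_mul, h7, mul_one]

theorem pp_odd (h3 : O.valuation 3 < 1) (e l k : ℕ) (hl : l.Prime) (h2 : l % 3 = 2) (hk : k % 2 = 0)
    (h : ∃ (M : Mt N) (c : ℂ), Rp mo (TN l k) M ∧ Sy M ∧ ErD O (M * M) 0 ((1 + (l : ℂ) ^ k / l) ^ 2) 81 ∧
      c ≠ 0 ∧ Cl3 O e M c 1) (i : ℕ) :
    PG3 O N e k mo (l ^ (2 * i + 1)) 1 := by
  obtain ⟨M, c, hR, hS, hE, hc, hC⟩ := h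
  have hl3 : ¬ 3 ∣ l := by omega
  have hL2 := L_two h3 l k hl h2 hk
  have hL1 := PP3_L1 (O := O) h3 l k hl3
  have hT := MP_06b9d2_tln.TN_lu l k (2 * i + 1) hl
  have hpos := PP3_pos2 l k i hl
  obtain ⟨L, hLdef⟩ : ∃ L : ℂ, L = (l : ℂ) ^ k / l := ⟨_, rfl⟩
  rw [← hLdef] at hE hL2 hL1 hT hpos
  have hW := sq_er h3 L M hE
  have hsq := PP3_sq hL1 hL2
  have e1 : Polynomial.aeval M (lu L (2 * i + 1)) = M * Polynomial.aeval
      (Polynomial.aeval M (Polynomial.X ^ 2 - Polynomial.C (2 * L))) (lu (L ^ 2) i) := by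
    rw [MP_06b9d2_tln.lu_odd, map_mul, Polynomial.aeval_X, Polynomial.aeval_comp]
  have hcomm : M * Polynomial.aeval
      (Polynomial.aeval M (Polynomial.X ^ 2 - Polynomial.C (2 * L))) (lu (L ^ 2) i) =
      Polynomial.aeval (Polynomial.aeval M (Polynomial.X ^ 2 - Polynomial.C (2 * L)))
        (lu (L ^ 2) i) * M := by
    obtain ⟨Q, hQ⟩ : ∃ Q : Polynomial ℂ, Q = Polynomial.X ^ 2 - Polynomial.C (2 * L) := ⟨_, rfl⟩
    have h4 : Polynomial.aeval M ((Polynomial.X : Polynomial ℂ) * (lu (L ^ 2) i).comp Q) =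
        Polynomial.aeval M ((lu (L ^ 2) i).comp Q * (Polynomial.X : Polynomial ℂ)) := by
      rw [mul_comm]
    rw [map_mul, map_mul, Polynomial.aeval_X, Polynomial.aeval_comp] at h4
    rw [← hQ]
    exact h4
  refine ⟨Polynomial.aeval M (lu L (2 * i + 1)), c * ∑ j ∈ Finset.range (i + 1), (L ^ 2) ^ j, ?_,
    MP_06b9d2_tln.sy_aeval hS _, mul_ne_zero hc hpos, ?_⟩
  · rw [hT]
    exact MP_06b9d2_tln.rp_aeval hR _
  · rw [e1]
    exact cl3_mul e h3 hcomm hc hpos hC (erd_cl3 e h3 (lu_er3 h3 hsq _ hW i))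

end Pool.Agent.Lib.MP_06b9d2_tlm
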