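import Pool.Agent.Lib.MP_06b9d2_tlm.Defs
import Pool.Agent.Lib.MP_06b9d2_tln.TNa
import Pool.Agent.Lib.MP_06b9d2_tls.TwoL

/-!
Module TLM-PrT. The matrix of `T_l` for a prime `l ≠ 3` on the level three forms.

All this is in the proof of `two_l` in `MP_06b9d2_tls/TwoL.lean` (private lemmas `TT_Tl`, `V_mo`, `map_e4`, `map_e6` there: copy them): `lv3'` (the three fields of `Lv`), `rp3` (the first bullet of the last part, with `TN_prime`), `sy3` (`hM.sym`, `e ^ (a + N) = 1`; `Fin.rev ⟨j, _⟩ = ⟨N - j, _⟩`), `mt3_MG` (`pc_mat`).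
`mt3_00`: `mat_00`: `M e N 0 0 = l + (ε l) ^ (3 N + e)`, `ε ^ 2 = 1`, `3 N + e` even. `mt3_col`: `mat_int'` (`MP_06b9d2_tls/Mat3.lean`) for `i ≤ N`, `s = 0`: `M e N i 0 = 27 ^ i z`, `v l = 1`.
-/

namespace Pool.Agent.Lib.MP_06b9d2_tlm

open PowerSeries Pool.Agent.L1
open Pool.Agent.Lib.MP_06b9d2_ssp (PO Lv mo)
open Pool.Agent.Lib.MP_06b9d2_tls (Two Tl MG dmG Core MatD PL pc cl Qd)
open Pool.Agent.Lib.MP_06b9d2_tln (TN Mt ex Rp Sy act lu)

open Pool.Agent.Lib.MP_06b9d2_tls (TT V U moX e_sq cl_ne pc_mat mat_00 mat_int' TT_V3 V_inj V_sum V_smul V_mul V_pow V_sub)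

private theorem map_e4 : PowerSeries.map (Int.castRingHom ℂ) (e4 ℤ) = e4 ℂ := by
  unfold e4
  ext n
  simp

private theorem map_e6 : PowerSeries.map (Int.castRingHom ℂ) (e6 ℤ) = e6 ℂ := by
  unfold e6
  ext n
  simp

private theorem V_mo {A Y : ℂ⟦X⟧} {a k c : ℤ⟦X⟧} (q : Qd A Y a k c) (ε N s : ℕ) :
    V 3 (mo (PowerSeries.map (Int.castRingHom ℂ) a) (PowerSeries.map (Int.castRingHom ℂ) c) ε N s) =
      moX A Y ε N s := by
  have h3 : (3 : ℕ) ≠ 0 := three_ne_zero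
  unfold mo moX
  rw [V_mul h3, V_mul h3, V_pow h3, V_pow h3, V_pow h3, V_sub h3, V_pow h3, ← q.hA, ← q.hY3]

private theorem TT_Tl {l : ℕ} (hl : l ≠ 0) {e : ℂ} (he : e ^ 2 = 1) {w : ℕ} (hw : Even w) (f : ℂ⟦X⟧) :
    TT l e w f = (l : ℂ) • Tl l w f := by
  obtain ⟨v, rfl⟩ := hw
  have h1 : (e * l) ^ (v + v) = (l : ℂ) ^ (v + v) := by
    rw [mul_pow, ← two_mul, pow_mul, he, one_pow, one_mul]
  have h2 : (l : ℂ) ≠ 0 := by exact_mod_cast hl
  rw [TT, Tl, h1, smul_add, smul_smul, mul_div_cancel₀ _ h2]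

private theorem pl3 {l : ℕ} {ε s0 : ℂ} (hl : PL l ε s0) : l ≠ 3 := by
  rintro rfl
  rcases hl.2 with ⟨h, _⟩ | ⟨h, _⟩ <;> omega

private theorem pl0 {l : ℕ} {ε s0 : ℂ} (hl : PL l ε s0) : (l : ℂ) ≠ 0 := by
  exact_mod_cast hl.1.ne_zero

private theorem int_le (O : ValuationSubring ℂ) (z : ℤ) : O.valuation (z : ℂ) ≤ 1 := by
  rw [O.valuation_le_one_iff]
  exact intCast_mem O z

private theorem val_l {O : ValuationSubring ℂ} (h3 : O.valuation 3 < 1) {l : ℕ} {ε s0 : ℂ} (hl : PL l ε s0) :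
    O.valuation (l : ℂ) = 1 := by
  have hc : IsCoprime (l : ℤ) (3 : ℤ) := by
    have : Nat.Coprime l 3 := (Nat.coprime_primes hl.1 Nat.prime_three).2 (pl3 hl)
    exact_mod_cast this.isCoprime
  obtain ⟨u, v, huv⟩ := hc
  refine le_antisymm (by exact_mod_cast int_le O (l : ℤ)) ?_
  by_contra hlt
  rw [not_le] at hlt
  have h1 : (u : ℂ) * l + v * 3 = 1 := by exact_mod_cast huv
  have h2 : O.valuation ((u : ℂ) * l + v * 3) < 1 := by
    refine Valuation.map_add_lt _ ?_ ?_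
    · rw [map_mul]
      exact (mul_le_of_le_one_left' (int_le O u)).trans_lt hlt
    · rw [map_mul]
      exact (mul_le_of_le_one_left' (int_le O v)).trans_lt h3
  rw [h1, map_one] at h2
  exact lt_irrefl _ h2

variable {A Y : ℂ⟦X⟧} {a k c : ℤ⟦X⟧} {O : ValuationSubring ℂ} {l : ℕ} {ε s0 : ℂ} {M : ℕ → ℕ → ℕ → ℕ → ℂ}

theorem lv3' (h : Core A Y) (q : Qd A Y a k c) :
    Lv (PowerSeries.map (Int.castRingHom ℂ) a) (PowerSeries.map (Int.castRingHom ℂ) c) := by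
  refine ⟨?_, ?_, ?_⟩
  · rw [← PowerSeries.coeff_zero_eq_constantCoeff_apply, PowerSeries.coeff_map,
      PowerSeries.coeff_zero_eq_constantCoeff_apply, q.a0]
    simp
  · rw [← map_e4, q.h4]
    simp only [map_mul, map_add, map_pow, map_ofNat]
  · rw [← map_e6, q.h6]
    simp only [map_mul, map_sub, map_pow, map_ofNat]

theorem rp3 (h : Core A Y) (q : Qd A Y a k c) (hl : PL l ε s0) (hM : MatD l ε A Y M) (e N : ℕ) (he : e ≤ 2)
    (hN : Even (N + e)) :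
    Rp (mo (PowerSeries.map (Int.castRingHom ℂ) a) (PowerSeries.map (Int.castRingHom ℂ) c) e N)
      (TN l (3 * N + e)) (mt3 l e M N) := by
  intro s
  have hs : (s : ℕ) ≤ N := Nat.lt_succ_iff.1 s.2
  have : Fact (e < 3) := ⟨by omega⟩
  have hk : Even (3 * N + e) := by
    rw [Nat.even_iff] at hN ⊢
    omega
  have h1 : V 3 (TT l ε (3 * N + e) (mo (PowerSeries.map (Int.castRingHom ℂ) a)
      (PowerSeries.map (Int.castRingHom ℂ) c) e N s)) =
      V 3 (∑ j ∈ Finset.range (N + 1), M e N j s • mo (PowerSeries.map (Int.castRingHom ℂ) a)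
      (PowerSeries.map (Int.castRingHom ℂ) c) e N j) := by
    rw [← TT_V3 hl.1 (pl3 hl), V_mo q, hM.eq e N s hs, V_sum three_ne_zero]
    refine Finset.sum_congr rfl fun j _ => ?_
    rw [V_smul three_ne_zero, V_mo q]
  have h2 := V_inj three_ne_zero h1
  rw [TT_Tl hl.1.ne_zero (e_sq hl) hk] at h2
  have h3 := congrArg (fun f => (l : ℂ)⁻¹ • f) h2
  simp only [smul_smul, inv_mul_cancel₀ (pl0 hl), one_smul, Finset.smul_sum] at h3
  rw [Pool.Agent.Lib.MP_06b9d2_tln.TN_prime _ _ hl.1, h3, Finset.sum_range]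
  refine Finset.sum_congr rfl fun j _ => ?_
  simp only [mt3, Matrix.of_apply, div_eq_inv_mul]

theorem sy3 (hl : PL l ε s0) (hM : MatD l ε A Y M) (e N : ℕ) (he : e ≤ 2) (hN : Even (N + e)) :
    Sy (mt3 l e M N) := by
  intro j s
  have : Fact (e < 3) := ⟨by omega⟩
  have hj : (j : ℕ) ≤ N := Nat.lt_succ_iff.1 j.2
  have hs : (s : ℕ) ≤ N := Nat.lt_succ_iff.1 s.2
  have h1 : ε ^ (e + N) = 1 := by
    obtain ⟨v, hv⟩ := hN
    rw [show e + N = 2 * v by omega, pow_mul, e_sq hl, one_pow]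
  have h2 := hM.sym e N j s hj hs
  rw [h1, one_mul] at h2
  simp only [mt3, Matrix.of_apply, Fin.val_rev]
  rw [show N + 1 - ((j : ℕ) + 1) = N - j by omega, show N + 1 - ((s : ℕ) + 1) = N - s by omega, h2]

theorem mt3_MG (h : Core A Y) (hl : PL l ε s0) (hM : MatD l ε A Y M) (e N : ℕ) (he : e ≤ 2)
    (i s : Fin (N + 1)) : mt3 l e M N i s =
      ((ε * cl l ε) ^ N / l) * MG ε (cl l ε) (fun m n r => pc ε (cl l ε) M e m n r) N i s := by
  have : Fact (e < 3) := ⟨by omega⟩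
  have h1 := pc_mat h hl hM e N i s (Nat.lt_succ_iff.1 i.2) (Nat.lt_succ_iff.1 s.2)
  simp only [mt3, Matrix.of_apply]
  rw [h1]
  ring

theorem mt3_00 (h : Core A Y) (hl : PL l ε s0) (hM : MatD l ε A Y M) (e N : ℕ) (he : e ≤ 2)
    (hN : Even (N + e)) : mt3 l e M N 0 0 = 1 + (l : ℂ) ^ (3 * N + e) / l := by
  have : Fact (e < 3) := ⟨by omega⟩
  have h0 := pl0 hl
  have h1 : (ε * l) ^ (3 * N + e) = (l : ℂ) ^ (3 * N + e) := by
    obtain ⟨v, hv⟩ : Even (3 * N + e) := by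
      rw [Nat.even_iff] at hN ⊢
      omega
    rw [hv, mul_pow, ← two_mul, pow_mul, e_sq hl, one_pow, one_mul]
  simp only [mt3, Matrix.of_apply, Fin.val_zero]
  rw [mat_00 h hl hM, h1, add_div, div_self h0]

theorem mt3_col (h : Core A Y) (h3 : O.valuation 3 < 1) (hl : PL l ε s0) (hM : MatD l ε A Y M) (e N : ℕ)
    (he : e ≤ 2) (i : Fin (N + 1)) : O.valuation (mt3 l e M N i 0) ≤ O.valuation ((27 : ℂ) ^ (i : ℕ)) := by
  have : Fact (e < 3) := ⟨by omega⟩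
  obtain ⟨z, hz⟩ := mat_int' h hl hM e N i 0 (Nat.zero_le _) (Nat.lt_succ_iff.1 i.2)
  simp only [mt3, Matrix.of_apply, Fin.val_zero]
  rw [hz, map_div₀, val_l h3 hl, div_one, map_mul, Nat.sub_zero]
  exact mul_le_of_le_one_right' (int_le O z)

end Pool.Agent.Lib.MP_06b9d2_tlm
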