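import Pool.Agent.Lib.MP_06b9d2_tlm.Defs
import Pool.Agent.Lib.MP_06b9d2_tln.Rpa

/-!
Module TLM-Rpb. Elementary facts on `sg`, `PD`, `actD`; uniqueness of the matrix of a linear map.

`ZMod 2` has two elements (`Fin.forall_fin_two`, `decide`, `fin_cases π`); `sg_nat`: induction on `n` with `sg_add`. `PD`: from `PO_const`, `PO_add`, `PO_mul`, `PO_shift`, `PO_id`, `int_mem` (`MP_06b9d2_ssp/POa.lean`) and `PO_cg` (`MP_06b9d2_tls/StM.lean`).
`actD_mul`: `actD M₂ j₂ F₁ π s = sg (π + s) ^ j₂ ∑_i M₂ i s F₁ (π + i + s) i`, `F₁ (π + i + s) i = sg (π + i + s + i) ^ j₁ ∑_j M₁ j i F (π + i + s + j + i) j` and in `ZMod 2`: `π + i + s + i = π + s`, `π + i + s + j + i = π + j + s` (`CharTwo.add_self_eq_zero` or case distinction); then `Matrix.mul_apply` and exchange of the sums.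
`rp_uniq`: `∑_j (M₁ j s - M₂ j s) • mo j = 0`, `ind` with `x j = M₁ j s - M₂ j s` for `j ≤ N` (`x j = 0` otherwise; `Fin.sum_univ_eq_sum_range`, `ex`). `rp_comm`: `rp_mul` (`MP_06b9d2_tln/Rpa.lean`) twice and `rp_uniq`.
-/

namespace Pool.Agent.Lib.MP_06b9d2_tlm

open PowerSeries Pool.Agent.L1
open Pool.Agent.Lib.MP_06b9d2_ssp (PO Lv mo)
open Pool.Agent.Lib.MP_06b9d2_tls (Two Tl MG dmG)
open Pool.Agent.Lib.MP_06b9d2_tln (TN Mt ex Rp Sy act lu)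

variable {O : ValuationSubring ℂ} {N : ℕ} {M M₁ M₂ : Mt N} {F G : FF} {j : ℕ}

private theorem Rpb_two (π : ZMod 2) : π = 0 ∨ π = 1 := by
  revert π
  decide

private theorem Rpb_cancel (a b : ZMod 2) : a + b + b = a := by
  revert a b
  decide

theorem sg_add (π ρ : ZMod 2) : sg (π + ρ) = sg π * sg ρ := by
  have h1 : (1 : ZMod 2) ≠ 0 := by decide
  have h2 : (1 : ZMod 2) + 1 = 0 := by decide
  rcases Rpb_two π with rfl | rfl <;> rcases Rpb_two ρ with rfl | rfl <;> simp [sg, h2]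

theorem sg_sq (π : ZMod 2) : sg π * sg π = 1 := by
  rcases Rpb_two π with rfl | rfl <;> simp [sg]

theorem sg_ne (π : ZMod 2) : sg π ≠ 0 := by
  intro h
  have := sg_sq π
  rw [h] at this
  simp at this

theorem sg_val (O : ValuationSubring ℂ) (π : ZMod 2) : O.valuation (sg π) = 1 := by
  rcases Rpb_two π with rfl | rfl <;> simp [sg]

theorem sg_nat (n : ℕ) : sg ((n : ℕ) : ZMod 2) = (-1) ^ n := by
  induction n with
  | zero => simp [sg]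
  | succ n ih =>
    rw [Nat.cast_add, sg_add, ih, pow_succ]
    simp [sg]

private theorem Rpb_int (O : ValuationSubring ℂ) (n : ℤ) : PO O (fun _ => (n : ℂ)) :=
  Pool.Agent.Lib.MP_06b9d2_ssp.PO_const _ (Pool.Agent.Lib.MP_06b9d2_ssp.int_mem O n)

theorem pd_zero (O : ValuationSubring ℂ) : PD O (fun _ _ => 0) := by
  intro π
  have h := Rpb_int O 0
  simpa using h

theorem pd_add (hF : PD O F) (hG : PD O G) : PD O (fun π s => F π s + G π s) := fun π =>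
  Pool.Agent.Lib.MP_06b9d2_ssp.PO_add (hF π) (hG π)

theorem pd_smul (z : ℂ) (hz : O.valuation z ≤ 1) (hF : PD O F) : PD O (fun π s => z * F π s) := fun π =>
  Pool.Agent.Lib.MP_06b9d2_ssp.PO_mul (Pool.Agent.Lib.MP_06b9d2_ssp.PO_const z hz) (hF π)

theorem pd_mul (f : ℤ → ℂ) (hf : PO O f) (hF : PD O F) : PD O (fun π s => f s * F π s) := fun π =>
  Pool.Agent.Lib.MP_06b9d2_ssp.PO_mul hf (hF π)

theorem pd_sg (hF : PD O F) : PD O (SG F) := fun π =>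
  Pool.Agent.Lib.MP_06b9d2_ssp.PO_mul
    (Pool.Agent.Lib.MP_06b9d2_ssp.PO_const (sg π) (le_of_eq (sg_val O π))) (hF π)

theorem pd_sgp (j : ℕ) (hF : PD O F) : PD O (fun π s => sg π ^ j * F π s) := fun π =>
  Pool.Agent.Lib.MP_06b9d2_ssp.PO_mul
    (Pool.Agent.Lib.MP_06b9d2_ssp.PO_const (sg π ^ j) (by rw [map_pow, sg_val, one_pow])) (hF π)

theorem pd_shift (ρ : ZMod 2) (r : ℤ) (hF : PD O F) : PD O (fun π s => F (π + ρ) (s + r)) := fun π =>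
  Pool.Agent.Lib.MP_06b9d2_ssp.PO_shift (hF (π + ρ)) r

theorem po_q (O : ValuationSubring ℂ) (N : ℕ) : PO O (qf N) := by
  have hs : PO O (fun s => (s : ℂ)) := Pool.Agent.Lib.MP_06b9d2_ssp.PO_id
  have h := Pool.Agent.Lib.MP_06b9d2_ssp.PO_add (Pool.Agent.Lib.MP_06b9d2_ssp.PO_mul hs hs)
    (Pool.Agent.Lib.MP_06b9d2_ssp.PO_mul (Rpb_int O (-(N : ℤ))) hs)
  refine Pool.Agent.Lib.MP_06b9d2_tls.PO_cg h fun s => ?_
  unfold qf
  push_cast
  ring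

theorem po_v (O : ValuationSubring ℂ) (N j : ℕ) : PO O (fun s => (2 * (s : ℂ) - N) ^ j) := by
  have hs : PO O (fun s => (s : ℂ)) := Pool.Agent.Lib.MP_06b9d2_ssp.PO_id
  have h1 : PO O (fun s => (2 * (s : ℂ) - N)) := by
    have h := Pool.Agent.Lib.MP_06b9d2_ssp.PO_add
      (Pool.Agent.Lib.MP_06b9d2_ssp.PO_mul (Rpb_int O 2) hs) (Rpb_int O (-(N : ℤ)))
    refine Pool.Agent.Lib.MP_06b9d2_tls.PO_cg h fun s => ?_
    push_cast
    ring
  induction j with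
  | zero =>
    refine Pool.Agent.Lib.MP_06b9d2_tls.PO_cg (Rpb_int O 1) fun s => ?_
    push_cast
    rw [pow_zero]
  | succ j ih =>
    refine Pool.Agent.Lib.MP_06b9d2_tls.PO_cg (Pool.Agent.Lib.MP_06b9d2_ssp.PO_mul ih h1) fun s => ?_
    rw [pow_succ]

theorem pd_q (hF : PD O F) : PD O (fun π s => qf N s * F π s) := pd_mul _ (po_q O N) hF

/-- a single function at one residue -/
theorem pd_single (f : ℤ → ℂ) (hf : PO O f) (ρ : ZMod 2) : PD O (fun π s => if π = ρ then f s else 0) := by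
  intro π
  by_cases h : π = ρ
  · refine Pool.Agent.Lib.MP_06b9d2_tls.PO_cg hf fun s => ?_
    simp [h]
  · refine Pool.Agent.Lib.MP_06b9d2_tls.PO_cg (Rpb_int O 0) fun s => ?_
    simp [h]

theorem actD_mul (M₁ M₂ : Mt N) (j₁ j₂ : ℕ) (F F₁ : FF)
    (hF₁ : ∀ (π : ZMod 2) (i : Fin (N + 1)), actD M₁ j₁ F π i = F₁ π ((i : ℕ) : ℤ)) (π : ZMod 2)
    (s : Fin (N + 1)) : actD (M₁ * M₂) (j₁ + j₂) F π s = actD M₂ j₂ F₁ π s := by
  have h1 : ∀ i : Fin (N + 1), F₁ (π + ((i : ℕ) : ZMod 2) + ((s : ℕ) : ZMod 2)) ((i : ℕ) : ℤ) =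
      sg (π + ((s : ℕ) : ZMod 2)) ^ j₁ *
        ∑ j : Fin (N + 1), M₁ j i * F (π + ((j : ℕ) : ZMod 2) + ((s : ℕ) : ZMod 2)) ((j : ℕ) : ℤ) := by
    intro i
    rw [← hF₁]
    unfold actD
    have e1 : π + ((i : ℕ) : ZMod 2) + ((s : ℕ) : ZMod 2) + ((i : ℕ) : ZMod 2) = π + ((s : ℕ) : ZMod 2) := by
      rw [add_right_comm π, Rpb_cancel]
    rw [e1]
    congr 1
    refine Finset.sum_congr rfl fun j _ => ?_
    have e2 : π + ((i : ℕ) : ZMod 2) + ((s : ℕ) : ZMod 2) + ((j : ℕ) : ZMod 2) + ((i : ℕ) : ZMod 2) =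
        π + ((j : ℕ) : ZMod 2) + ((s : ℕ) : ZMod 2) := by
      have : π + ((i : ℕ) : ZMod 2) + ((s : ℕ) : ZMod 2) + ((j : ℕ) : ZMod 2) + ((i : ℕ) : ZMod 2) =
          (π + ((j : ℕ) : ZMod 2) + ((s : ℕ) : ZMod 2)) + ((i : ℕ) : ZMod 2) + ((i : ℕ) : ZMod 2) := by
        ring
      rw [this, Rpb_cancel]
    rw [e2]
  unfold actD
  simp only [h1, Matrix.mul_apply, Finset.sum_mul, Finset.mul_sum]
  rw [Finset.sum_comm]
  refine Finset.sum_congr rfl fun i _ => Finset.sum_congr rfl fun j _ => ?_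
  rw [pow_add]
  ring

theorem actD_one (F : FF) (π : ZMod 2) (s : Fin (N + 1)) :
    actD (1 : Mt N) 0 F π s = F π ((s : ℕ) : ℤ) := by
  unfold actD
  rw [pow_zero, one_mul, Finset.sum_eq_single s]
  · rw [Matrix.one_apply_eq, one_mul, Rpb_cancel]
  · intro i _ hi
    rw [Matrix.one_apply_ne hi, zero_mul]
  · intro h
    exact absurd (Finset.mem_univ s) h

theorem actD_add (M₁ M₂ : Mt N) (j : ℕ) (F : FF) (π : ZMod 2) (s : Fin (N + 1)) :
    actD (M₁ + M₂) j F π s = actD M₁ j F π s + actD M₂ j F π s := by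
  unfold actD
  rw [← mul_add, ← Finset.sum_add_distrib]
  congr 1
  refine Finset.sum_congr rfl fun i _ => ?_
  rw [Matrix.add_apply, add_mul]

theorem actD_smul (z : ℂ) (M : Mt N) (j : ℕ) (F : FF) (π : ZMod 2) (s : Fin (N + 1)) :
    actD (z • M) j F π s = z * actD M j F π s := by
  unfold actD
  rw [mul_left_comm z, Finset.mul_sum _ _ z]
  congr 1
  refine Finset.sum_congr rfl fun i _ => ?_
  rw [Matrix.smul_apply, smul_eq_mul, mul_assoc]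

theorem actD_addF (M : Mt N) (j : ℕ) (F G : FF) (π : ZMod 2) (s : Fin (N + 1)) :
    actD M j (fun π s => F π s + G π s) π s = actD M j F π s + actD M j G π s := by
  unfold actD
  rw [← mul_add, ← Finset.sum_add_distrib]
  congr 1
  refine Finset.sum_congr rfl fun i _ => ?_
  rw [mul_add]

theorem actD_smulF (M : Mt N) (j : ℕ) (z : ℂ) (F : FF) (π : ZMod 2) (s : Fin (N + 1)) :
    actD M j (fun π s => z * F π s) π s = z * actD M j F π s := by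
  unfold actD
  rw [mul_left_comm z, Finset.mul_sum _ _ z]
  congr 1
  refine Finset.sum_congr rfl fun i _ => ?_
  ring

theorem actD_cgF (M : Mt N) (j : ℕ) (F G : FF) (h : ∀ (π : ZMod 2) (i : Fin (N + 1)), F π ((i : ℕ) : ℤ) = G π ((i : ℕ) : ℤ))
    (π : ZMod 2) (s : Fin (N + 1)) : actD M j F π s = actD M j G π s := by
  unfold actD
  congr 1
  refine Finset.sum_congr rfl fun i _ => ?_
  rw [h]

theorem actD_two (M : Mt N) (j : ℕ) (F : FF) (π : ZMod 2) (s : Fin (N + 1)) :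
    actD M (j + 2) F π s = actD M j F π s := by
  unfold actD
  rw [pow_add, pow_two, sg_sq, mul_one]

theorem rp_uniq {mo : ℕ → ℂ⟦X⟧} (ind : ∀ x : ℕ → ℂ, ∑ s ∈ Finset.range (N + 1), x s • mo s = 0 → ∀ s ≤ N, x s = 0)
    {T : ℂ⟦X⟧ →ₗ[ℂ] ℂ⟦X⟧} (h₁ : Rp mo T M₁) (h₂ : Rp mo T M₂) : M₁ = M₂ := by
  ext j s
  have h3 : ∑ i : Fin (N + 1), (M₁ i s - M₂ i s) • mo (i : ℕ) = 0 := by
    simp only [sub_smul]
    rw [Finset.sum_sub_distrib, ← h₁ s, ← h₂ s, sub_self]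
  have h4 : ∑ i ∈ Finset.range (N + 1), (fun i : ℕ => ex M₁ i (s : ℕ) - ex M₂ i (s : ℕ)) i • mo i = 0 := by
    rw [Finset.sum_range]
    rw [← h3]
    refine Finset.sum_congr rfl fun i _ => ?_
    have hc : (i : ℕ) < N + 1 ∧ (s : ℕ) < N + 1 := ⟨i.2, s.2⟩
    simp only [ex, dif_pos hc, Fin.eta]
  have h5 := ind _ h4 (j : ℕ) (by have := j.2; omega)
  have hc : (j : ℕ) < N + 1 ∧ (s : ℕ) < N + 1 := ⟨j.2, s.2⟩
  simp only [ex, dif_pos hc, Fin.eta] at h5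
  exact sub_eq_zero.1 h5

theorem rp_comm {mo : ℕ → ℂ⟦X⟧} (ind : ∀ x : ℕ → ℂ, ∑ s ∈ Finset.range (N + 1), x s • mo s = 0 → ∀ s ≤ N, x s = 0)
    {T₁ T₂ : ℂ⟦X⟧ →ₗ[ℂ] ℂ⟦X⟧} (hc : T₁ ∘ₗ T₂ = T₂ ∘ₗ T₁) (h₁ : Rp mo T₁ M₁) (h₂ : Rp mo T₂ M₂) :
    M₁ * M₂ = M₂ * M₁ := by
  have h3 := Pool.Agent.Lib.MP_06b9d2_tln.rp_mul h₁ h₂
  have h4 := Pool.Agent.Lib.MP_06b9d2_tln.rp_mul h₂ h₁
  rw [hc] at h3
  exact rp_uniq ind h3 h4

end Pool.Agent.Lib.MP_06b9d2_tlm
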