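import Pool.Agent.Lib.MP_06b9d2_tlm.Rpb
import Pool.Agent.Lib.MP_06b9d2_tls.PrM
import Pool.Agent.Lib.MP_06b9d2_tls.PrNm

/-!
Module TLM-TwD. The doubled functional: eigenspaces of dimension at most two.

Let `x`, `y` be eigenvectors of `ex M` (`EgG (ex M) N lam`), supported on `0, …, N`. Put `z π s = x s` if `s ≡ π`, `y s` if `s ≡ π + 1` modulo `2` (that is `emb 0 x + emb 1 y` of `MP_06b9d2_tls/PrM.lean`), `mq N z π f = ∑_{s ≤ N} z (π % 2) s f s`.
`dbl_eq`: for `F : FF`: `∑_{π < 2} ∑_s z π s (actD M 0 F π s) = lam ∑_{π < 2} ∑_s z π s F π s`: with `ε = π + s`: `actD M 0 F (ε + s) s = ∑_i M i s F (ε + i) i`, so for fixed `ε` (`ε = 0`: `x`, `ε = 1`: `y`) `∑_s x_s ∑_i M i s F (ε + i) i = ∑_i (∑_s M i s x_s) F (ε + i) i = lam ∑_i x_i F (ε + i) i`.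
Apply it to `F = f` at the residue `π₀`, `0` at the other one (`pd_single`), `f` in `PO O`; by `h`: `lam mq z π₀ f = d mq z π₀ f + w (mq z π₀ (qf N f) + 3 r)`, `r = ∑_π mq z π (G π)`, which is in `O` if `z` is normalized (`NmPr O N z`: all `mq N z π f`, `f` in `PO O`, are in `O`, and some `mq N z π (s ^ n)` is a unit).
`dbl_fin`: `NmPr` and `mq z π 1 = mq z π s = 0` for `π = 0, 1` is impossible: `ν = (lam - d) / w`: `ν mq z π f = mq z π (qf N f) + 3 r`. If `v ν > 1`: all `mq z π f` have `v ≤ v ν⁻¹ < 1`, contradiction. If `v ν ≤ 1`: `mq z π (s ^ (n + 2)) = N mq z π (s ^ (n + 1)) + ν mq z π (s ^ n) - 3 r`: by induction all `v (mq z π (s ^ n)) < 1`, contradiction.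
So the linear map `(x, y) ↦ (mq z 0 1, mq z 0 s, mq z 1 1, mq z 1 s)` into `ℂ ^ 4` is injective on `K × K`, `K` = the space of the eigenvectors supported on `0, …, N` (normalize `z ≠ 0` by `nrmPr` of `MP_06b9d2_tls/PrNm.lean`; `z = 0` on `0, …, N` gives `x = y = 0`), `K` is a subspace of a finite dimensional space (functions supported on `0, …, N`), so `2 dim K ≤ 4`,
`dim K ≤ 2`, there is an injective linear map `K → Fin 2 → ℂ` and it extends to `ℕ → ℂ` (`LinearMap.exists_extend`). Compare the proof of `key` in `MP_06b9d2_tls/PrT.lean`.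
-/

namespace Pool.Agent.Lib.MP_06b9d2_tlm

open PowerSeries Pool.Agent.L1
open Pool.Agent.Lib.MP_06b9d2_ssp (PO Lv mo PO_const PO_id PO_mul int_mem)
open Pool.Agent.Lib.MP_06b9d2_tls (Two Tl MG dmG EgG mq NmPr nrmPr emb mq_add' mq_smul' mq_mod)
open Pool.Agent.Lib.MP_06b9d2_tln (TN Mt ex Rp Sy act lu)

variable {O : ValuationSubring ℂ} {N : ℕ}

/-- the eigenvectors supported on `0, …, N` -/
private def TwD_K (Mx : ℕ → ℕ → ℂ) (N : ℕ) (lam : ℂ) : Submodule ℂ (ℕ → ℂ) where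
  carrier := {x | EgG Mx N lam x ∧ ∀ s, N < s → x s = 0}
  zero_mem' := ⟨fun j _ => by simp, fun _ _ => rfl⟩
  add_mem' := by
    rintro x y ⟨hx, hx'⟩ ⟨hy, hy'⟩
    refine ⟨fun j hj => ?_, fun s hs => by rw [Pi.add_apply, hx' s hs, hy' s hs, add_zero]⟩
    simp only [Pi.add_apply, mul_add, Finset.sum_add_distrib]
    rw [hx j hj, hy j hj]
  smul_mem' := by
    rintro c x ⟨hx, hx'⟩
    refine ⟨fun j hj => ?_, fun s hs => by rw [Pi.smul_apply, hx' s hs, smul_zero]⟩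
    have h1 := hx j hj
    simp only [Pi.smul_apply, smul_eq_mul]
    have h2 : ∀ s, Mx j s * (c * x s) = c * (Mx j s * x s) := fun s => by ring
    simp only [h2, ← Finset.mul_sum, h1]
    ring

/-- an injective linear map on pairs of eigenvectors into `ℂ ^ 4` -/
theorem two_of_four (Mx : ℕ → ℕ → ℂ) (N : ℕ) (h : ∀ lam : ℂ, ∃ L : ((ℕ → ℂ) × (ℕ → ℂ)) →ₗ[ℂ] (Fin 4 → ℂ),
    ∀ x y : ℕ → ℂ, EgG Mx N lam x → EgG Mx N lam y → (∀ s, N < s → x s = 0) → (∀ s, N < s → y s = 0) →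
      L (x, y) = 0 → x = 0 ∧ y = 0) : Two Mx N := by
  intro lam
  obtain ⟨L, hL⟩ := h lam
  set K := TwD_K Mx N lam with hK
  set g : (K × K) →ₗ[ℂ] (Fin 4 → ℂ) := L ∘ₗ (K.subtype.prodMap K.subtype) with hg
  have hginj : Function.Injective g := by
    rw [← LinearMap.ker_eq_bot, LinearMap.ker_eq_bot']
    rintro ⟨⟨x, hx⟩, ⟨y, hy⟩⟩ h0
    have h1 : L (x, y) = 0 := h0
    obtain ⟨h2, h3⟩ := hL x y hx.1 hy.1 hx.2 hy.2 h1
    subst h2
    subst h3
    rfl
  have hf1 : Function.Injective (g ∘ₗ LinearMap.inl ℂ K K) := by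
    rw [LinearMap.coe_comp]
    exact hginj.comp LinearMap.inl_injective
  have : FiniteDimensional ℂ K := FiniteDimensional.of_injective _ hf1
  have h4 : Module.finrank ℂ (K × K) ≤ 4 := by
    have := LinearMap.finrank_le_finrank_of_injective hginj
    simpa using this
  rw [Module.finrank_prod] at h4
  have h2 : Module.finrank ℂ K ≤ 2 := by omega
  let b := Module.finBasis ℂ K
  let e : K →ₗ[ℂ] (Fin 2 → ℂ) := LinearMap.pi fun i =>
    if hi : (i : ℕ) < Module.finrank ℂ K then b.coord ⟨i, hi⟩ else 0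
  have he : ∀ u : K, e u = 0 → u = 0 := by
    intro u hu
    apply b.ext_elem
    intro i
    have h5 : e u ⟨i, by omega⟩ = 0 := by
      rw [hu]
      rfl
    have h6 : e u ⟨i, by omega⟩ = b.coord i u := by
      show (if hi : (i : ℕ) < Module.finrank ℂ K then b.coord ⟨i, hi⟩ else 0 : K →ₗ[ℂ] ℂ) u = _
      rw [dif_pos i.2]
    rw [h6] at h5
    simpa using h5
  obtain ⟨g', hg'⟩ := LinearMap.exists_extend e
  refine ⟨g', fun x hx hs h0 => ?_⟩
  have h7 : e ⟨x, hx, hs⟩ = 0 := by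
    rw [← hg']
    exact h0
  exact congrArg Subtype.val (he _ h7)

/-- `mq N x π f` as a linear form in `x` -/
private noncomputable def TwD_mqL (N π : ℕ) (f : ℤ → ℂ) : (ℕ → ℕ → ℂ) →ₗ[ℂ] ℂ where
  toFun x := mq N x π f
  map_add' x y := mq_add' N x y π f
  map_smul' r x := mq_smul' N x r π f

private noncomputable def TwD_Z (x y : ℕ → ℂ) (ε : ZMod 2) : ℕ → ℂ := if ε = 0 then x else y

private theorem TwD_mq (x y : ℕ → ℂ) (π : ℕ) (f : ℤ → ℂ) :
    mq N (emb 0 x + emb 1 y) π f =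
      ∑ s : Fin (N + 1), TwD_Z x y ((π : ZMod 2) + (((s : ℕ) : ℕ) : ZMod 2)) s * f ((s : ℕ) : ℤ) := by
  unfold mq
  rw [Finset.sum_range fun s => (emb 0 x + emb 1 y) (π % 2) s * f ((s : ℕ) : ℤ)]
  refine Finset.sum_congr rfl fun s _ => ?_
  congr 1
  have h1 : (emb 0 x + emb 1 y) (π % 2) (s : ℕ) =
      (if (s : ℕ) % 2 = (π % 2 + 0) % 2 then x s else 0) +
        (if (s : ℕ) % 2 = (π % 2 + 1) % 2 then y s else 0) := rfl
  rw [h1]
  unfold TwD_Z
  have h2 : ((π : ZMod 2) + (((s : ℕ) : ℕ) : ZMod 2) = 0) ↔ (π + (s : ℕ)) % 2 = 0 := by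
    rw [← Nat.cast_add, ZMod.natCast_eq_zero_iff, Nat.dvd_iff_mod_eq_zero]
  by_cases h3 : (π + (s : ℕ)) % 2 = 0
  · rw [if_pos (h2.2 h3), if_pos (by omega), if_neg (by omega), add_zero]
  · rw [if_neg (fun h => h3 (h2.1 h)), if_neg (by omega), if_pos (by omega), zero_add]

private theorem TwD_eg (M : Mt N) (lam : ℂ) (x : ℕ → ℂ) (hx : EgG (ex M) N lam x) (i : Fin (N + 1)) :
    ∑ s : Fin (N + 1), M i s * x s = lam * x i := by
  have h1 := hx i (Nat.lt_succ_iff.1 i.2)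
  rw [← h1, Finset.sum_range fun s => ex M (i : ℕ) s * x s]
  refine Finset.sum_congr rfl fun s _ => ?_
  have h2 : ex M (i : ℕ) (s : ℕ) = M i s := by
    unfold ex
    rw [dif_pos ⟨i.2, s.2⟩]
  rw [h2]

private theorem TwD_dbl (M : Mt N) (lam : ℂ) (x y : ℕ → ℂ) (hx : EgG (ex M) N lam x)
    (hy : EgG (ex M) N lam y) (F : FF) :
    ∑ π : ZMod 2, ∑ s : Fin (N + 1), TwD_Z x y (π + ((s : ℕ) : ZMod 2)) s * actD M 0 F π s =
      lam * ∑ π : ZMod 2, ∑ s : Fin (N + 1),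
        TwD_Z x y (π + ((s : ℕ) : ZMod 2)) s * F π ((s : ℕ) : ℤ) := by
  have hZ : ∀ (ε : ZMod 2) (i : Fin (N + 1)),
      ∑ s : Fin (N + 1), M i s * TwD_Z x y ε s = lam * TwD_Z x y ε i := by
    intro ε i
    unfold TwD_Z
    by_cases h : ε = 0
    · simp only [if_pos h]
      exact TwD_eg M lam x hx i
    · simp only [if_neg h]
      exact TwD_eg M lam y hy i
  have h2 : ∀ a b : ZMod 2, a + b + b = a := by decide
  have h3 : ∀ a b c : ZMod 2, a + b + c + b = a + c := by decide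
  have hL : ∑ π : ZMod 2, ∑ s : Fin (N + 1), TwD_Z x y (π + ((s : ℕ) : ZMod 2)) s * actD M 0 F π s =
      ∑ s : Fin (N + 1), ∑ ε : ZMod 2, TwD_Z x y ε s *
        ∑ i : Fin (N + 1), M i s * F (ε + ((i : ℕ) : ZMod 2)) ((i : ℕ) : ℤ) := by
    rw [Finset.sum_comm]
    refine Finset.sum_congr rfl fun s _ => ?_
    rw [← Equiv.sum_comp (Equiv.addRight ((s : ℕ) : ZMod 2))]
    refine Finset.sum_congr rfl fun ε _ => ?_
    rw [Equiv.coe_addRight, h2]
    unfold actD
    rw [pow_zero, one_mul]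
    congr 1
    refine Finset.sum_congr rfl fun i _ => ?_
    rw [h3]
  have hR : ∑ π : ZMod 2, ∑ s : Fin (N + 1),
        TwD_Z x y (π + ((s : ℕ) : ZMod 2)) s * F π ((s : ℕ) : ℤ) =
      ∑ i : Fin (N + 1), ∑ ε : ZMod 2,
        TwD_Z x y ε i * F (ε + ((i : ℕ) : ZMod 2)) ((i : ℕ) : ℤ) := by
    rw [Finset.sum_comm]
    refine Finset.sum_congr rfl fun i _ => ?_
    rw [← Equiv.sum_comp (Equiv.addRight ((i : ℕ) : ZMod 2))]
    refine Finset.sum_congr rfl fun ε _ => ?_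
    rw [Equiv.coe_addRight, h2]
  rw [hL, hR, Finset.sum_comm, Finset.sum_comm (s := (Finset.univ : Finset (Fin (N + 1)))),
    Finset.mul_sum]
  refine Finset.sum_congr rfl fun ε _ => ?_
  simp only [Finset.mul_sum]
  rw [Finset.sum_comm]
  refine Finset.sum_congr rfl fun i _ => ?_
  have h4 : ∑ s : Fin (N + 1), TwD_Z x y ε s * (M i s * F (ε + ((i : ℕ) : ZMod 2)) ((i : ℕ) : ℤ)) =
      (∑ s : Fin (N + 1), M i s * TwD_Z x y ε s) * F (ε + ((i : ℕ) : ZMod 2)) ((i : ℕ) : ℤ) := by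
    rw [Finset.sum_mul]
    exact Finset.sum_congr rfl fun s _ => by ring
  rw [h4, hZ]
  ring

private noncomputable def TwD_A (N : ℕ) (z : ℕ → ℕ → ℂ) (F : FF) : ℂ :=
  ∑ π : ZMod 2, mq N z π.val (F π)

private theorem TwD_A_eq (x y : ℕ → ℂ) (F : FF) :
    TwD_A N (emb 0 x + emb 1 y) F = ∑ π : ZMod 2, ∑ s : Fin (N + 1),
        TwD_Z x y (π + ((s : ℕ) : ZMod 2)) s * F π ((s : ℕ) : ℤ) := by
  unfold TwD_A
  refine Finset.sum_congr rfl fun π _ => ?_
  rw [TwD_mq, ZMod.natCast_zmod_val]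

private theorem TwD_A_single (z : ℕ → ℕ → ℂ) (π : ℕ) (f : ℤ → ℂ) :
    TwD_A N z (fun π' s => if π' = (π : ZMod 2) then f s else 0) = mq N z π f := by
  unfold TwD_A
  rw [Finset.sum_eq_single (π : ZMod 2)]
  · simp only [if_true]
    refine mq_mod _ ?_
    rw [ZMod.val_natCast, Nat.mod_mod]
  · intro b _ hb
    simp only [if_neg hb]
    unfold mq
    simp
  · intro h
    exact absurd (Finset.mem_univ _) h

private theorem TwD_A_lin (z : ℕ → ℕ → ℂ) (d w : ℂ) (F G : FF) :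
    TwD_A N z (fun π s => d * F π s + w * (qf N s * F π s + 3 * G π s)) =
      d * TwD_A N z F + w * (TwD_A N z (fun π s => qf N s * F π s) + 3 * TwD_A N z G) := by
  unfold TwD_A mq
  simp only [Finset.mul_sum, ← Finset.sum_add_distrib]
  refine Finset.sum_congr rfl fun π _ => Finset.sum_congr rfl fun s _ => ?_
  ring

private theorem TwD_eq (M : Mt N) (d w : ℂ)
    (h : ∀ F : FF, PD O F → ∃ G : FF, PD O G ∧ ∀ (π : ZMod 2) (s : Fin (N + 1)), actD M 0 F π s =
      d * F π ((s : ℕ) : ℤ) + w * (qf N ((s : ℕ) : ℤ) * F π ((s : ℕ) : ℤ) + 3 * G π ((s : ℕ) : ℤ)))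
    (lam : ℂ) (x y : ℕ → ℂ) (hx : EgG (ex M) N lam x) (hy : EgG (ex M) N lam y)
    (hz : NmPr O N (emb 0 x + emb 1 y)) (π : ℕ) (f : ℤ → ℂ) (hf : PO O f) :
    ∃ ρ : ℂ, O.valuation ρ ≤ 1 ∧ lam * mq N (emb 0 x + emb 1 y) π f =
      d * mq N (emb 0 x + emb 1 y) π f +
        w * (mq N (emb 0 x + emb 1 y) π (fun s => qf N s * f s) + 3 * ρ) := by
  set F : FF := fun π' s => if π' = (π : ZMod 2) then f s else 0 with hF
  obtain ⟨G, hG, hGe⟩ := h F (pd_single f hf _)
  refine ⟨TwD_A N (emb 0 x + emb 1 y) G, ?_, ?_⟩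
  · unfold TwD_A
    exact Valuation.map_sum_le _ fun π' _ => hz.mem _ _ (hG π')
  · have h1 := TwD_dbl M lam x y hx hy F
    have h2 : ∑ π : ZMod 2, ∑ s : Fin (N + 1), TwD_Z x y (π + ((s : ℕ) : ZMod 2)) s * actD M 0 F π s =
        TwD_A N (emb 0 x + emb 1 y) (fun π s => d * F π s + w * (qf N s * F π s + 3 * G π s)) := by
      rw [TwD_A_eq]
      refine Finset.sum_congr rfl fun π' _ => Finset.sum_congr rfl fun s _ => ?_
      rw [hGe]
    rw [h2, TwD_A_lin, ← TwD_A_eq] at h1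
    have h3 : TwD_A N (emb 0 x + emb 1 y) F = mq N (emb 0 x + emb 1 y) π f := TwD_A_single _ _ _
    have h4 : TwD_A N (emb 0 x + emb 1 y) (fun π s => qf N s * F π s) =
        mq N (emb 0 x + emb 1 y) π (fun s => qf N s * f s) := by
      rw [← TwD_A_single (emb 0 x + emb 1 y) π (fun s => qf N s * f s)]
      congr 1
      funext π' s
      rw [hF]
      by_cases hp : π' = (π : ZMod 2)
      · simp only [if_pos hp]
      · simp only [if_neg hp, mul_zero]
    rw [h3, h4] at h1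
    exact h1.symm

private theorem TwD_pow (O : ValuationSubring ℂ) (n : ℕ) : PO O (fun s => (s : ℂ) ^ n) := by
  induction n with
  | zero =>
    have h := PO_const (O := O) 1 (by rw [map_one])
    simpa using h
  | succ n ih =>
    have h := PO_mul ih (PO_id (O := O))
    simpa only [pow_succ] using h

private theorem TwD_q (z : ℕ → ℕ → ℂ) (π n : ℕ) :
    mq N z π (fun s => qf N s * (s : ℂ) ^ n) =
      mq N z π (fun s => (s : ℂ) ^ (n + 2)) - N * mq N z π (fun s => (s : ℂ) ^ (n + 1)) := by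
  unfold mq qf
  rw [Finset.mul_sum, ← Finset.sum_sub_distrib]
  refine Finset.sum_congr rfl fun s _ => ?_
  ring

private theorem TwD_fin (h3 : O.valuation 3 < 1) (M : Mt N) (d w : ℂ) (hw : w ≠ 0)
    (h : ∀ F : FF, PD O F → ∃ G : FF, PD O G ∧ ∀ (π : ZMod 2) (s : Fin (N + 1)), actD M 0 F π s =
      d * F π ((s : ℕ) : ℤ) + w * (qf N ((s : ℕ) : ℤ) * F π ((s : ℕ) : ℤ) + 3 * G π ((s : ℕ) : ℤ)))
    (lam : ℂ) (x y : ℕ → ℂ) (hx : EgG (ex M) N lam x) (hy : EgG (ex M) N lam y)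
    (hz : NmPr O N (emb 0 x + emb 1 y))
    (h0 : ∀ π : ℕ, π < 2 → mq N (emb 0 x + emb 1 y) π (fun _ => 1) = 0)
    (h1 : ∀ π : ℕ, π < 2 → mq N (emb 0 x + emb 1 y) π (fun s => (s : ℂ)) = 0) : False := by
  set z := emb 0 x + emb 1 y with hzdef
  set ν : ℂ := (lam - d) / w with hν
  have hE : ∀ (π : ℕ) (f : ℤ → ℂ), PO O f → ∃ ρ : ℂ, O.valuation ρ ≤ 1 ∧
      ν * mq N z π f = mq N z π (fun s => qf N s * f s) + 3 * ρ := by
    intro π f hf
    obtain ⟨ρ, hρ, he⟩ := TwD_eq M d w h lam x y hx hy hz π f hf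
    refine ⟨ρ, hρ, ?_⟩
    rw [hν]
    field_simp
    linear_combination he
  have hq : PO O (qf N) := po_q O N
  obtain ⟨π, n, hu⟩ := hz.unit
  rcases lt_or_ge 1 (O.valuation ν) with hv | hv
  · obtain ⟨ρ, hρ, he⟩ := hE π _ (TwD_pow O n)
    have h2 : O.valuation (ν * mq N z π fun s => (s : ℂ) ^ n) ≤ 1 := by
      rw [he]
      refine (O.valuation.map_add _ _).trans (max_le (hz.mem _ _ (PO_mul hq (TwD_pow O n))) ?_)
      rw [map_mul]
      exact mul_le_one' h3.le hρ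
    rw [map_mul, hu, mul_one] at h2
    exact absurd hv (not_lt.2 h2)
  · have hmod : ∀ π : ℕ, mq N z π (fun _ => 1) = 0 ∧ mq N z π (fun s => (s : ℂ)) = 0 := by
      intro π
      have h4 : π % 2 % 2 = π % 2 := Nat.mod_mod _ _
      refine ⟨?_, ?_⟩
      · rw [← mq_mod _ h4]
        exact h0 _ (Nat.mod_lt _ (by norm_num))
      · rw [← mq_mod _ h4]
        exact h1 _ (Nat.mod_lt _ (by norm_num))
    have hall : ∀ n : ℕ, O.valuation (mq N z π fun s => (s : ℂ) ^ n) < 1 ∧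
        O.valuation (mq N z π fun s => (s : ℂ) ^ (n + 1)) < 1 := by
      intro n
      induction n with
      | zero =>
        refine ⟨?_, ?_⟩
        · have h5 : (fun s : ℤ => (s : ℂ) ^ 0) = fun _ => 1 := by
            funext s
            rw [pow_zero]
          rw [h5, (hmod π).1, map_zero]
          exact zero_lt_one
        · have h5 : (fun s : ℤ => (s : ℂ) ^ (0 + 1)) = fun s : ℤ => (s : ℂ) := by
            funext s
            rw [zero_add, pow_one]
          rw [h5, (hmod π).2, map_zero]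
          exact zero_lt_one
      | succ n ih =>
        refine ⟨ih.2, ?_⟩
        obtain ⟨ρ, hρ, he⟩ := hE π _ (TwD_pow O n)
        rw [TwD_q] at he
        have h6 : mq N z π (fun s => (s : ℂ) ^ (n + 1 + 1)) =
            ((N : ℤ) : ℂ) * mq N z π (fun s => (s : ℂ) ^ (n + 1)) +
              (ν * mq N z π (fun s => (s : ℂ) ^ n) - 3 * ρ) := by
          have h7 : n + 1 + 1 = n + 2 := rfl
          rw [h7]
          push_cast
          linear_combination -he
        rw [h6]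
        refine (O.valuation.map_add _ _).trans_lt (max_lt ?_ ?_)
        · rw [map_mul]
          exact (mul_le_mul_left (int_mem O (N : ℤ)) _).trans_lt (by rw [one_mul]; exact ih.2)
        · refine (O.valuation.map_sub _ _).trans_lt (max_lt ?_ ?_)
          · rw [map_mul]
            exact (mul_le_mul_left hv _).trans_lt (by rw [one_mul]; exact ih.1)
          · rw [map_mul]
            exact (mul_le_mul_right hρ _).trans_lt (by rw [mul_one]; exact h3)
    exact absurd hu (hall n).1.ne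

theorem two_dbl (h3 : O.valuation 3 < 1) (M : Mt N) (d w : ℂ) (hw : w ≠ 0)
    (h : ∀ F : FF, PD O F → ∃ G : FF, PD O G ∧ ∀ (π : ZMod 2) (s : Fin (N + 1)), actD M 0 F π s =
      d * F π ((s : ℕ) : ℤ) + w * (qf N ((s : ℕ) : ℤ) * F π ((s : ℕ) : ℤ) + 3 * G π ((s : ℕ) : ℤ))) :
    Two (ex M) N := by
  refine two_of_four _ _ fun lam => ?_
  refine ⟨(LinearMap.pi ![TwD_mqL N 0 (fun _ => 1), TwD_mqL N 0 (fun s => (s : ℂ)),
    TwD_mqL N 1 (fun _ => 1), TwD_mqL N 1 (fun s => (s : ℂ))]) ∘ₗ ((emb 0).coprod (emb 1)),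
    fun x y hx hy hxN hyN hL => ?_⟩
  by_contra hne
  have hex : ∃ π < 2, ∃ s ≤ N, (emb 0 x + emb 1 y) π s ≠ 0 := by
    by_contra hcon
    push Not at hcon
    have hval : ∀ π s, (emb 0 x + emb 1 y) π s =
        (if s % 2 = (π + 0) % 2 then x s else 0) + (if s % 2 = (π + 1) % 2 then y s else 0) :=
      fun π s => rfl
    refine hne ⟨funext fun s => ?_, funext fun s => ?_⟩
    · rcases Nat.lt_or_ge N s with h | h
      · exact hxN s h
      · have h1 := hcon (s % 2) (Nat.mod_lt _ (by norm_num)) s h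
        rw [hval, if_pos (by omega), if_neg (by omega), add_zero] at h1
        exact h1
    · rcases Nat.lt_or_ge N s with h | h
      · exact hyN s h
      · have h1 := hcon ((s + 1) % 2) (Nat.mod_lt _ (by norm_num)) s h
        rw [hval, if_neg (by omega), if_pos (by omega), zero_add] at h1
        exact h1
  obtain ⟨r, -, hr⟩ := nrmPr O N _ hex
  have hsc : (fun π s => r * (emb 0 x + emb 1 y) π s) = emb 0 (r • x) + emb 1 (r • y) := by
    rw [map_smul, map_smul, ← smul_add]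
    rfl
  have hsm : ∀ u : ℕ → ℂ, EgG (ex M) N lam u → EgG (ex M) N lam (r • u) := by
    intro u hu j hj
    have h1 := hu j hj
    simp only [Pi.smul_apply, smul_eq_mul]
    have h2 : ∀ s, ex M j s * (r * u s) = r * (ex M j s * u s) := fun s => by ring
    simp only [h2, ← Finset.mul_sum, h1]
    ring
  have e0 : mq N (emb 0 x + emb 1 y) 0 (fun _ => 1) = 0 := congrFun hL 0
  have e1 : mq N (emb 0 x + emb 1 y) 0 (fun s => (s : ℂ)) = 0 := congrFun hL 1
  have e2 : mq N (emb 0 x + emb 1 y) 1 (fun _ => 1) = 0 := congrFun hL 2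
  have e3 : mq N (emb 0 x + emb 1 y) 1 (fun s => (s : ℂ)) = 0 := congrFun hL 3
  rw [hsc] at hr
  refine TwD_fin h3 M d w hw h lam (r • x) (r • y) (hsm x hx) (hsm y hy) hr ?_ ?_
  · intro π hπ
    rw [← hsc, mq_smul']
    interval_cases π
    · rw [e0, mul_zero]
    · rw [e2, mul_zero]
  · intro π hπ
    rw [← hsc, mq_smul']
    interval_cases π
    · rw [e1, mul_zero]
    · rw [e3, mul_zero]

end Pool.Agent.Lib.MP_06b9d2_tlm
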